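import Pool.Agent.PepsY.Routed
import Pool.Agent.PepsX.Basic

/-!
# Frustration-free, locally gapped Hamiltonians: definitions
-/

open Finset
open scoped InnerProductSpace

set_option autoImplicit false
set_option linter.unusedSectionVars false

namespace Pool.Agent.FFG

open Pool.Agent.PEPS953 Pool.Agent.PepsX

section Abstract

variable {E : Type} [NormedAddCommGroup E] [InnerProductSpace ℂ E] [CompleteSpace E]

/-- `G` is the orthogonal projection onto the common kernel of the `Q v`, `v ∈ A`. -/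
structure IsKer {ι : Type} (Q : ι → E →L[ℂ] E) (A : Finset ι) (G : E →L[ℂ] E) : Prop where
  proj : IsStarProjection G
  zero : ∀ v ∈ A, Q v * G = 0
  fix : ∀ x, (∀ v ∈ A, Q v x = 0) → G x = x

/-- The local gap inequality with constant `γ` for the projections `Q v` and the ground state
projections `G A`. -/
def LGap {ι : Type} (Q : ι → E →L[ℂ] E) (G : Finset ι → E →L[ℂ] E) (γ : ℝ) : Prop :=
  ∀ (A : Finset ι) (x : E), γ * ‖x - G A x‖ ^ 2 ≤ ∑ v ∈ A, ‖Q v x‖ ^ 2

/-- The projections `Q v` have the noncommutation relation `nc`, with degrees at most `g`. -/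
structure Sys {ι : Type} (Q : ι → E →L[ℂ] E) (nc : ι → ι → Prop) (g : ℕ) : Prop where
  proj : ∀ v, IsStarProjection (Q v)
  symm : ∀ v w, nc v w → nc w v
  comm : ∀ v w, ¬ nc v w → Q v * Q w = Q w * Q v
  deg : ∀ v, {w | nc v w}.ncard ≤ g

end Abstract

/-! ### Geometry of the torus -/

/-- The circular distance. -/
def cdist {L : ℕ} (x y : ZMod L) : ℕ := (x - y).valMinAbs.natAbs

/-- The distance on the torus. -/
def sdist {L : ℕ} (u v : Site L) : ℕ := max (cdist u.1 v.1) (cdist u.2 v.2)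

/-- The boxes at `u` and `v` overlap. -/
def ov {L : ℕ} (r : ℕ) (u v : Site L) : Prop := ∃ p q : Box r, boxPos L r u p = boxPos L r v q

/-- The indices of the intervals of the partition which meet the window of radius `w` about `x`. -/
def al (L R w : ℕ) (x : ZMod L) : Finset ℕ :=
  (range (2 * w + 1)).image fun t : ℕ => cidx L R (x - (w : ZMod L) + (t : ZMod L))

/-- The cells to which a position belongs. -/
def ph (L R w₀ w₁ : ℕ) (u : Site L) : Finset (ℕ × ℕ) :=
  if (al L R w₀ u.1).card = 2 ∧ (al L R w₀ u.2).card = 2 then al L R w₀ u.1 ×ˢ al L R w₀ u.2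
  else al L R w₁ u.1 ×ˢ al L R w₁ u.2

/-- The cells are indexed by pairs of intervals. -/
abbrev CI (L R : ℕ) : Type := Fin (L / R) × Fin (L / R)

variable {L : ℕ} [NeZero L]

/-- The positions of the cell `c`. -/
def cellS (R w₀ w₁ : ℕ) (c : CI L R) : Finset (Site L) :=
  univ.filter fun u => ((c.1 : ℕ), (c.2 : ℕ)) ∈ ph L R w₀ w₁ u

/-- The rectangle of radius `W` about the cell `c`. -/
def hull (R W : ℕ) (c : CI L R) : Finset (Site L) :=
  univ.filter fun u => (c.1 : ℕ) ∈ al L R W u.1 ∧ (c.2 : ℕ) ∈ al L R W u.2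

/-- The colour of an interval. -/
def icol (k : ℕ) (i : Fin k) : Fin 3 :=
  if (i : ℕ) + 1 = k then 2 else if (i : ℕ) % 2 = 0 then 0 else 1

/-- The colour of a cell. -/
def ccol {R : ℕ} (c : CI L R) : Fin 3 × Fin 3 := (icol _ c.1, icol _ c.2)

/-! ### Locality -/

variable {d : ℕ}

/-- The one-site operator with the matrix unit `|a⟩⟨b|` at `u`. -/
noncomputable def su (u : Site L) (a b : Fin d) : Hil d L →L[ℂ] Hil d L :=
  Matrix.toEuclideanCLM (𝕜 := ℂ) (n := Conf d L)
    fun s s' => if s u = a ∧ s' u = b ∧ ∀ v, v ≠ u → s v = s' v then 1 else 0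

/-- The operator `O` acts on the sites in `K` only. -/
def LocalOn (K : Finset (Site L)) (O : Hil d L →L[ℂ] Hil d L) : Prop :=
  ∀ u, u ∉ K → ∀ a b : Fin d, su u a b * O = O * su u a b

/-- The matrix of an operator. -/
noncomputable def mat (O : Hil d L →L[ℂ] Hil d L) : Matrix (Conf d L) (Conf d L) ℂ :=
  (Matrix.toEuclideanCLM (𝕜 := ℂ) (n := Conf d L)).symm O

/-- The sum of the terms at the positions in `A`. -/
noncomputable def hamOn {r : ℕ} (h : Matrix (LConf d r) (LConf d r) ℂ) (A : Finset (Site L)) :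
    Hil d L →L[ℂ] Hil d L := ∑ v ∈ A, locOp L h v

/-- The projection onto the orthogonal complement of the kernel of the term at `v`. -/
noncomputable def Qv {r : ℕ} (h : Matrix (LConf d r) (LConf d r) ℂ) (v : Site L) :
    Hil d L →L[ℂ] Hil d L :=
  1 - (LinearMap.ker (locOp L h v : Hil d L →ₗ[ℂ] Hil d L)).starProjection

/-- The ground state projection of the region `A`. -/
noncomputable def GA {r : ℕ} (h : Matrix (LConf d r) (LConf d r) ℂ) (A : Finset (Site L)) :
    Hil d L →L[ℂ] Hil d L :=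
  (LinearMap.ker (hamOn h A : Hil d L →ₗ[ℂ] Hil d L)).starProjection

/-- All nonzero eigenvalues of all the partial Hamiltonians are at least `γ`. -/
def LocGap {r : ℕ} (L : ℕ) [NeZero L] (h : Matrix (LConf d r) (LConf d r) ℂ) (γ : ℝ) : Prop :=
  ∀ (A : Finset (Site L)) (E' : ℝ) (φ : Hil d L), φ ≠ 0 → hamOn h A φ = (E' : ℂ) • φ →
    E' = 0 ∨ γ ≤ E'

/-- All nonzero eigenvalues of the partial Hamiltonian of the region `A` are at least `γ`. -/
def GapAt {r : ℕ} (h : Matrix (LConf d r) (LConf d r) ℂ) (A : Finset (Site L)) (γ : ℝ) : Prop :=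
  ∀ (E' : ℝ) (φ : Hil d L), φ ≠ 0 → hamOn h A φ = (E' : ℂ) • φ → E' = 0 ∨ γ ≤ E'

/-- The local gap condition: `γ₁` for the regions in a ball of radius `s`, and `γ₂` for all
regions. -/
structure LG {r : ℕ} (L : ℕ) [NeZero L] (h : Matrix (LConf d r) (LConf d r) ℂ) (s : ℕ)
    (γ₁ γ₂ : ℝ) : Prop where
  small : ∀ (A : Finset (Site L)) (v₀ : Site L), (∀ u ∈ A, sdist v₀ u ≤ s) → GapAt h A γ₁
  all : ∀ A : Finset (Site L), GapAt h A γ₂

/-- Removing the terms at `S` leaves at most `exp (κ (1 + |S|))` zero-energy states. -/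
def FewZero {r : ℕ} (L : ℕ) [NeZero L] (h : Matrix (LConf d r) (LConf d r) ℂ) (κ : ℝ) : Prop :=
  ∀ S : Finset (Site L),
    (Module.finrank ℂ (LinearMap.ker (hamOn h Sᶜ : Hil d L →ₗ[ℂ] Hil d L)) : ℝ) ≤
      Real.exp (κ * (1 + S.card))

end Pool.Agent.FFG
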