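import Pool.Agent.FFG.Defs
import Pool.Agent.Peps99.Count

/-!
# The detectability lemma
-/

set_option autoImplicit false
set_option linter.unusedSectionVars false
set_option linter.unusedVariables false

open Finset
open scoped InnerProductSpace

namespace Pool.Agent.FFG

open Pool.Agent.Peps99 (proj_sym proj_idem proj_pyth)


variable {E : Type} [NormedAddCommGroup E] [InnerProductSpace ℂ E] [CompleteSpace E]
variable {ι : Type} [DecidableEq ι]

/-- The product of the operators `1 - Q v` along a list (the head acts last). -/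
noncomputable def prodL (Q : ι → E →L[ℂ] E) (l : List ι) : E →L[ℂ] E :=
  (l.map fun v => 1 - Q v).prod

@[simp] lemma prodL_nil (Q : ι → E →L[ℂ] E) : prodL Q [] = 1 := rfl

lemma prodL_cons (Q : ι → E →L[ℂ] E) (v : ι) (l : List ι) :
    prodL Q (v :: l) = (1 - Q v) * prodL Q l := by simp [prodL]

lemma prodL_append (Q : ι → E →L[ℂ] E) (l l' : List ι) :
    prodL Q (l ++ l') = prodL Q l * prodL Q l' := by simp [prodL]

/-- The amount of violation found at `w`. -/
noncomputable def found (Q : ι → E →L[ℂ] E) (x : E) : List ι → ι → ℝ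
  | [] => fun _ => 0
  | v :: l => Function.update (found Q x l) v ‖Q v (prodL Q l x)‖

lemma found_nonneg (Q : ι → E →L[ℂ] E) (x : E) (l : List ι) (w : ι) : 0 ≤ found Q x l w := by
  induction l with
  | nil => exact le_rfl
  | cons v l ih =>
    by_cases h : w = v
    · subst h
      simp [found]
    · simpa [found, h] using ih

lemma one_sub_le {Q : E →L[ℂ] E} (hQ : IsStarProjection Q) (x : E) : ‖(1 - Q) x‖ ≤ ‖x‖ := by
  have := proj_pyth hQ x
  nlinarith [norm_nonneg ((1 - Q) x), norm_nonneg x, sq_nonneg ‖Q x‖]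

lemma proj_le {Q : E →L[ℂ] E} (hQ : IsStarProjection Q) (x : E) : ‖Q x‖ ≤ ‖x‖ := by
  have := proj_pyth hQ x
  nlinarith [norm_nonneg (Q x), norm_nonneg x, sq_nonneg ‖(1 - Q) x‖]

lemma sum_found (Q : ι → E →L[ℂ] E) (hQ : ∀ v, IsStarProjection (Q v)) (x : E) (l : List ι)
    (hl : l.Nodup) : ∑ w ∈ l.toFinset, found Q x l w ^ 2 = ‖x‖ ^ 2 - ‖prodL Q l x‖ ^ 2 := by
  induction l with
  | nil => simp
  | cons v l ih =>
    rw [List.nodup_cons] at hl
    have hv : v ∉ l.toFinset := by simpa using hl.1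
    rw [List.toFinset_cons, sum_insert hv]
    have h1 : ∑ w ∈ l.toFinset, found Q x (v :: l) w ^ 2 = ∑ w ∈ l.toFinset, found Q x l w ^ 2 := by
      refine sum_congr rfl fun w hw => ?_
      have : w ≠ v := fun h => hv (h ▸ hw)
      simp [found, this]
    rw [h1, ih hl.2]
    have := proj_pyth (hQ v) (prodL Q l x)
    rw [prodL_cons]
    simp only [found, Function.update_self, mul_apply_eq_comp]
    linarith

lemma norm_le_found (Q : ι → E →L[ℂ] E) (hQ : ∀ v, IsStarProjection (Q v)) (ov : ι → ι → Prop)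
    [DecidableRel ov] (hov : ∀ v w, ¬ ov v w → Q v * Q w = Q w * Q v) (x : E) (l : List ι)
    (hl : l.Nodup) (v : ι) (hv : v ∈ l) :
    ‖Q v (prodL Q l x)‖ ≤ ∑ w ∈ l.toFinset with w ≠ v ∧ ov v w, found Q x l w := by
  induction l with
  | nil => simp at hv
  | cons a l ih =>
    rw [List.nodup_cons] at hl
    have ha : a ∉ l.toFinset := by simpa using hl.1
    rw [prodL_cons, mul_apply_eq_comp]
    by_cases hva : v = a
    · subst hva
      have : Q v ((1 - Q v) (prodL Q l x)) = 0 := by simp [proj_idem (hQ v)]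
      rw [this, norm_zero]
      exact sum_nonneg fun w _ => found_nonneg _ _ _ _
    · have hvl : v ∈ l := by
        rcases List.mem_cons.1 hv with h | h
        · exact absurd h hva
        · exact h
      have hih := ih hl.2 hvl
      have hsum : ∑ w ∈ l.toFinset with w ≠ v ∧ ov v w, found Q x l w =
          ∑ w ∈ l.toFinset with w ≠ v ∧ ov v w, found Q x (a :: l) w := by
        refine sum_congr rfl fun w hw => ?_
        have : w ≠ a := fun h => ha (h ▸ (mem_filter.1 hw).1)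
        simp [found, this]
      rw [List.toFinset_cons, filter_insert]
      by_cases hc : ov v a
      · rw [if_pos ⟨fun h => hva h.symm, hc⟩, sum_insert (by simp [ha]), ← hsum]
        have h1 : Q v ((1 - Q a) (prodL Q l x)) = Q v (prodL Q l x) - Q v (Q a (prodL Q l x)) := by
          simp
        rw [h1]
        refine (norm_sub_le _ _).trans ?_
        have h2 := proj_le (hQ v) (Q a (prodL Q l x))
        have h3 : found Q x (a :: l) a = ‖Q a (prodL Q l x)‖ := by simp [found]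
        rw [h3]
        linarith
      · rw [if_neg fun h => hc h.2, ← hsum]
        have h1 : Q v ((1 - Q a) (prodL Q l x)) = (1 - Q a) (Q v (prodL Q l x)) := by
          have := congrArg (fun T : E →L[ℂ] E => T (prodL Q l x)) (hov v a hc)
          simp only [mul_apply_eq_comp] at this
          simp [this]
        rw [h1]
        exact (one_sub_le (hQ a) _).trans hih

/-- **Detectability lemma** (Anshu, Arad, Vidick). -/
theorem detect_sum (Q : ι → E →L[ℂ] E) (hQ : ∀ v, IsStarProjection (Q v)) (ov : ι → ι → Prop)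
    [DecidableRel ov] (hsymm : ∀ v w, ov v w → ov w v)
    (hov : ∀ v w, ¬ ov v w → Q v * Q w = Q w * Q v) (x : E) (l : List ι)
    (hl : l.Nodup) (g : ℕ) (hg : ∀ v ∈ l, (l.toFinset.filter fun w => w ≠ v ∧ ov v w).card ≤ g) :
    ∑ v ∈ l.toFinset, ‖Q v (prodL Q l x)‖ ^ 2 ≤ (g : ℝ) ^ 2 * (‖x‖ ^ 2 - ‖prodL Q l x‖ ^ 2) := by
  rw [← sum_found Q hQ x l hl]
  have h1 : ∀ v ∈ l.toFinset, ‖Q v (prodL Q l x)‖ ^ 2 ≤
      g * ∑ w ∈ l.toFinset with w ≠ v ∧ ov v w, found Q x l w ^ 2 := by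
    intro v hv
    have hv' : v ∈ l := by simpa using hv
    have h2 := norm_le_found Q hQ ov hov x l hl v hv'
    have h3 : ‖Q v (prodL Q l x)‖ ^ 2 ≤
        (∑ w ∈ l.toFinset with w ≠ v ∧ ov v w, found Q x l w) ^ 2 :=
      pow_le_pow_left₀ (norm_nonneg _) h2 2
    refine h3.trans ?_
    refine (sq_sum_le_card_mul_sum_sq).trans ?_
    refine mul_le_mul_of_nonneg_right ?_ (sum_nonneg fun w _ => sq_nonneg _)
    exact_mod_cast hg v hv'
  calc ∑ v ∈ l.toFinset, ‖Q v (prodL Q l x)‖ ^ 2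
      ≤ ∑ v ∈ l.toFinset, (g : ℝ) * ∑ w ∈ l.toFinset with w ≠ v ∧ ov v w, found Q x l w ^ 2 :=
        sum_le_sum h1
    _ = g * ∑ w ∈ l.toFinset, ∑ v ∈ l.toFinset with w ≠ v ∧ ov v w, found Q x l w ^ 2 := by
        rw [← mul_sum]
        congr 1
        simp only [sum_filter]
        exact sum_comm
    _ ≤ g * ∑ w ∈ l.toFinset, g * found Q x l w ^ 2 := by
        refine mul_le_mul_of_nonneg_left (sum_le_sum fun w hw => ?_) (Nat.cast_nonneg g)
        rw [sum_const, nsmul_eq_mul]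
        refine mul_le_mul_of_nonneg_right ?_ (sq_nonneg _)
        have hw' : w ∈ l := by simpa using hw
        refine le_trans ?_ (Nat.cast_le.2 (hg w hw'))
        norm_cast
        refine card_le_card fun v hv => ?_
        simp only [mem_filter] at hv ⊢
        exact ⟨hv.1, fun h => hv.2.1 h.symm, hsymm _ _ hv.2.2⟩
    _ = (g : ℝ) ^ 2 * ∑ w ∈ l.toFinset, found Q x l w ^ 2 := by
        rw [← mul_sum]
        ring


lemma star_mul_eq {S T : E →L[ℂ] E} (hS : IsSelfAdjoint S) (hT : IsSelfAdjoint T) :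
    star (S * T) = T * S := by rw [star_mul, hS.star_eq, hT.star_eq]

lemma IsKer.zero' {Q : ι → E →L[ℂ] E} (hQ : ∀ v, IsStarProjection (Q v)) {A : Finset ι}
    {G : E →L[ℂ] E} (hG : IsKer Q A G) {v : ι} (hv : v ∈ A) : G * Q v = 0 := by
  have := congrArg star (hG.zero v hv)
  rwa [star_mul_eq (hQ v).isSelfAdjoint hG.proj.isSelfAdjoint, star_zero] at this

lemma prodL_isKer {Q : ι → E →L[ℂ] E} {A : Finset ι} {G : E →L[ℂ] E} (hG : IsKer Q A G)
    (l : List ι) (h : ∀ v ∈ l, v ∈ A) : prodL Q l * G = G := by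
  induction l with
  | nil => simp
  | cons v l ih =>
    rw [prodL_cons, mul_assoc, ih fun w hw => h w (by simp [hw]), sub_mul, one_mul,
      hG.zero v (h v (by simp)), sub_zero]

lemma isKer_prodL {Q : ι → E →L[ℂ] E} (hQ : ∀ v, IsStarProjection (Q v)) {A : Finset ι}
    {G : E →L[ℂ] E} (hG : IsKer Q A G) (l : List ι) (h : ∀ v ∈ l, v ∈ A) :
    G * prodL Q l = G := by
  induction l with
  | nil => simp
  | cons v l ih =>
    rw [prodL_cons, ← mul_assoc, mul_sub, mul_one, hG.zero' hQ (h v (by simp)), sub_zero,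
      ih fun w hw => h w (by simp [hw])]

/-- F1: detectability lemma. -/
theorem detect {ι : Type} [Fintype ι] [DecidableEq ι] {Q : ι → E →L[ℂ] E} {nc : ι → ι → Prop}
    {g : ℕ} (hg : 0 < g) (hS : Sys Q nc g) {A : Finset ι} {G : E →L[ℂ] E} (hG : IsKer Q A G)
    {γ : ℝ} (hγ : 0 ≤ γ) (hgap : ∀ x, γ * ‖x - G x‖ ^ 2 ≤ ∑ v ∈ A, ‖Q v x‖ ^ 2)
    (l : List ι) (hl : l.Nodup) (hlA : ∀ v, v ∈ l ↔ v ∈ A) (q : ℕ) :
    ‖((l.map fun v => 1 - Q v).prod) ^ q - G‖ ^ 2 ≤ ((1 + γ / (g : ℝ) ^ 2)⁻¹) ^ q := by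
  classical
  have hlf : l.toFinset = A := by
    ext v
    rw [List.mem_toFinset, hlA]
  have h5 : 0 < 1 + γ / (g : ℝ) ^ 2 := by positivity
  have hg' : (0 : ℝ) < (g : ℝ) ^ 2 := by positivity
  change ‖prodL Q l ^ q - G‖ ^ 2 ≤ _
  have hDG : prodL Q l * G = G := prodL_isKer hG l fun v hv => (hlA v).1 hv
  have hGD : G * prodL Q l = G := isKer_prodL hS.proj hG l fun v hv => (hlA v).1 hv
  have hdeg : ∀ v ∈ l, (l.toFinset.filter fun w => w ≠ v ∧ nc v w).card ≤ g := by
    intro v _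
    refine le_trans ?_ (hS.deg v)
    rw [← Set.ncard_coe_finset]
    refine Set.ncard_le_ncard (fun w hw => ?_) (Set.toFinite _)
    have hw' := mem_filter.1 (mem_coe.1 hw)
    exact hw'.2.2
  -- one step
  have hstep : ∀ y, G y = 0 → G (prodL Q l y) = 0 ∧
      ‖prodL Q l y‖ ^ 2 ≤ (1 + γ / (g : ℝ) ^ 2)⁻¹ * ‖y‖ ^ 2 := by
    intro y hy
    have h0 : G (prodL Q l y) = 0 := by
      have := congrArg (fun T : E →L[ℂ] E => T y) hGD
      simp only [mul_apply_eq_comp] at this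
      rw [this, hy]
    refine ⟨h0, ?_⟩
    have h1 := detect_sum Q hS.proj nc hS.symm hS.comm y l hl g hdeg
    have h2 := hgap (prodL Q l y)
    rw [h0, sub_zero, ← hlf] at h2
    have h3 : (1 + γ / (g : ℝ) ^ 2) * ‖prodL Q l y‖ ^ 2 ≤ ‖y‖ ^ 2 := by
      have h4 : γ / (g : ℝ) ^ 2 * ‖prodL Q l y‖ ^ 2 ≤ ‖y‖ ^ 2 - ‖prodL Q l y‖ ^ 2 := by
        rw [div_mul_eq_mul_div, div_le_iff₀ hg']
        linarith
      nlinarith
    rw [inv_mul_eq_div, le_div_iff₀ h5]
    linarith
  have hGp : ∀ k, prodL Q l ^ k * G = G := by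
    intro k
    induction k with
    | zero => simp
    | succ k ih => rw [pow_succ, mul_assoc, hDG, ih]
  have hx : ∀ x, ‖(prodL Q l ^ q - G) x‖ ^ 2 ≤ (1 + γ / (g : ℝ) ^ 2)⁻¹ ^ q * ‖x‖ ^ 2 := by
    intro x
    have h1 : (prodL Q l ^ q - G) x = (prodL Q l ^ q) (x - G x) := by
      have := congrArg (fun T : E →L[ℂ] E => T x) (hGp q)
      simp only [mul_apply_eq_comp] at this
      rw [map_sub, this]
      rfl
    rw [h1]
    have h2 : ∀ k, G ((prodL Q l ^ k) (x - G x)) = 0 ∧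
        ‖(prodL Q l ^ k) (x - G x)‖ ^ 2 ≤ (1 + γ / (g : ℝ) ^ 2)⁻¹ ^ k * ‖x - G x‖ ^ 2 := by
      intro k
      induction k with
      | zero => exact ⟨by simp [proj_idem hG.proj], by simp⟩
      | succ k ih =>
        have h3 := hstep _ ih.1
        rw [pow_succ', mul_apply_eq_comp]
        refine ⟨h3.1, h3.2.trans ?_⟩
        rw [pow_succ' ((1 + γ / (g : ℝ) ^ 2)⁻¹) k, mul_assoc]
        exact mul_le_mul_of_nonneg_left ih.2 (by positivity)
    refine (h2 q).2.trans (mul_le_mul_of_nonneg_left ?_ (by positivity))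
    have h3 : ‖x - G x‖ ≤ ‖x‖ := one_sub_le hG.proj x
    exact pow_le_pow_left₀ (norm_nonneg _) h3 2
  have h6 : ‖prodL Q l ^ q - G‖ ≤ Real.sqrt ((1 + γ / (g : ℝ) ^ 2)⁻¹ ^ q) := by
    refine ContinuousLinearMap.opNorm_le_bound _ (Real.sqrt_nonneg _) fun x => ?_
    have h3 : ‖(prodL Q l ^ q - G) x‖ = Real.sqrt (‖(prodL Q l ^ q - G) x‖ ^ 2) :=
      (Real.sqrt_sq (norm_nonneg _)).symm
    rw [h3, ← Real.sqrt_sq (norm_nonneg x), ← Real.sqrt_mul (by positivity)]
    exact Real.sqrt_le_sqrt (hx x)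
  calc ‖prodL Q l ^ q - G‖ ^ 2 ≤ Real.sqrt ((1 + γ / (g : ℝ) ^ 2)⁻¹ ^ q) ^ 2 :=
        pow_le_pow_left₀ (norm_nonneg _) h6 2
    _ = _ := Real.sq_sqrt (by positivity)

end Pool.Agent.FFG
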