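import Pool.Agent.FFG.Defs

/-!
# Local operators
-/

open Finset
open scoped InnerProductSpace

set_option autoImplicit false
set_option linter.unusedSectionVars false
set_option linter.unusedVariables false

namespace Pool.Agent.FFG

open Pool.Agent.PEPS953 Pool.Agent.PepsX Pool.Agent.PepsY

section Locality

variable {d L : ℕ} [NeZero L]

theorem LocalOn.mono {K K' : Finset (Site L)} (h : K ⊆ K') {O : Hil d L →L[ℂ] Hil d L}
    (hO : LocalOn K O) : LocalOn K' O := by
  intro u hu a b
  exact hO u (fun hu' => hu (h hu')) a b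

theorem localOn_one (K : Finset (Site L)) : LocalOn K (1 : Hil d L →L[ℂ] Hil d L) := by
  intro u _ a b
  rw [mul_one, one_mul]

theorem LocalOn.add {K : Finset (Site L)} {O O' : Hil d L →L[ℂ] Hil d L} (h : LocalOn K O)
    (h' : LocalOn K O') : LocalOn K (O + O') := by
  intro u hu a b
  rw [mul_add, add_mul, h u hu a b, h' u hu a b]

theorem LocalOn.smul {K : Finset (Site L)} {O : Hil d L →L[ℂ] Hil d L} (h : LocalOn K O)
    (c : ℂ) : LocalOn K (c • O) := by
  intro u hu a b
  rw [mul_smul_comm, smul_mul_assoc, h u hu a b]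

theorem LocalOn.mul {K : Finset (Site L)} {O O' : Hil d L →L[ℂ] Hil d L} (h : LocalOn K O)
    (h' : LocalOn K O') : LocalOn K (O * O') := by
  intro u hu a b
  rw [← mul_assoc, h u hu a b, mul_assoc, h' u hu a b, mul_assoc]

/-- The matrix of the one-site matrix unit. -/
def suM (u : Site L) (a b : Fin d) : Matrix (Conf d L) (Conf d L) ℂ :=
  fun s s' => if s u = a ∧ s' u = b ∧ ∀ v, v ≠ u → s v = s' v then 1 else 0

lemma su_eq (u : Site L) (a b : Fin d) :
    su u a b = Matrix.toEuclideanCLM (𝕜 := ℂ) (n := Conf d L) (suM u a b) := rfl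

lemma mat_su (u : Site L) (a b : Fin d) : mat (su u a b) = suM u a b := by
  rw [su_eq]; exact StarAlgEquiv.symm_apply_apply _ _

lemma mat_mul (O O' : Hil d L →L[ℂ] Hil d L) : mat (O * O') = mat O * mat O' :=
  map_mul _ _ _

lemma mat_inj {O O' : Hil d L →L[ℂ] Hil d L} (h : mat O = mat O') : O = O' :=
  (Matrix.toEuclideanCLM (𝕜 := ℂ) (n := Conf d L)).symm.injective h

lemma mat_locOp {r : ℕ} (h : Matrix (LConf d r) (LConf d r) ℂ) (v : Site L) :
    mat (locOp L h v) = translate L h v :=
  StarAlgEquiv.symm_apply_apply _ _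

lemma suM_mul (u : Site L) (a b : Fin d) (M : Matrix (Conf d L) (Conf d L) ℂ) (s s' : Conf d L) :
    (suM u a b * M) s s' = if s u = a then M (Function.update s u b) s' else 0 := by
  rw [Matrix.mul_apply]
  split_ifs with hs
  · rw [Finset.sum_eq_single (Function.update s u b)]
    · have : suM u a b s (Function.update s u b) = 1 := by
        unfold suM
        rw [if_pos]
        refine ⟨hs, Function.update_self _ _ _, fun v hv => ?_⟩
        rw [Function.update_of_ne hv]
      rw [this, one_mul]
    · intro t _ ht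
      have : suM u a b s t = 0 := by
        unfold suM
        rw [if_neg]
        rintro ⟨_, h2, h3⟩
        apply ht
        funext v
        by_cases hv : v = u
        · rw [hv, Function.update_self, h2]
        · rw [Function.update_of_ne hv, h3 v hv]
      rw [this, zero_mul]
    · intro h; exact absurd (Finset.mem_univ _) h
  · refine Finset.sum_eq_zero fun t _ => ?_
    have : suM u a b s t = 0 := by
      unfold suM
      rw [if_neg]
      rintro ⟨h1, _⟩
      exact hs h1
    rw [this, zero_mul]

lemma mul_suM (u : Site L) (a b : Fin d) (M : Matrix (Conf d L) (Conf d L) ℂ) (s s' : Conf d L) :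
    (M * suM u a b) s s' = if s' u = b then M s (Function.update s' u a) else 0 := by
  rw [Matrix.mul_apply]
  split_ifs with hs
  · rw [Finset.sum_eq_single (Function.update s' u a)]
    · have : suM u a b (Function.update s' u a) s' = 1 := by
        unfold suM
        rw [if_pos]
        refine ⟨Function.update_self _ _ _, hs, fun v hv => ?_⟩
        rw [Function.update_of_ne hv]
      rw [this, mul_one]
    · intro t _ ht
      have : suM u a b t s' = 0 := by
        unfold suM
        rw [if_neg]
        rintro ⟨h1, _, h3⟩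
        apply ht
        funext v
        by_cases hv : v = u
        · rw [hv, Function.update_self, h1]
        · rw [Function.update_of_ne hv, h3 v hv]
      rw [this, mul_zero]
    · intro h; exact absurd (Finset.mem_univ _) h
  · refine Finset.sum_eq_zero fun t _ => ?_
    have : suM u a b t s' = 0 := by
      unfold suM
      rw [if_neg]
      rintro ⟨_, h2, _⟩
      exact hs h2
    rw [this, mul_zero]

/-- Locality in terms of the matrix. -/
lemma localOn_iff {K : Finset (Site L)} {O : Hil d L →L[ℂ] Hil d L} :
    LocalOn K O ↔ ∀ u, u ∉ K → ∀ (a b : Fin d) (s s' : Conf d L),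
      (if s u = a then mat O (Function.update s u b) s' else 0) =
        if s' u = b then mat O s (Function.update s' u a) else 0 := by
  constructor
  · intro h u hu a b s s'
    have h1 : mat (su u a b * O) = mat (O * su u a b) := by rw [h u hu a b]
    rw [mat_mul, mat_mul, mat_su] at h1
    rw [← suM_mul, ← mul_suM, h1]
  · intro h u hu a b
    apply mat_inj
    rw [mat_mul, mat_mul, mat_su]
    ext s s'
    rw [suM_mul, mul_suM]
    exact h u hu a b s s'

theorem locOp_localOn {r : ℕ} (hrL : r ≤ L) (h : Matrix (LConf d r) (LConf d r) ℂ) (v : Site L) :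
    LocalOn (univ.image (boxPos L r v)) (locOp L h v) := by
  classical
  rw [localOn_iff]
  intro u hu a b s s'
  have hu' : ∀ p, boxPos L r v p ≠ u := by
    intro p hp
    exact hu (Finset.mem_image.mpr ⟨p, Finset.mem_univ _, hp⟩)
  have hur : u ∉ Set.range (boxPos L r v) := by
    rintro ⟨p, hp⟩
    exact hu' p hp
  rw [mat_locOp]
  have e1 : ∀ (t : Conf d L) (c : Fin d), (fun p => Function.update t u c (boxPos L r v p)) =
      fun p => t (boxPos L r v p) := by
    intro t c
    funext p
    rw [Function.update_of_ne (hu' p)]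
  unfold PEPS953.translate
  rw [e1, e1]
  have key : (s u = a ∧ ∀ w, w ∉ Set.range (boxPos L r v) → Function.update s u b w = s' w) ↔
      (s' u = b ∧ ∀ w, w ∉ Set.range (boxPos L r v) → s w = Function.update s' u a w) := by
    constructor
    · rintro ⟨h1, h2⟩
      have h3 := h2 u hur
      rw [Function.update_self] at h3
      refine ⟨h3.symm, fun w hw => ?_⟩
      by_cases hwu : w = u
      · rw [hwu, Function.update_self, h1]
      · have := h2 w hw
        rw [Function.update_of_ne hwu] at this
        rw [Function.update_of_ne hwu, this]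
    · rintro ⟨h1, h2⟩
      have h3 := h2 u hur
      rw [Function.update_self] at h3
      refine ⟨h3, fun w hw => ?_⟩
      by_cases hwu : w = u
      · rw [hwu, Function.update_self, h1]
      · have := h2 w hw
        rw [Function.update_of_ne hwu] at this
        rw [Function.update_of_ne hwu, this]
  rw [← ite_and, ← ite_and]
  by_cases hk : s u = a ∧ ∀ w, w ∉ Set.range (boxPos L r v) → Function.update s u b w = s' w
  · rw [if_pos hk, if_pos (key.mp hk)]
  · rw [if_neg hk, if_neg (fun h => hk (key.mpr h))]

/-- The adjoint of the matrix unit. -/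
lemma star_su (u : Site L) (a b : Fin d) : star (su (L := L) u a b) = su u b a := by
  rw [su_eq, su_eq, ← map_star]
  congr 1
  ext s s'
  rw [Matrix.star_apply]
  unfold suM
  have key : (s' u = a ∧ s u = b ∧ ∀ v, v ≠ u → s' v = s v) ↔
      (s u = b ∧ s' u = a ∧ ∀ v, v ≠ u → s v = s' v) := by
    constructor
    · rintro ⟨h1, h2, h3⟩
      exact ⟨h2, h1, fun v hv => (h3 v hv).symm⟩
    · rintro ⟨h1, h2, h3⟩
      exact ⟨h2, h1, fun v hv => (h3 v hv).symm⟩
  by_cases hk : s' u = a ∧ s u = b ∧ ∀ v, v ≠ u → s' v = s v
  · rw [if_pos hk, if_pos (key.mp hk), star_one]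
  · rw [if_neg hk, if_neg (fun h => hk (key.mpr h)), star_zero]

/-- An operator which, together with its adjoint, preserves a subspace commutes with the
orthogonal projection onto it. -/
lemma proj_comm {E : Type} [NormedAddCommGroup E] [InnerProductSpace ℂ E] [CompleteSpace E]
    (V : Submodule ℂ E) [V.HasOrthogonalProjection] (T : E →L[ℂ] E) (h : ∀ x ∈ V, T x ∈ V)
    (h' : ∀ x ∈ V, star T x ∈ V) : T * V.starProjection = V.starProjection * T := by
  ext x
  change T (V.starProjection x) = V.starProjection (T x)
  refine (Submodule.eq_starProjection_of_mem_of_inner_eq_zero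
    (h _ (Submodule.starProjection_apply_mem V x)) ?_).symm
  intro w hw
  rw [← map_sub]
  have h2 : ⟪T (x - V.starProjection x), w⟫_ℂ = ⟪x - V.starProjection x, star T w⟫_ℂ := by
    rw [ContinuousLinearMap.star_eq_adjoint, ContinuousLinearMap.adjoint_inner_right]
  rw [h2]
  exact Submodule.starProjection_inner_eq_zero _ _ (h' w hw)

/-- Commuting operators preserve kernels. -/
lemma ker_mem {E : Type} [NormedAddCommGroup E] [InnerProductSpace ℂ E]
    {O T : E →L[ℂ] E} (h : T * O = O * T) (x : E) (hx : x ∈ LinearMap.ker (O : E →ₗ[ℂ] E)) :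
    T x ∈ LinearMap.ker (O : E →ₗ[ℂ] E) := by
  have hx' : O x = 0 := hx
  have h2 : T (O x) = O (T x) := congrArg (fun S : E →L[ℂ] E => S x) h
  change O (T x) = 0
  rw [← h2, hx', map_zero]

/-- The orthogonal projection onto the kernel of a local self-adjoint operator is local. -/
theorem localOn_ker {K : Finset (Site L)} {O : Hil d L →L[ℂ] Hil d L}
    (hO : IsSelfAdjoint O) (h : LocalOn K O) :
    LocalOn K (LinearMap.ker (O : Hil d L →ₗ[ℂ] Hil d L)).starProjection := by
  intro u hu a b
  refine proj_comm _ (su u a b) (ker_mem (h u hu a b)) ?_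
  rw [star_su]
  exact ker_mem (h u hu b a)

lemma LocalOn.zero_of_ne {K : Finset (Site L)} {O : Hil d L →L[ℂ] Hil d L} (h : LocalOn K O)
    {s s' : Conf d L} {u : Site L} (hu : u ∉ K) (hs : s u ≠ s' u) : mat O s s' = 0 := by
  have h1 := localOn_iff.mp h u hu (s u) (s u) s s'
  rw [if_pos rfl, if_neg (fun h => hs h.symm), Function.update_eq_self] at h1
  exact h1

lemma LocalOn.update {K : Finset (Site L)} {O : Hil d L →L[ℂ] Hil d L} (h : LocalOn K O)
    {s s' : Conf d L} {u : Site L} (hu : u ∉ K) (hs : s u = s' u) (c : Fin d) :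
    mat O (Function.update s u c) (Function.update s' u c) = mat O s s' := by
  have h1 := localOn_iff.mp h u hu c (s u) (Function.update s u c) s'
  rw [if_pos (Function.update_self _ _ _), if_pos hs.symm, Function.update_idem,
    Function.update_eq_self] at h1
  exact h1.symm

lemma LocalOn.piecewise {K : Finset (Site L)} {O : Hil d L →L[ℂ] Hil d L} (h : LocalOn K O)
    {s s' : Conf d L} (hs : ∀ u, u ∉ K → s u = s' u) (s₀ : Conf d L) (T : Finset (Site L))
    (hT : ∀ u ∈ T, u ∉ K) :
    mat O (T.piecewise s₀ s) (T.piecewise s₀ s') = mat O s s' := by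
  classical
  induction T using Finset.induction with
  | empty => rw [Finset.piecewise_empty, Finset.piecewise_empty]
  | insert j T hj ih =>
    rw [Finset.piecewise_insert, Finset.piecewise_insert]
    have hjK : j ∉ K := hT j (Finset.mem_insert_self _ _)
    rw [h.update hjK]
    · exact ih fun u hu => hT u (Finset.mem_insert_of_mem hu)
    · rw [Finset.piecewise_eq_of_notMem _ _ _ hj, Finset.piecewise_eq_of_notMem _ _ _ hj]
      exact hs j hjK

/-- The matrix form of a local operator. -/
theorem LocalOn.form {K : Finset (Site L)} {O : Hil d L →L[ℂ] Hil d L} (h : LocalOn K O) :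
    ∃ m : (K → Fin d) → (K → Fin d) → ℂ, ∀ s s', mat O s s' =
      open scoped Classical in if ∀ u, u ∉ K → s u = s' u then m (fun u => s u) (fun u => s' u) else 0 := by
  classical
  rcases isEmpty_or_nonempty (Conf d L) with hE | ⟨⟨s₀⟩⟩
  · exact ⟨fun _ _ => 0, fun s => hE.elim s⟩
  · refine ⟨fun x y => mat O (fun u => if hu : u ∈ K then x ⟨u, hu⟩ else s₀ u)
      (fun u => if hu : u ∈ K then y ⟨u, hu⟩ else s₀ u), fun s s' => ?_⟩
    by_cases hs : ∀ u, u ∉ K → s u = s' u
    · rw [if_pos hs, ← h.piecewise hs s₀ (univ \ K) (fun u hu => (Finset.mem_sdiff.mp hu).2)]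
      have e1 : ∀ t : Conf d L, (univ \ K).piecewise s₀ t =
          fun u => if _hu : u ∈ K then t u else s₀ u := by
        intro t
        funext u
        by_cases hu : u ∈ K
        · rw [Finset.piecewise_eq_of_notMem _ _ _ (fun hu' => (Finset.mem_sdiff.mp hu').2 hu),
            dif_pos hu]
        · rw [Finset.piecewise_eq_of_mem _ _ _ (Finset.mem_sdiff.mpr ⟨Finset.mem_univ _, hu⟩),
            dif_neg hu]
      rw [e1, e1]
    · rw [if_neg hs]
      push Not at hs
      obtain ⟨u, hu, hne⟩ := hs
      exact h.zero_of_ne hu hne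

lemma form_mul {K K' : Finset (Site L)} (hK : Disjoint K K')
    {M M' : Matrix (Conf d L) (Conf d L) ℂ} {m : (K → Fin d) → (K → Fin d) → ℂ}
    {m' : (K' → Fin d) → (K' → Fin d) → ℂ}
    (hM : ∀ s s', M s s' =
      open scoped Classical in if ∀ u, u ∉ K → s u = s' u then m (fun u => s u) (fun u => s' u) else 0)
    (hM' : ∀ s s', M' s s' =
      open scoped Classical in if ∀ u, u ∉ K' → s u = s' u then m' (fun u => s u) (fun u => s' u) else 0)
    (s s' : Conf d L) :
    (M * M') s s' = open scoped Classical in if ∀ u, u ∉ K → u ∉ K' → s u = s' u then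
      m (fun u => s u) (fun u => s' u) * m' (fun u => s u) (fun u => s' u) else 0 := by
  classical
  rw [Matrix.mul_apply]
  have hd : ∀ u, u ∈ K → u ∉ K' := fun u hu hu' => Finset.disjoint_left.mp hK hu hu'
  by_cases hs : ∀ u, u ∉ K → u ∉ K' → s u = s' u
  · rw [if_pos hs, Finset.sum_eq_single (K.piecewise s' s)]
    · have h1 : ∀ u, u ∉ K → s u = K.piecewise s' s u := by
        intro u hu
        rw [Finset.piecewise_eq_of_notMem _ _ _ hu]
      have h2 : ∀ u, u ∉ K' → K.piecewise s' s u = s' u := by
        intro u hu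
        by_cases huK : u ∈ K
        · rw [Finset.piecewise_eq_of_mem _ _ _ huK]
        · rw [Finset.piecewise_eq_of_notMem _ _ _ huK, hs u huK hu]
      rw [hM, hM', if_pos h1, if_pos h2]
      have e1 : (fun u : K => K.piecewise s' s u) = fun u : K => s' u := by
        funext u
        rw [Finset.piecewise_eq_of_mem _ _ _ u.2]
      have e2 : (fun u : K' => K.piecewise s' s u) = fun u : K' => s u := by
        funext u
        rw [Finset.piecewise_eq_of_notMem _ _ _ (fun hu => hd u hu u.2)]
      rw [e1, e2]
    · intro t _ ht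
      rw [hM, hM']
      by_cases h1 : ∀ u, u ∉ K → s u = t u
      · by_cases h2 : ∀ u, u ∉ K' → t u = s' u
        · exfalso
          apply ht
          funext u
          by_cases huK : u ∈ K
          · rw [Finset.piecewise_eq_of_mem _ _ _ huK, h2 u (hd u huK)]
          · rw [Finset.piecewise_eq_of_notMem _ _ _ huK, h1 u huK]
        · rw [if_neg h2, mul_zero]
      · rw [if_neg h1, zero_mul]
    · intro h; exact absurd (Finset.mem_univ _) h
  · rw [if_neg hs]
    refine Finset.sum_eq_zero fun t _ => ?_
    rw [hM, hM']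
    by_cases h1 : ∀ u, u ∉ K → s u = t u
    · by_cases h2 : ∀ u, u ∉ K' → t u = s' u
      · exact absurd (fun u hu hu' => (h1 u hu).trans (h2 u hu')) hs
      · rw [if_neg h2, mul_zero]
    · rw [if_neg h1, zero_mul]

theorem LocalOn.commute {K K' : Finset (Site L)} (hK : Disjoint K K')
    {O O' : Hil d L →L[ℂ] Hil d L} (h : LocalOn K O) (h' : LocalOn K' O') :
    O * O' = O' * O := by
  classical
  obtain ⟨m, hm⟩ := h.form
  obtain ⟨m', hm'⟩ := h'.form
  apply mat_inj
  rw [mat_mul, mat_mul]
  ext s s'
  rw [form_mul hK hm hm', form_mul hK.symm hm' hm]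
  by_cases hs : ∀ u, u ∉ K → u ∉ K' → s u = s' u
  · rw [if_pos hs, if_pos (fun u hu hu' => hs u hu' hu), mul_comm]
  · rw [if_neg hs, if_neg (fun hs' => hs fun u hu hu' => hs' u hu' hu)]

end Locality

end Pool.Agent.FFG
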