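import Pool.Agent.FFG.Local

/-!
# FFG11: a product of local operators on disjoint connected sets is a PEPO
-/

open Finset
open scoped InnerProductSpace

set_option autoImplicit false
set_option linter.unusedSectionVars false

namespace Pool.Agent.FFG

open Pool.Agent.PEPS953 Pool.Agent.PepsX Pool.Agent.PepsY

variable {d L : ℕ} [NeZero L]

/-- The matrix of a product. -/
lemma FFG11_mat_mul (O P : Hil d L →L[ℂ] Hil d L) (s s' : Conf d L) :
    mat (O * P) s s' = ∑ t, mat O s t * mat P t s' := by
  unfold mat
  rw [map_mul, Matrix.mul_apply]

lemma FFG11_mat_one (s s' : Conf d L) :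
    mat (1 : Hil d L →L[ℂ] Hil d L) s s' = if s = s' then 1 else 0 := by
  unfold mat
  rw [map_one, Matrix.one_apply]

open scoped Classical in
/-- The matrix of a product of local operators with disjoint supports. -/
lemma mat_prod_form {ι : Type} (K : ι → Finset (Site L)) (O : ι → Hil d L →L[ℂ] Hil d L)
    (m : ∀ i, (K i → Fin d) → (K i → Fin d) → ℂ)
    (hm : ∀ i s s', mat (O i) s s' = if ∀ u, u ∉ K i → s u = s' u then
      m i (fun u => s u) (fun u => s' u) else 0) (l : List ι)
    (hK : l.Pairwise fun i j => Disjoint (K i) (K j)) (s s' : Conf d L) :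
    mat (l.map O).prod s s' = if ∀ u, (∀ i ∈ l, u ∉ K i) → s u = s' u then
      (l.map fun i => m i (fun u => s u) (fun u => s' u)).prod else 0 := by
  induction l generalizing s s' with
  | nil =>
    simp only [List.map_nil, List.prod_nil, List.not_mem_nil, false_imp_iff, implies_true,
      true_imp_iff]
    rw [FFG11_mat_one]
    simp only [funext_iff]
  | cons i l ih =>
    rw [List.map_cons, List.prod_cons, FFG11_mat_mul]
    rw [List.pairwise_cons] at hK
    set t₀ : Conf d L := fun u => if u ∈ K i then s' u else s u with ht₀
    rw [Finset.sum_eq_single t₀]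
    · rw [hm, ih hK.2, if_pos]
      · by_cases hc : ∀ u, (∀ j ∈ l, u ∉ K j) → t₀ u = s' u
        · rw [if_pos hc, if_pos]
          · rw [List.map_cons, List.prod_cons]
            congr 1
            · congr 1
              funext u
              simp only [ht₀]
              rw [if_pos u.2]
            · congr 1
              refine List.map_congr_left fun j hj => ?_
              congr 1
              funext u
              simp only [ht₀]
              rw [if_neg]
              exact Finset.disjoint_right.mp (hK.1 j hj) u.2
          · intro u hu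
            have h1 := hc u fun j hj => hu j (List.mem_cons_of_mem _ hj)
            simp only [ht₀] at h1
            rwa [if_neg (hu i List.mem_cons_self)] at h1
        · rw [if_neg hc, if_neg, mul_zero]
          intro h1
          apply hc
          intro u hu
          simp only [ht₀]
          split_ifs with h2
          · rfl
          · refine h1 u fun j hj => ?_
            rcases List.mem_cons.mp hj with rfl | hj
            · exact h2
            · exact hu j hj
      · intro u hu
        simp only [ht₀]
        rw [if_neg hu]
    · intro t _ ht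
      rw [hm, ih hK.2]
      split_ifs with h1 h2
      · exfalso
        apply ht
        funext u
        simp only [ht₀]
        split_ifs with h3
        · exact h2 u fun j hj h4 => Finset.disjoint_left.mp (hK.1 j hj) h3 h4
        · exact (h1 u h3).symm
      · rw [mul_zero]
      · rw [zero_mul]
      · rw [mul_zero]
    · intro h
      exact absurd (Finset.mem_univ _) h

/-- A product of local operators on disjoint rectangles is a PEPO. -/
theorem pepo_prod {ι : Type} (hd : 0 < d) (l : List ι) (K : ι → Finset (Site L))
    (hK : l.Pairwise fun i j => Disjoint (K i) (K j)) (hne : ∀ i, (K i).Nonempty)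
    (hconn : ∀ i, Conn (K i)) (M : ℕ) (hM : ∀ i, (K i).card ≤ M)
    (O : ι → Hil d L →L[ℂ] Hil d L) (hO : ∀ i, LocalOn (K i) (O i)) :
    IsPEPO (d ^ (2 * M)) (mat (l.map O).prod) := by
  classical
  choose m hm using fun i => (hO i).form
  choose r hr using hne
  -- the alphabets
  obtain ⟨k, hk⟩ : ∃ k : Fin l.length → ℕ, ∀ j, k j =
    Fintype.card ((K (l.get j) → Fin d) × (K (l.get j) → Fin d)) := ⟨_, fun _ => rfl⟩
  have hkc : ∀ j, k j = d ^ (2 * (K (l.get j)).card) := by
    intro j
    rw [hk, Fintype.card_prod, Fintype.card_fun, Fintype.card_fin, Fintype.card_coe, two_mul,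
      pow_add]
  have e : ∀ j, Fin (k j) ≃ ((K (l.get j) → Fin d) × (K (l.get j) → Fin d)) := fun j =>
    (finCongr (hk j)).trans (Fintype.equivFin _).symm
  have hdisj : ∀ a b : Fin l.length, a ≠ b → Disjoint (K (l.get a)) (K (l.get b)) := by
    intro a b hab
    rcases lt_or_gt_of_ne hab with h | h
    · exact List.pairwise_iff_get.mp hK a b h
    · exact (List.pairwise_iff_get.mp hK b a h).symm
  refine routed_pepo (Skel.mk (Fin l.length) inferInstance inferInstance k
      (fun j => K (l.get j))) ?_ (fun u σ σ' x =>
      (if (∀ (j : Fin l.length) (h : u ∈ K (l.get j)), (e j (x j)).1 ⟨u, h⟩ = σ ∧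
        (e j (x j)).2 ⟨u, h⟩ = σ') ∧ ((∀ j : Fin l.length, u ∉ K (l.get j)) → σ = σ')
        then 1 else 0) *
      ∏ j : Fin l.length, if u = r (l.get j) then m (l.get j) (e j (x j)).1 (e j (x j)).2 else 1)
      ?_ _ ?_
  · refine ⟨?_, ?_, ?_, ?_, ?_⟩
    · intro j
      simp only [hkc]
      exact Nat.pow_pos hd
    · intro j
      exact ⟨_, hr _⟩
    · intro j
      exact Finset.subset_univ _
    · intro j
      exact hconn _
    · intro u
      simp only
      by_cases h : ∃ j : Fin l.length, u ∈ K (l.get j)
      · obtain ⟨j, hj⟩ := h
        have h1 : (univ.filter fun i : Fin l.length => u ∈ K (l.get i)) = {j} := by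
          ext i
          simp only [Finset.mem_filter, Finset.mem_univ, true_and, Finset.mem_singleton]
          constructor
          · intro hi
            by_contra hij
            exact Finset.disjoint_left.mp (hdisj i j hij) hi hj
          · rintro rfl
            exact hj
        rw [h1, Finset.prod_singleton, hkc]
        exact Nat.pow_le_pow_right hd (Nat.mul_le_mul_left 2 (hM _))
      · have h1 : (univ.filter fun i : Fin l.length => u ∈ K (l.get i)) = ∅ := by
          rw [Finset.filter_eq_empty_iff]
          intro i _ hi
          exact h ⟨i, hi⟩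
        rw [h1, Finset.prod_empty]
        exact Nat.pow_pos hd
  · intro u σ σ' x x' hxx
    simp only at hxx ⊢
    congr 1
    · congr 1
      rw [eq_iff_iff]
      constructor
      · rintro ⟨h1, h2⟩
        refine ⟨fun j hj => ?_, h2⟩
        rw [← hxx j hj]
        exact h1 j hj
      · rintro ⟨h1, h2⟩
        refine ⟨fun j hj => ?_, h2⟩
        rw [hxx j hj]
        exact h1 j hj
    · refine Finset.prod_congr rfl fun j _ => ?_
      by_cases h : u = r (l.get j)
      · rw [if_pos h, if_pos h, hxx j (by rw [h]; exact hr _)]
      · rw [if_neg h, if_neg h]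
  · intro s s'
    rw [mat_prod_form K O m hm l hK]
    obtain ⟨x₀, hx₀⟩ : ∃ x₀ : ∀ j : Fin l.length, Fin (k j), ∀ j, e j (x₀ j) =
        ((fun u : K (l.get j) => s u), (fun u : K (l.get j) => s' u)) :=
      ⟨fun j => (e j).symm _, fun j => (e j).apply_symm_apply _⟩
    symm
    refine (Finset.sum_eq_single (x₀ : (Skel.mk (Fin l.length) inferInstance inferInstance k
      (fun j => K (l.get j)) : Skel L).Asg) ?_ ?_).trans ?_
    · intro x _ hx
      obtain ⟨j, hj⟩ : ∃ j, x j ≠ x₀ j := Function.ne_iff.mp hx
      have h1 : ∃ u, ∃ h : u ∈ K (l.get j), ¬ ((e j (x j)).1 ⟨u, h⟩ = s u ∧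
          (e j (x j)).2 ⟨u, h⟩ = s' u) := by
        by_contra hcon
        push Not at hcon
        apply hj
        apply (e j).injective
        rw [hx₀]
        refine Prod.ext ?_ ?_
        · funext u
          exact (hcon u.1 u.2).1
        · funext u
          exact (hcon u.1 u.2).2
      obtain ⟨u, hu, hcon⟩ := h1
      refine Finset.prod_eq_zero (Finset.mem_univ u) ?_
      rw [if_neg, zero_mul]
      rintro ⟨h2, -⟩
      exact hcon (h2 j hu)
    · intro h
      exact absurd (Finset.mem_univ _) h
    · rw [Finset.prod_mul_distrib]
      have h1 : ∏ u : Site L, ∏ j : Fin l.length, (if u = r (l.get j) then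
          m (l.get j) (e j (x₀ j)).1 (e j (x₀ j)).2 else 1) =
          (l.map fun i => m i (fun u => s u) (fun u => s' u)).prod := by
        rw [Finset.prod_comm]
        have h2 : ∀ j : Fin l.length, ∏ u : Site L, (if u = r (l.get j) then
            m (l.get j) (e j (x₀ j)).1 (e j (x₀ j)).2 else 1) =
            m (l.get j) (fun u => s u) (fun u => s' u) := by
          intro j
          rw [Finset.prod_ite_eq' , if_pos (Finset.mem_univ _), hx₀]
        rw [Finset.prod_congr rfl fun j _ => h2 j]
        rw [← List.prod_ofFn]
        congr 1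
        conv_rhs => rw [← List.ofFn_get l, List.map_ofFn]
        rfl
      rw [h1]
      by_cases hc : ∀ u, (∀ i ∈ l, u ∉ K i) → s u = s' u
      · rw [if_pos hc]
        rw [Finset.prod_eq_one, one_mul]
        intro u _
        rw [if_pos]
        refine ⟨fun j hj => ?_, fun h2 => hc u fun i hi => ?_⟩
        · rw [hx₀]
          exact ⟨rfl, rfl⟩
        · obtain ⟨j, rfl⟩ := List.get_of_mem hi
          exact h2 j
      · rw [if_neg hc]
        push Not at hc
        obtain ⟨u, hu, hne⟩ := hc
        rw [Finset.prod_eq_zero (Finset.mem_univ u), zero_mul]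
        rw [if_neg]
        rintro ⟨-, h2⟩
        exact hne (h2 fun j => hu _ (List.get_mem _ _))

end Pool.Agent.FFG
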