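import Pool.Agent.FFG.Defs

/-!
# Positions: distance, overlap, colouring, potential
-/

open Finset
open scoped InnerProductSpace

set_option autoImplicit false
set_option linter.unusedSectionVars false

namespace Pool.Agent.FFG

open Pool.Agent.PEPS953 Pool.Agent.PepsX Pool.Agent.PepsY

section Geometry

variable {L : ℕ} [NeZero L]

/-! G3: positions -/

theorem cdist_comm' (x y : ZMod L) : cdist x y = cdist y x := by
  unfold cdist
  rw [← neg_sub y x, ZMod.natAbs_valMinAbs_neg]

theorem cdist_self' (x : ZMod L) : cdist x x = 0 := by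
  unfold cdist
  simp

theorem cdist_triangle' (x y z : ZMod L) : cdist x z ≤ cdist x y + cdist y z := by
  unfold cdist
  have h : x - z = (x - y) + (y - z) := by ring
  rw [h]
  exact (ZMod.natAbs_valMinAbs_add_le _ _).trans (Int.natAbs_add_le _ _)

theorem cdist_le_int (x y : ZMod L) (k : ℤ) (h : x - y = (k : ZMod L)) :
    cdist x y ≤ k.natAbs := by
  unfold cdist
  apply ZMod.natAbs_min_of_le_div_two L
  · rw [ZMod.coe_valMinAbs, h]
  · exact ZMod.natAbs_valMinAbs_le _

theorem sdist_comm (u v : Site L) : sdist u v = sdist v u := by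
  unfold sdist
  rw [cdist_comm' u.1, cdist_comm' u.2]

theorem sdist_self' (u : Site L) : sdist u u = 0 := by
  unfold sdist
  rw [cdist_self', cdist_self']
  rfl

theorem sdist_triangle (u v w : Site L) : sdist u w ≤ sdist u v + sdist v w := by
  unfold sdist
  have h1 := cdist_triangle' u.1 v.1 w.1
  have h2 := cdist_triangle' u.2 v.2 w.2
  omega

theorem cdist_lt_of_box {r : ℕ} (x y : ZMod L) (p q : Fin r)
    (h : x + ((p : ℕ) : ZMod L) = y + ((q : ℕ) : ZMod L)) : cdist x y < r := by
  have h1 : x - y = (((q : ℕ) : ℤ) - ((p : ℕ) : ℤ) : ℤ) := by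
    push_cast
    linear_combination h
  have h2 := cdist_le_int x y _ h1
  have hp := p.2
  have hq := q.2
  omega

theorem ov_sdist {r : ℕ} {u v : Site L} (h : ov r u v) : sdist u v < r := by
  obtain ⟨p, q, hpq⟩ := h
  unfold boxPos at hpq
  rw [Prod.mk.injEq] at hpq
  unfold sdist
  exact max_lt (cdist_lt_of_box _ _ _ _ hpq.1) (cdist_lt_of_box _ _ _ _ hpq.2)

theorem ov_deg (r : ℕ) (u : Site L) : {v | ov r u v}.ncard ≤ 4 * r ^ 2 := by
  classical
  let F : Fin (2 * r) × Fin (2 * r) → Site L := fun a =>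
    (u.1 + ((a.1 : ℕ) : ZMod L) - ((r : ℕ) : ZMod L),
      u.2 + ((a.2 : ℕ) : ZMod L) - ((r : ℕ) : ZMod L))
  have hsub : {v | ov r u v} ⊆ ((univ.image F : Finset (Site L)) : Set (Site L)) := by
    intro v hv
    obtain ⟨p, q, hpq⟩ := hv
    unfold boxPos at hpq
    rw [Prod.mk.injEq] at hpq
    obtain ⟨h1, h2⟩ := hpq
    rw [mem_coe, mem_image]
    have hp1 := p.1.2
    have hp2 := p.2.2
    have hq1 := q.1.2
    have hq2 := q.2.2
    refine ⟨(⟨(p.1 : ℕ) + r - (q.1 : ℕ), by omega⟩, ⟨(p.2 : ℕ) + r - (q.2 : ℕ), by omega⟩),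
      mem_univ _, ?_⟩
    apply Prod.ext
    · change u.1 + (((p.1 : ℕ) + r - (q.1 : ℕ) : ℕ) : ZMod L) - ((r : ℕ) : ZMod L) = v.1
      rw [Nat.cast_sub (by omega)]
      push_cast
      linear_combination h1
    · change u.2 + (((p.2 : ℕ) + r - (q.2 : ℕ) : ℕ) : ZMod L) - ((r : ℕ) : ZMod L) = v.2
      rw [Nat.cast_sub (by omega)]
      push_cast
      linear_combination h2
  calc {v | ov r u v}.ncard ≤ ((univ.image F : Finset (Site L)) : Set (Site L)).ncard :=
        Set.ncard_le_ncard hsub (Finset.finite_toSet _)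
    _ = (univ.image F).card := Set.ncard_coe_finset _
    _ ≤ (univ : Finset (Fin (2 * r) × Fin (2 * r))).card := card_image_le
    _ = 4 * r ^ 2 := by
        rw [card_univ, Fintype.card_prod, Fintype.card_fin]
        ring

/-- The colour of a coordinate. -/
def ccoord (r : ℕ) (x : ZMod L) : ℕ :=
  if x.val < r * (L / r) then x.val % r else r + (x.val - r * (L / r))

theorem ccoord_lt {r : ℕ} (hr : 0 < r) (x : ZMod L) : ccoord r x < 2 * r := by
  unfold ccoord
  have hx := ZMod.val_lt x
  have h1 := Nat.div_add_mod L r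
  have h2 := Nat.mod_lt L hr
  have h3 := Nat.mod_lt x.val hr
  split_ifs with h
  · omega
  · omega

theorem val_add_cases (y : ZMod L) (k : ℕ) (hk : k < L) :
    (y + (k : ZMod L)).val = y.val + k ∨ (y + (k : ZMod L)).val + L = y.val + k := by
  have hy := ZMod.val_lt y
  rw [ZMod.val_add, ZMod.val_natCast, Nat.mod_eq_of_lt hk]
  by_cases h : y.val + k < L
  · left
    exact Nat.mod_eq_of_lt h
  · right
    have h2 : (y.val + k) % L = y.val + k - L := by
      rw [Nat.mod_eq_sub_mod (by omega)]
      exact Nat.mod_eq_of_lt (by omega)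
    omega

theorem ccoord_aux {r : ℕ} (hr : 0 < r) (hrL : r ≤ L) (y : ZMod L) (k : ℕ) (hk : k < r)
    (hc : ccoord r (y + (k : ZMod L)) = ccoord r y) : y + (k : ZMod L) = y := by
  set x := y + (k : ZMod L) with hx
  have hkL : k < L := lt_of_lt_of_le hk hrL
  have hcase := val_add_cases y k hkL
  rw [← hx] at hcase
  have hxv := ZMod.val_lt x
  have hyv := ZMod.val_lt y
  have h1 := Nat.div_add_mod L r
  have h2 := Nat.mod_lt L hr
  have h3 := Nat.mod_lt x.val hr
  have h4 := Nat.mod_lt y.val hr
  have h5 := Nat.div_add_mod x.val r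
  have h6 := Nat.div_add_mod y.val r
  unfold ccoord at hc
  apply ZMod.val_injective L
  split_ifs at hc with ha hb hb
  · rcases hcase with h | h
    · -- x.val = y.val + k
      have h7 : r * (x.val / r) = r * (y.val / r) + k := by omega
      by_cases hk0 : k = 0
      · omega
      · exfalso
        have h8 : r ∣ k := by
          have : k = r * (x.val / r) - r * (y.val / r) := by omega
          rw [this]
          exact Nat.dvd_sub (Dvd.intro _ rfl) (Dvd.intro _ rfl)
        have := Nat.le_of_dvd (by omega) h8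
        omega
    · exfalso
      -- y.val - x.val = L - k
      have h7 : r * (y.val / r) + k = r * (x.val / r) + L := by omega
      have h8 : y.val / r < L / r := by
        by_contra hcon
        push Not at hcon
        have := Nat.mul_le_mul_left r hcon
        omega
      have h9 : r * (y.val / r + 1) ≤ r * (L / r) := Nat.mul_le_mul_left r h8
      rw [Nat.mul_add] at h9
      omega
  · exfalso
    omega
  · exfalso
    omega
  · omega

theorem ccoord_inj {r : ℕ} (hr : 0 < r) (hrL : r ≤ L) (x y : ZMod L) (hd : cdist x y < r)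
    (hc : ccoord r x = ccoord r y) : x = y := by
  unfold cdist at hd
  have hv : x - y = ((x - y).valMinAbs : ZMod L) := (ZMod.coe_valMinAbs _).symm
  rcases Int.natAbs_eq (x - y).valMinAbs with h | h
  · rw [h] at hv
    have hx : x = y + (((x - y).valMinAbs.natAbs : ℕ) : ZMod L) := by
      rw [Int.cast_natCast] at hv
      linear_combination hv
    rw [hx] at hc
    rw [hx]
    have hx' := ccoord_aux hr hrL y _ hd
    exact hx' hc
  · rw [h] at hv
    have hy : y = x + (((x - y).valMinAbs.natAbs : ℕ) : ZMod L) := by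
      rw [Int.cast_neg, Int.cast_natCast] at hv
      linear_combination -hv
    have hx' := ccoord_aux hr hrL x _ hd
    rw [← hy] at hx'
    exact (hx' hc.symm).symm

theorem ov_col {r : ℕ} (hr : 0 < r) (hrL : r ≤ L) : ∃ col : Site L → Fin (4 * r ^ 2),
    ∀ u v, col u = col v → u ≠ v → ¬ ov r u v := by
  have hlt : ∀ u : Site L, ccoord r u.1 * (2 * r) + ccoord r u.2 < 4 * r ^ 2 := by
    intro u
    have h1 := ccoord_lt hr u.1
    have h2 := ccoord_lt hr u.2
    have h3 : (ccoord r u.1 + 1) * (2 * r) ≤ 2 * r * (2 * r) := Nat.mul_le_mul_right _ h1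
    nlinarith
  refine ⟨fun u => ⟨ccoord r u.1 * (2 * r) + ccoord r u.2, hlt u⟩, ?_⟩
  intro u v huv hne hov
  apply hne
  have hd := ov_sdist hov
  unfold sdist at hd
  have hd1 : cdist u.1 v.1 < r := lt_of_le_of_lt (le_max_left _ _) hd
  have hd2 : cdist u.2 v.2 < r := lt_of_le_of_lt (le_max_right _ _) hd
  rw [Fin.mk.injEq] at huv
  have h1 := ccoord_lt hr u.2
  have h2 := ccoord_lt hr v.2
  have e1 : ccoord r u.1 = ccoord r v.1 := by
    have a1 : (ccoord r u.1 * (2 * r) + ccoord r u.2) / (2 * r) = ccoord r u.1 := by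
      rw [Nat.add_comm, Nat.add_mul_div_right _ _ (by omega), Nat.div_eq_of_lt h1, Nat.zero_add]
    have a2 : (ccoord r v.1 * (2 * r) + ccoord r v.2) / (2 * r) = ccoord r v.1 := by
      rw [Nat.add_comm, Nat.add_mul_div_right _ _ (by omega), Nat.div_eq_of_lt h2, Nat.zero_add]
    rw [← a1, ← a2, huv]
  have e2 : ccoord r u.2 = ccoord r v.2 := by
    rw [e1] at huv
    omega
  exact Prod.ext (ccoord_inj hr hrL _ _ hd1 e1) (ccoord_inj hr hrL _ _ hd2 e2)

theorem ov_pot {r : ℕ} (hr : 0 < r) (m : ℕ) (A B : Finset (Site L))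
    (h : ∀ u ∈ A, ∀ v ∈ B, (m + 1) * r < sdist u v) :
    ∃ f : Site L → ℕ, (∀ u v, ov r u v → f v ≤ f u + 1) ∧ (∀ u ∈ A, f u = 0) ∧
      ∀ u ∈ B, m < f u := by
  classical
  by_cases hA : A.Nonempty
  · refine ⟨fun v => A.inf' hA fun a => sdist v a / r, ?_, ?_, ?_⟩
    · intro u v huv
      change A.inf' hA (fun a => sdist v a / r) ≤ A.inf' hA (fun a => sdist u a / r) + 1
      obtain ⟨a, ha, hau⟩ := A.exists_mem_eq_inf' hA fun a => sdist u a / r
      rw [hau]
      refine (Finset.inf'_le _ ha).trans ?_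
      have h1 := ov_sdist huv
      have h2 := sdist_triangle v u a
      rw [sdist_comm v u] at h2
      have h3 : sdist v a ≤ sdist u a + r := by omega
      calc sdist v a / r ≤ (sdist u a + r) / r := Nat.div_le_div_right h3
        _ = sdist u a / r + 1 := Nat.add_div_right _ hr
    · intro u hu
      have h1 : A.inf' hA (fun a => sdist u a / r) ≤ sdist u u / r :=
        Finset.inf'_le (fun a => sdist u a / r) hu
      rw [sdist_self', Nat.zero_div] at h1
      exact Nat.le_zero.mp h1
    · intro u hu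
      change m < A.inf' hA (fun a => sdist u a / r)
      obtain ⟨a, ha, hau⟩ := A.exists_mem_eq_inf' hA fun a => sdist u a / r
      rw [hau]
      have h1 := h a ha u hu
      rw [sdist_comm] at h1
      have h2 : (m + 1) ≤ sdist u a / r := (Nat.le_div_iff_mul_le hr).mpr h1.le
      exact h2
  · rw [Finset.not_nonempty_iff_eq_empty] at hA
    refine ⟨fun _ => m + 1, ?_, ?_, ?_⟩
    · intro u v _
      exact Nat.le_succ _
    · intro u hu
      rw [hA] at hu
      exact absurd hu (Finset.notMem_empty u)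
    · intro u _
      exact Nat.lt_succ_self m

end Geometry

end Pool.Agent.FFG
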