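import Pool.Agent.FFG.Local
import Pool.Agent.FFG.Pos

/-!
# Few zero-energy states from the absence of exotic excitations
-/

open Finset
open scoped InnerProductSpace

set_option autoImplicit false
set_option linter.unusedSectionVars false
set_option linter.unusedVariables false

namespace Pool.Agent.FFG

open Pool.Agent.PEPS953 Pool.Agent.PepsX Pool.Agent.PepsY

/-- The sites at distance at most `rho` of `S`. -/
def nbhd {L : ℕ} [NeZero L] (rho : ℕ) (S : Finset (Site L)) : Finset (Site L) :=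
  univ.filter fun u => ∃ v ∈ S, sdist u v ≤ rho

/-- Every nonzero vector of zero energy for the terms outside `S` can be mapped by an operator
near `S` to a vector which is not orthogonal to `Psi`. -/
def NoExotic {d r : ℕ} (L : ℕ) [NeZero L] (h : Matrix (LConf d r) (LConf d r) ℂ)
    (Psi : Hil d L) (rho : ℕ) : Prop :=
  ∀ (S : Finset (Site L)) (x : Hil d L), x ≠ 0 → hamOn h Sᶜ x = 0 →
    ∃ O : Hil d L →L[ℂ] Hil d L, LocalOn (nbhd rho S) O ∧ inner ℂ Psi (O x) ≠ 0

section

variable {L : ℕ} [NeZero L]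

lemma cdist_rep {rho : ℕ} (x y : ZMod L) (h : cdist x y ≤ rho) :
    ∃ t < 2 * rho + 1, y - (rho : ZMod L) + ((t : ℕ) : ZMod L) = x := by
  unfold cdist at h
  refine ⟨((x - y).valMinAbs + rho).toNat, ?_, ?_⟩
  · omega
  · have h1 : (((((x - y).valMinAbs + rho).toNat : ℕ) : ℤ) : ZMod L) =
        (((x - y).valMinAbs + rho : ℤ) : ZMod L) := by
      rw [Int.toNat_of_nonneg (by omega)]
    rw [Int.cast_natCast] at h1
    rw [h1]
    push_cast
    ring

theorem nbhd_card (rho : ℕ) (S : Finset (Site L)) :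
    (nbhd rho S).card ≤ (2 * rho + 1) ^ 2 * S.card := by
  classical
  let F : (ℕ × ℕ) × Site L → Site L := fun a =>
    (a.2.1 - (rho : ZMod L) + ((a.1.1 : ℕ) : ZMod L),
      a.2.2 - (rho : ZMod L) + ((a.1.2 : ℕ) : ZMod L))
  have hsub : nbhd rho S ⊆
      ((range (2 * rho + 1) ×ˢ range (2 * rho + 1)) ×ˢ S).image F := by
    intro u hu
    unfold nbhd at hu
    rw [mem_filter] at hu
    obtain ⟨_, v, hv, huv⟩ := hu
    unfold sdist at huv
    obtain ⟨t, ht, ht'⟩ := cdist_rep u.1 v.1 ((le_max_left _ _).trans huv)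
    obtain ⟨s, hs, hs'⟩ := cdist_rep u.2 v.2 ((le_max_right _ _).trans huv)
    rw [mem_image]
    refine ⟨((t, s), v), ?_, Prod.ext ht' hs'⟩
    rw [mem_product, mem_product, mem_range, mem_range]
    exact ⟨⟨ht, hs⟩, hv⟩
  calc (nbhd rho S).card ≤ _ := card_le_card hsub
    _ ≤ ((range (2 * rho + 1) ×ˢ range (2 * rho + 1)) ×ˢ S).card := card_image_le
    _ = (2 * rho + 1) ^ 2 * S.card := by
        rw [card_product, card_product, card_range]
        ring

variable {d : ℕ}

open scoped Classical in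
/-- The matrix unit of the region `X`. -/
noncomputable def unitM (X : Finset (Site L)) (a b : X → Fin d) :
    Matrix (Conf d L) (Conf d L) ℂ :=
  fun s s' => if (∀ u, u ∉ X → s u = s' u) ∧ (fun u : X => s u) = a ∧ (fun u : X => s' u) = b
    then 1 else 0

/-- The operator of the matrix unit of the region `X`. -/
noncomputable def unitO (X : Finset (Site L)) (a b : X → Fin d) : Hil d L →L[ℂ] Hil d L :=
  Matrix.toEuclideanCLM (𝕜 := ℂ) (n := Conf d L) (unitM X a b)

lemma mat_unitO (X : Finset (Site L)) (a b : X → Fin d) : mat (unitO X a b) = unitM X a b :=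
  StarAlgEquiv.symm_apply_apply _ _

/-- A local operator is a combination of the matrix units of its region. -/
theorem LocalOn.eq_sum {X : Finset (Site L)} {O : Hil d L →L[ℂ] Hil d L} (h : LocalOn X O) :
    ∃ m : (X → Fin d) × (X → Fin d) → ℂ, O = ∑ ab, m ab • unitO X ab.1 ab.2 := by
  classical
  obtain ⟨m, hm⟩ := h.form
  refine ⟨fun ab => m ab.1 ab.2, ?_⟩
  apply mat_inj
  have e1 : mat (∑ ab : (X → Fin d) × (X → Fin d), m ab.1 ab.2 • unitO X ab.1 ab.2) =
      ∑ ab : (X → Fin d) × (X → Fin d), m ab.1 ab.2 • unitM X ab.1 ab.2 := by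
    unfold mat
    rw [map_sum]
    refine Finset.sum_congr rfl fun ab _ => ?_
    rw [map_smul]
    congr 1
    exact StarAlgEquiv.symm_apply_apply _ _
  rw [e1]
  ext s s'
  rw [Matrix.sum_apply, hm]
  have e2 : ∀ ab : (X → Fin d) × (X → Fin d), (m ab.1 ab.2 • unitM X ab.1 ab.2) s s' =
      if ab = ((fun u : X => s u), (fun u : X => s' u)) then
        (if ∀ u, u ∉ X → s u = s' u then m ab.1 ab.2 else 0) else 0 := by
    intro ab
    rw [Matrix.smul_apply, smul_eq_mul]
    unfold unitM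
    by_cases h1 : ab = ((fun u : X => s u), (fun u : X => s' u))
    · rw [if_pos h1]
      have h2 : (fun u : X => s u) = ab.1 := by rw [h1]
      have h3 : (fun u : X => s' u) = ab.2 := by rw [h1]
      by_cases h4 : ∀ u, u ∉ X → s u = s' u
      · rw [if_pos ⟨h4, h2, h3⟩, if_pos h4, mul_one]
      · rw [if_neg (fun h => h4 h.1), if_neg h4, mul_zero]
    · rw [if_neg h1, if_neg, mul_zero]
      rintro ⟨_, h2, h3⟩
      apply h1
      rw [h2, h3]
  rw [Finset.sum_congr rfl fun ab _ => e2 ab, Finset.sum_ite_eq' univ _ _, if_pos (mem_univ _)]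

end

theorem fewZero_of_noExotic {d L r : ℕ} [NeZero L] (hd : 2 ≤ d)
    {h : Matrix (LConf d r) (LConf d r) ℂ} {Psi : Hil d L} {rho : ℕ}
    (H : NoExotic L h Psi rho) :
    FewZero L h (2 * (2 * rho + 1) ^ 2 * Real.log d) := by
  classical
  intro S
  set X := nbhd rho S with hX
  let V : Submodule ℂ (Hil d L) := LinearMap.ker (hamOn h Sᶜ : Hil d L →ₗ[ℂ] Hil d L)
  let φ : Hil d L →ₗ[ℂ] ((X → Fin d) × (X → Fin d) → ℂ) :=
    LinearMap.pi fun ab => ((innerSL ℂ Psi).comp (unitO X ab.1 ab.2) : Hil d L →L[ℂ] ℂ)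
  have hφ : ∀ (x : Hil d L) ab, φ x ab = inner ℂ Psi (unitO X ab.1 ab.2 x) := fun x ab => rfl
  have hinj : Function.Injective (φ.comp V.subtype) := by
    rw [← LinearMap.ker_eq_bot, LinearMap.ker_eq_bot']
    intro x hx
    by_contra hne
    have hx0 : (x : Hil d L) ≠ 0 := fun h => hne (Subtype.ext h)
    have hxk : hamOn h Sᶜ (x : Hil d L) = 0 := x.2
    obtain ⟨O, hO, hOx⟩ := H S x hx0 hxk
    obtain ⟨m, hm⟩ := hO.eq_sum
    apply hOx
    rw [hm, _root_.sum_apply, inner_sum]
    refine Finset.sum_eq_zero fun ab _ => ?_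
    rw [smul_apply, inner_smul_right]
    have h1 : φ (x : Hil d L) ab = 0 := congrFun hx ab
    rw [hφ] at h1
    rw [h1, mul_zero]
  have h1 := LinearMap.finrank_le_finrank_of_injective hinj
  rw [Module.finrank_pi, Fintype.card_prod, Fintype.card_fun, Fintype.card_fin,
    Fintype.card_coe] at h1
  have h2 : (Module.finrank ℂ V : ℝ) ≤ (d : ℝ) ^ X.card * (d : ℝ) ^ X.card := by
    exact_mod_cast h1
  refine h2.trans ?_
  have hd0 : (0 : ℝ) < d := by
    have : (2 : ℝ) ≤ d := by exact_mod_cast hd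
    linarith
  have hlog : 0 ≤ Real.log d := Real.log_nonneg (by
    have : (2 : ℝ) ≤ d := by exact_mod_cast hd
    linarith)
  have h3 : (d : ℝ) ^ X.card * (d : ℝ) ^ X.card = Real.exp (2 * X.card * Real.log d) := by
    have h4 : (d : ℝ) ^ X.card = Real.exp (X.card * Real.log d) := by
      rw [mul_comm, Real.exp_mul, Real.exp_log hd0, Real.rpow_natCast]
    rw [h4, ← Real.exp_add]
    congr 1
    ring
  rw [h3, Real.exp_le_exp]
  have h5 : (X.card : ℝ) ≤ (2 * rho + 1) ^ 2 * S.card := by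
    exact_mod_cast nbhd_card rho S
  have h6 : (0 : ℝ) ≤ (2 * (rho : ℝ) + 1) ^ 2 := sq_nonneg _
  have h7 : (X.card : ℝ) * Real.log d ≤ (2 * rho + 1) ^ 2 * S.card * Real.log d :=
    mul_le_mul_of_nonneg_right h5 hlog
  have h8 : 0 ≤ (2 * (rho : ℝ) + 1) ^ 2 * Real.log d := mul_nonneg h6 hlog
  nlinarith [h7, h8]

end Pool.Agent.FFG
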