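import Pool.Agent.FFG.Main

open Finset
open scoped InnerProductSpace ComplexOrder

set_option autoImplicit false
set_option linter.unusedSectionVars false

namespace Pool.Agent.FFG

open Pool.Agent.PEPS953 Pool.Agent.PepsX Pool.Agent.PepsY

lemma GapAt.mono {d r L : ℕ} [NeZero L] {h : Matrix (LConf d r) (LConf d r) ℂ}
    {A : Finset (Site L)} {γ γ' : ℝ} (hγ : γ' ≤ γ) (H : GapAt h A γ) : GapAt h A γ' := by
  intro E' φ hφ hE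
  rcases H E' φ hφ hE with h1 | h1
  · exact Or.inl h1
  · exact Or.inr (hγ.trans h1)

theorem family {d r : ℕ} (hd : 2 ≤ d) (hr : 0 < r) {h : Matrix (LConf d r) (LConf d r) ℂ}
    (hh : h.PosSemidef) (k₀ a : ℕ) {C₀ : ℝ} (hC₀ : 0 < C₀) :
    ∃ (C : ℝ) (L₀ : ℕ), 0 < C ∧ ∀ (L : ℕ) [NeZero L], L₀ ≤ L →
      LG L h ⌊(Real.log L) ^ (k₀ + 2)⌋₊ (1 / (C₀ * (Real.log L) ^ k₀)) (1 / (L : ℝ) ^ a) →
      ∀ κ : ℝ, 1 ≤ κ → FewZero L h κ →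
      (∀ M : ℝ, 0 ≤ M → ∀ V : Submodule ℂ (Hil d L),
        (∀ v ∈ V, (⟪v, ham L h v⟫_ℂ).re ≤ M * ‖v‖ ^ 2) →
        (Module.finrank ℂ V : ℝ) ≤ Real.exp (C * κ * (1 + M) * (Real.log L) ^ (4 * k₀ + 4))) ∧
      ∀ Ψ : Hil d L, ‖Ψ‖ = 1 → ham L h Ψ = 0 →
        (∀ φ : Hil d L, ham L h φ = 0 → ∃ c : ℂ, φ = c • Ψ) →
        ∃ (D : ℕ) (Φ : Hil d L), IsPEPS D Φ ∧
          (D : ℝ) ≤ Real.exp (C * κ * (Real.log L) ^ (4 * k₀ + 4)) ∧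
          ‖Φ - Ψ‖ ≤ (L : ℝ) ^ (-κ) := by
  obtain ⟨Cf, hCf0, hCf⟩ := flow_bound 9 9
  obtain ⟨c₂, hc₂⟩ : ∃ c₂ : ℝ, c₂ = entNorm h + 1 := ⟨_, rfl⟩
  have hc₂1 : 1 ≤ c₂ := by rw [hc₂]; linarith [entNorm_nonneg h]
  obtain ⟨C₁, L₁, hC₁, hpar⟩ := params r k₀ a hr (max C₀ 1) c₂ Cf (le_max_right _ _) hc₂1 hCf0
  obtain ⟨C₂, hC₂⟩ : ∃ C₂ : ℝ, C₂ = max C₀ 1 := ⟨_, rfl⟩
  have hC₂1 : 1 ≤ C₂ := by rw [hC₂]; exact le_max_right _ _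
  have hlogd : 0 < Real.log d := Real.log_pos (by exact_mod_cast hd)
  obtain ⟨C, hC⟩ : ∃ C : ℝ, C = 324 * C₁ ^ 2 * Real.log d * (18 * (10 * C₁ ^ 2 + 3) + 6) +
      (10 * C₁ ^ 2 + 3) * (8 * C₂ + 2) := ⟨_, rfl⟩
  have hC0 : 0 < C := by rw [hC]; positivity
  obtain ⟨L₂, hL₂⟩ : ∃ L₂ : ℕ, L₂ = ⌈Real.exp (6 * C₁)⌉₊ := ⟨_, rfl⟩
  refine ⟨C, max L₁ (max L₂ 3), hC0, fun L _ hL hLG κ hκ hF => ?_⟩
  have hL1 : L₁ ≤ L := (le_max_left _ _).trans hL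
  have hL2 : L₂ ≤ L := ((le_max_left _ _).trans (le_max_right _ _)).trans hL
  have hL3 : 3 ≤ L := ((le_max_right _ _).trans (le_max_right _ _)).trans hL
  obtain ⟨q, w₀, w₁, R, ε, hA, hs3, hRC⟩ := hpar L hL1
  obtain ⟨ℓ, hℓ⟩ : ∃ ℓ : ℝ, ℓ = Real.log L := ⟨_, rfl⟩
  have hℓ1 : 1 ≤ ℓ := by rw [hℓ]; exact one_le_log hL3
  have hL0 : (0 : ℝ) < L := by
    have : 0 < L := by omega
    exact_mod_cast this
  rw [← hC₂, ← hℓ] at hA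
  rw [← hℓ] at hLG hRC
  rw [← hℓ]
  obtain ⟨γ, hγ⟩ : ∃ γ : ℝ, γ = 1 / (C₂ * ℓ ^ k₀) := ⟨_, rfl⟩
  obtain ⟨γ₂, hγ₂⟩ : ∃ γ₂ : ℝ, γ₂ = 1 / (L : ℝ) ^ a := ⟨_, rfl⟩
  rw [← hγ, ← hγ₂, hc₂] at hA
  have hγ0 : 0 < γ := by rw [hγ]; positivity
  have hγ₂0 : 0 < γ₂ := by rw [hγ₂]; positivity
  have h6R : 6 * R ≤ ⌊ℓ ^ (k₀ + 2)⌋₊ := by
    apply Nat.le_floor
    push_cast
    have h1 : 6 * C₁ ≤ ℓ := by
      rw [hℓ, Real.le_log_iff_exp_le hL0]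
      exact (Nat.le_ceil _).trans (by rw [← hL₂]; exact_mod_cast hL2)
    calc 6 * (R : ℝ) ≤ 6 * (C₁ * ℓ ^ (k₀ + 1)) := by gcongr
      _ = 6 * C₁ * ℓ ^ (k₀ + 1) := by ring
      _ ≤ ℓ * ℓ ^ (k₀ + 1) := by gcongr
      _ = ℓ ^ (k₀ + 2) := by ring
  have H : LG L h (6 * R) γ γ₂ := by
    refine ⟨fun A v₀ hA' => ?_, fun A => ?_⟩
    · refine (hLG.small A v₀ fun u hu => (hA' u hu).trans h6R).mono ?_
      rw [hγ]
      have h1 : C₀ ≤ C₂ := by rw [hC₂]; exact le_max_left _ _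
      gcongr
    · rw [hγ₂]
      exact hLG.all A
  have hFC : FlowC 9 9 Cf := hCf
  -- the size of `kap`
  have hp1 : (1 : ℝ) ≤ ℓ ^ (2 * k₀ + 2) := one_le_pow₀ hℓ1
  have hR2 : (R : ℝ) ^ 2 ≤ C₁ ^ 2 * ℓ ^ (2 * k₀ + 2) := by
    calc (R : ℝ) ^ 2 ≤ (C₁ * ℓ ^ (k₀ + 1)) ^ 2 := by gcongr
      _ = _ := by rw [mul_pow, ← pow_mul]; congr 2; ring
  have hlogL : Real.log (1 + (L : ℝ) ^ 2) ≤ 3 * ℓ := by
    have h1 : 1 + (L : ℝ) ^ 2 ≤ (L : ℝ) ^ 3 := by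
      have : (3 : ℝ) ≤ L := by exact_mod_cast hL3
      nlinarith [sq_nonneg (L : ℝ)]
    calc Real.log (1 + (L : ℝ) ^ 2) ≤ Real.log ((L : ℝ) ^ 3) :=
          Real.log_le_log (by positivity) h1
      _ = 3 * ℓ := by rw [Real.log_pow, hℓ]; norm_num
  have hkap0 : 0 ≤ kap L R κ := by
    unfold kap
    have h1 : 0 ≤ Real.log (1 + (L : ℝ) ^ 2) := Real.log_nonneg (by nlinarith [sq_nonneg (L : ℝ)])
    positivity
  have hkap : kap L R κ ≤ (10 * C₁ ^ 2 + 3) * κ * ℓ ^ (2 * k₀ + 2) := by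
    unfold kap
    have h1 : 1 + 9 * (R : ℝ) ^ 2 ≤ 10 * C₁ ^ 2 * ℓ ^ (2 * k₀ + 2) := by
      have h2 : 1 ≤ C₁ ^ 2 := one_le_pow₀ hC₁
      have h3 : 1 ≤ C₁ ^ 2 * ℓ ^ (2 * k₀ + 2) := one_le_mul_of_one_le_of_one_le h2 hp1
      linarith
    have h2 : ℓ ≤ κ * ℓ ^ (2 * k₀ + 2) := by
      have h3 : ℓ ≤ ℓ ^ (2 * k₀ + 2) := by
        calc ℓ = ℓ ^ 1 := (pow_one _).symm
          _ ≤ ℓ ^ (2 * k₀ + 2) := pow_le_pow_right₀ hℓ1 (by omega)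
      have h4 : 1 * ℓ ^ (2 * k₀ + 2) ≤ κ * ℓ ^ (2 * k₀ + 2) :=
        mul_le_mul_of_nonneg_right hκ (by linarith)
      linarith
    have h3 : κ * (1 + 9 * (R : ℝ) ^ 2) ≤ κ * (10 * C₁ ^ 2 * ℓ ^ (2 * k₀ + 2)) := by gcongr
    linarith
  constructor
  · intro M hM V hV
    have h1 := core_count hA hh hγ0 hγ₂0 H hκ hF M hM V hV
    refine h1.trans (Real.exp_le_exp.mpr ?_)
    have h2 : 8 * M / γ = 8 * M * C₂ * ℓ ^ k₀ := by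
      rw [hγ]
      field_simp
    rw [h2]
    have hp2 : (1 : ℝ) ≤ ℓ ^ k₀ := one_le_pow₀ hℓ1
    have h3 : 8 * M * C₂ * ℓ ^ k₀ + 2 ≤ (8 * C₂ + 2) * (1 + M) * ℓ ^ k₀ := by
      have h4 : 0 ≤ C₂ * ℓ ^ k₀ := by positivity
      have h5 : 0 ≤ M * ℓ ^ k₀ := by positivity
      nlinarith
    calc kap L R κ * (8 * M * C₂ * ℓ ^ k₀ + 2) ≤
        ((10 * C₁ ^ 2 + 3) * κ * ℓ ^ (2 * k₀ + 2)) * ((8 * C₂ + 2) * (1 + M) * ℓ ^ k₀) := by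
          gcongr
      _ = ((10 * C₁ ^ 2 + 3) * (8 * C₂ + 2)) * κ * (1 + M) * ℓ ^ (3 * k₀ + 2) := by
          rw [show 3 * k₀ + 2 = (2 * k₀ + 2) + k₀ by ring, pow_add ℓ (2 * k₀ + 2) k₀]
          ring
      _ ≤ C * κ * (1 + M) * ℓ ^ (4 * k₀ + 4) := by
          have h6 : (10 * C₁ ^ 2 + 3) * (8 * C₂ + 2) ≤ C := by
            rw [hC]
            have : 0 ≤ 324 * C₁ ^ 2 * Real.log d * (18 * (10 * C₁ ^ 2 + 3) + 6) := by positivity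
            linarith
          have h7 : ℓ ^ (3 * k₀ + 2) ≤ ℓ ^ (4 * k₀ + 4) := pow_le_pow_right₀ hℓ1 (by omega)
          have h8 : 0 ≤ κ * (1 + M) := by positivity
          have h9 : 0 ≤ ℓ ^ (3 * k₀ + 2) := by positivity
          calc (10 * C₁ ^ 2 + 3) * (8 * C₂ + 2) * κ * (1 + M) * ℓ ^ (3 * k₀ + 2) =
              (10 * C₁ ^ 2 + 3) * (8 * C₂ + 2) * ((κ * (1 + M)) * ℓ ^ (3 * k₀ + 2)) := by ring
            _ ≤ C * ((κ * (1 + M)) * ℓ ^ (4 * k₀ + 4)) := by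
                refine mul_le_mul h6 ?_ (by positivity) hC0.le
                exact mul_le_mul_of_nonneg_left h7 h8
            _ = _ := by ring
  · intro Ψ hΨ hΨ0 hu
    obtain ⟨p', hp'⟩ : ∃ p' : ℕ, p' = ⌈16 * kap L R κ + 2 * κ * ℓ⌉₊ := ⟨_, rfl⟩
    have hpa : 16 * kap L R κ + 2 * κ * ℓ ≤ p' := by rw [hp']; exact Nat.le_ceil _
    have hpb : (p' : ℝ) < 16 * kap L R κ + 2 * κ * ℓ + 1 := by
      rw [hp']; exact Nat.ceil_lt_add_one (by positivity)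
    obtain ⟨Φ, hΦ1, hΦ2⟩ := core_peps hd hA hh hγ0 hγ₂0 H hCf0 hFC hs3 hκ hF Ψ hΨ hΨ0 hu p'
    refine ⟨_, Φ, hΦ1, ?_, hΦ2.trans ?_⟩
    · have hd0 : (0 : ℝ) < d := by
        have : 0 < d := by omega
        exact_mod_cast this
      have h1 : (((((d ^ (2 * (9 * R ^ 2))) ^ 18) ^ (⌈kap L R κ⌉₊ + 1 + p') : ℕ)) : ℝ) =
          Real.exp (324 * R ^ 2 * Real.log d * (⌈kap L R κ⌉₊ + 1 + p')) := by
        push_cast
        rw [← pow_mul, ← pow_mul]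
        conv_lhs => rw [← Real.exp_log hd0, ← Real.exp_nat_mul]
        congr 1
        push_cast
        ring
      rw [h1]
      apply Real.exp_le_exp.mpr
      have h2 : (⌈kap L R κ⌉₊ : ℝ) < kap L R κ + 1 := Nat.ceil_lt_add_one hkap0
      have h3 : κ * ℓ ≤ κ * ℓ ^ (2 * k₀ + 2) := by
        have h4 : ℓ ≤ ℓ ^ (2 * k₀ + 2) := by
          calc ℓ = ℓ ^ 1 := (pow_one _).symm
            _ ≤ ℓ ^ (2 * k₀ + 2) := pow_le_pow_right₀ hℓ1 (by omega)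
        gcongr
      have h3' : (1 : ℝ) ≤ κ * ℓ ^ (2 * k₀ + 2) := one_le_mul_of_one_le_of_one_le hκ hp1
      have h4 : (⌈kap L R κ⌉₊ : ℝ) + 1 + p' ≤
          (18 * (10 * C₁ ^ 2 + 3) + 6) * (κ * ℓ ^ (2 * k₀ + 2)) := by
        have h5 : kap L R κ ≤ (10 * C₁ ^ 2 + 3) * (κ * ℓ ^ (2 * k₀ + 2)) := by
          rw [← mul_assoc]; exact hkap
        have h6 : 0 ≤ (10 * C₁ ^ 2 + 3) * (κ * ℓ ^ (2 * k₀ + 2)) := by positivity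
        linarith
      calc 324 * (R : ℝ) ^ 2 * Real.log d * (⌈kap L R κ⌉₊ + 1 + p') ≤
          324 * (C₁ ^ 2 * ℓ ^ (2 * k₀ + 2)) * Real.log d *
            ((18 * (10 * C₁ ^ 2 + 3) + 6) * (κ * ℓ ^ (2 * k₀ + 2))) := by
            refine mul_le_mul ?_ h4 (by positivity) (by positivity)
            exact mul_le_mul_of_nonneg_right (mul_le_mul_of_nonneg_left hR2 (by norm_num)) hlogd.le
        _ = (324 * C₁ ^ 2 * Real.log d * (18 * (10 * C₁ ^ 2 + 3) + 6)) * κ *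
            ℓ ^ (4 * k₀ + 4) := by
            rw [show 4 * k₀ + 4 = (2 * k₀ + 2) + (2 * k₀ + 2) by ring, pow_add]
            ring
        _ ≤ C * κ * ℓ ^ (4 * k₀ + 4) := by
            have h6 : 324 * C₁ ^ 2 * Real.log d * (18 * (10 * C₁ ^ 2 + 3) + 6) ≤ C := by
              rw [hC]
              have : 0 ≤ (10 * C₁ ^ 2 + 3) * (8 * C₂ + 2) := by positivity
              linarith
            rw [mul_assoc, mul_assoc C]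
            exact mul_le_mul_of_nonneg_right h6 (by positivity)
    · rw [Real.rpow_def_of_pos hL0, ← hℓ]
      apply Real.exp_le_exp.mpr
      linarith

end Pool.Agent.FFG
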