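import Pool.Agent.FFG.Defs

/-!
# The flow bound: a multiplicative Trotter bound for almost commuting projections
-/

open Finset

set_option autoImplicit false
set_option linter.unusedSectionVars false

namespace Pool.Agent.FFG

namespace Flow

open NormedSpace

section Exp

variable {A : Type} [NormedRing A] [NormedAlgebra ℝ A] [CompleteSpace A]

theorem exp_add' {x y : A} (h : Commute x y) : exp (x + y) = exp x * exp y := by
  let _ : NormedAlgebra ℚ A := NormedAlgebra.restrictScalars ℚ ℝ A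
  exact exp_add_of_commute h

theorem exp_mul_neg (x : A) : exp x * exp (-x) = 1 := by
  rw [← exp_add' (Commute.neg_right (Commute.refl x)), add_neg_cancel, exp_zero]

theorem exp_neg_mul (x : A) : exp (-x) * exp x = 1 := by
  rw [← exp_add' (Commute.neg_left (Commute.refl x)), neg_add_cancel, exp_zero]

theorem norm_exp_le [NormOneClass A] (x : A) : ‖exp x‖ ≤ Real.exp ‖x‖ := by
  have h1 := exp_series_hasSum_exp' (𝕂 := ℝ) x
  have h2 := exp_series_hasSum_exp' (𝕂 := ℝ) ‖x‖
  rw [← Real.exp_eq_exp_ℝ] at h2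
  refine h1.norm_le_of_bounded h2 fun n => ?_
  rw [norm_smul, smul_eq_mul, Real.norm_of_nonneg (by positivity)]
  exact mul_le_mul_of_nonneg_left (norm_pow_le x n) (by positivity)

/-- `exp X B exp (-X) - B` is small if the commutator of `X` and `B` is small. -/
theorem norm_conj_sub_le [NormOneClass A] (X B : A) :
    ‖exp X * B * exp (-X) - B‖ ≤ Real.exp (2 * ‖X‖) * ‖X * B - B * X‖ := by
  have hd : ∀ s : ℝ, HasDerivAt (fun s : ℝ => exp (s • X) * B * exp (-(s • X)))
      (exp (s • X) * (X * B - B * X) * exp (-(s • X))) s := by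
    intro s
    have h1 := hasDerivAt_exp_smul_const (𝕂 := ℝ) X s
    have h2 := hasDerivAt_exp_smul_const' (𝕂 := ℝ) (-X) s
    have h3 := (h1.mul_const B).mul h2
    have h4 : (fun s : ℝ => exp (s • X) * B * exp (-(s • X))) =
        (fun s : ℝ => exp (s • X) * B * exp (s • (-X))) := by
      funext s
      rw [smul_neg]
    have h5 : HasDerivAt (fun s : ℝ => exp (s • X) * B * exp (s • (-X)))
        (exp (s • X) * X * B * exp (s • (-X)) + exp (s • X) * B * (-X * exp (s • (-X)))) s := h3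
    rw [h4]
    convert h5 using 1
    rw [smul_neg]
    noncomm_ring
  have h1 := norm_image_sub_le_of_norm_deriv_le_segment_01'
    (f := fun s : ℝ => exp (s • X) * B * exp (-(s • X)))
    (f' := fun s : ℝ => exp (s • X) * (X * B - B * X) * exp (-(s • X)))
    (C := Real.exp (2 * ‖X‖) * ‖X * B - B * X‖)
    (fun s _ => (hd s).hasDerivWithinAt) ?_
  · simpa using h1
  · intro s hs
    have hsX : ‖s • X‖ ≤ ‖X‖ := by
      rw [norm_smul, Real.norm_of_nonneg hs.1]
      exact mul_le_of_le_one_left (norm_nonneg _) hs.2.le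
    have h2 : ‖exp (s • X)‖ ≤ Real.exp ‖X‖ := (norm_exp_le _).trans (Real.exp_le_exp.mpr hsX)
    have h3 : ‖exp (-(s • X))‖ ≤ Real.exp ‖X‖ := by
      refine (norm_exp_le _).trans (Real.exp_le_exp.mpr ?_)
      rw [norm_neg]
      exact hsX
    calc ‖exp (s • X) * (X * B - B * X) * exp (-(s • X))‖
        ≤ ‖exp (s • X)‖ * ‖X * B - B * X‖ * ‖exp (-(s • X))‖ :=
          (norm_mul_le _ _).trans (mul_le_mul_of_nonneg_right (norm_mul_le _ _) (norm_nonneg _))
      _ ≤ Real.exp ‖X‖ * ‖X * B - B * X‖ * Real.exp ‖X‖ := by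
          gcongr
      _ = Real.exp (2 * ‖X‖) * ‖X * B - B * X‖ := by
          rw [two_mul, Real.exp_add]
          ring

end Exp

/-- the data of the flow bound -/
structure Dat {A : Type} [NormedRing A] {ι : Type} (Q : ι → A) (nb : ι → ι → Prop) {K : ℕ}
    (cls : ι → Fin K) (Δ : ℕ) (ε : ℝ) : Prop where
  hn : ∀ i, ‖Q i‖ ≤ 1
  hsym : ∀ i j, nb i j → nb j i
  hcomm : ∀ i j, ¬ nb i j → Q i * Q j = Q j * Q i
  hdeg : ∀ i, {j | nb i j}.ncard ≤ Δ
  hcls : ∀ i j, cls i = cls j → i ≠ j → ¬ nb i j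
  hε : ∀ i j, ‖Q i * Q j - Q j * Q i‖ ≤ ε

section Local

variable {A : Type} [NormedRing A] [NormedAlgebra ℝ A] [CompleteSpace A] [NormOneClass A]
  {ι : Type} [Fintype ι] [DecidableEq ι] {Q : ι → A} {nb : ι → ι → Prop} {K : ℕ}
  {cls : ι → Fin K} {Δ : ℕ} {ε : ℝ}

/-- sum of the members of a class in a set -/
noncomputable def XX (Q : ι → A) (cls : ι → Fin K) (J : Finset ι) (c : Fin K) : A :=
  ∑ i ∈ J.filter (fun i => cls i = c), Q i

/-- support -/
def Supp (Q : ι → A) (B : A) (J : Finset ι) : Prop := ∀ j, j ∉ J → Commute B (Q j)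

/-- the neighbourhood of a set -/
noncomputable def nbhd (nb : ι → ι → Prop) (J : Finset ι) : Finset ι := by
  classical exact J ∪ J.biUnion fun j => univ.filter fun k => nb j k

theorem mem_nbhd {J : Finset ι} {k : ι} : k ∈ nbhd nb J ↔ k ∈ J ∨ ∃ j ∈ J, nb j k := by
  classical
  simp [nbhd]

theorem card_nbhd (hd : ∀ i, {j | nb i j}.ncard ≤ Δ) (J : Finset ι) :
    (nbhd nb J).card ≤ J.card * (Δ + 1) := by
  classical
  have h1 : ∀ j, (univ.filter fun k => nb j k).card ≤ Δ := by
    intro j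
    have h2 := hd j
    have h3 : {k | nb j k} = ((univ.filter fun k => nb j k : Finset ι) : Set ι) := by
      ext k
      simp
    rw [h3, Set.ncard_coe_finset] at h2
    exact h2
  have h4 : (nbhd nb J).card ≤ J.card + (J.biUnion fun j => univ.filter fun k => nb j k).card := by
    unfold nbhd
    convert card_union_le _ _
  have h5 : (J.biUnion fun j => univ.filter fun k => nb j k).card ≤ J.card * Δ :=
    card_biUnion_le_card_mul _ _ _ fun j _ => h1 j
  calc (nbhd nb J).card ≤ J.card + J.card * Δ := by omega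
    _ = J.card * (Δ + 1) := by ring

theorem norm_XX_le (h : Dat Q nb cls Δ ε) (J : Finset ι) (c : Fin K) :
    ‖XX Q cls J c‖ ≤ J.card := by
  unfold XX
  refine (norm_sum_le _ _).trans ?_
  refine (sum_le_card_nsmul _ _ 1 fun i _ => h.hn i).trans ?_
  rw [nsmul_eq_mul, mul_one]
  exact_mod_cast card_filter_le _ _

theorem commute_of_cls (h : Dat Q nb cls Δ ε) {i j : ι} (hij : cls i = cls j) :
    Commute (Q i) (Q j) := by
  rcases eq_or_ne i j with rfl | hne
  · exact Commute.refl _
  · exact h.hcomm i j (h.hcls i j hij hne)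

/-- localisation of the conjugation by a class exponential -/
theorem conj_local (h : Dat Q nb cls Δ ε) {B : A} {J : Finset ι} (hB : Supp Q B J) (c : Fin K)
    (t : ℝ) : exp (t • XX Q cls univ c) * B * exp (-(t • XX Q cls univ c)) =
      exp (t • XX Q cls J c) * B * exp (-(t • XX Q cls J c)) := by
  have h1 : XX Q cls univ c = XX Q cls J c + XX Q cls Jᶜ c := by
    unfold XX
    rw [← sum_union]
    · congr 1
      ext i
      simp only [mem_filter, mem_univ, true_and, mem_union, mem_compl]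
      tauto
    · rw [disjoint_left]
      intro i hi hi'
      simp only [mem_filter, mem_compl] at hi hi'
      exact hi'.1 hi.1
  have h2 : Commute (XX Q cls J c) (XX Q cls Jᶜ c) := by
    unfold XX
    refine Commute.sum_left _ _ _ fun i hi => Commute.sum_right _ _ _ fun j hj => ?_
    apply commute_of_cls h
    rw [(mem_filter.mp hi).2, (mem_filter.mp hj).2]
  have h3 : Commute (XX Q cls Jᶜ c) B := by
    unfold XX
    refine Commute.sum_left _ _ _ fun i hi => ?_
    exact (hB i (mem_compl.mp (mem_filter.mp hi).1)).symm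
  have h4 : Commute (t • XX Q cls J c) (t • XX Q cls Jᶜ c) := (h2.smul_left t).smul_right t
  have h5 : exp (t • XX Q cls univ c) = exp (t • XX Q cls J c) * exp (t • XX Q cls Jᶜ c) := by
    rw [h1, smul_add, exp_add' h4]
  have h6 : exp (-(t • XX Q cls univ c)) =
      exp (-(t • XX Q cls Jᶜ c)) * exp (-(t • XX Q cls J c)) := by
    rw [h1, smul_add, neg_add, add_comm, exp_add' (h4.symm.neg_left.neg_right)]
  have h7 : Commute (exp (t • XX Q cls Jᶜ c)) B := (h3.smul_left t).exp_left
  rw [h5, h6]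
  calc exp (t • XX Q cls J c) * exp (t • XX Q cls Jᶜ c) * B *
        (exp (-(t • XX Q cls Jᶜ c)) * exp (-(t • XX Q cls J c)))
      = exp (t • XX Q cls J c) * (exp (t • XX Q cls Jᶜ c) * B) *
        (exp (-(t • XX Q cls Jᶜ c)) * exp (-(t • XX Q cls J c))) := by noncomm_ring
    _ = exp (t • XX Q cls J c) * B * (exp (t • XX Q cls Jᶜ c) *
        exp (-(t • XX Q cls Jᶜ c))) * exp (-(t • XX Q cls J c)) := by
          rw [h7.eq]
          noncomm_ring
    _ = exp (t • XX Q cls J c) * B * exp (-(t • XX Q cls J c)) := by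
          rw [exp_mul_neg, mul_one]

theorem norm_conj_le (h : Dat Q nb cls Δ ε) {B : A} {J : Finset ι} (hB : Supp Q B J) (c : Fin K)
    {t : ℝ} (ht0 : 0 ≤ t) (ht1 : t ≤ 1) :
    ‖exp (t • XX Q cls univ c) * B * exp (-(t • XX Q cls univ c))‖ ≤
      ‖B‖ * Real.exp (2 * J.card) := by
  rw [conj_local h hB c t]
  have hX : ‖t • XX Q cls J c‖ ≤ J.card := by
    rw [norm_smul, Real.norm_of_nonneg ht0]
    exact (mul_le_of_le_one_left (norm_nonneg _) ht1).trans (norm_XX_le h J c)
  have h2 : ‖exp (t • XX Q cls J c)‖ ≤ Real.exp J.card :=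
    (norm_exp_le _).trans (Real.exp_le_exp.mpr hX)
  have h3 : ‖exp (-(t • XX Q cls J c))‖ ≤ Real.exp J.card := by
    refine (norm_exp_le _).trans (Real.exp_le_exp.mpr ?_)
    rw [norm_neg]
    exact hX
  calc ‖exp (t • XX Q cls J c) * B * exp (-(t • XX Q cls J c))‖
      ≤ ‖exp (t • XX Q cls J c)‖ * ‖B‖ * ‖exp (-(t • XX Q cls J c))‖ :=
        (norm_mul_le _ _).trans (mul_le_mul_of_nonneg_right (norm_mul_le _ _) (norm_nonneg _))
    _ ≤ Real.exp J.card * ‖B‖ * Real.exp J.card := by gcongr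
    _ = ‖B‖ * Real.exp (2 * J.card) := by
        rw [two_mul, Real.exp_add]
        ring

theorem supp_conj (h : Dat Q nb cls Δ ε) {B : A} {J : Finset ι} (hB : Supp Q B J) (c : Fin K)
    (t : ℝ) :
    Supp Q (exp (t • XX Q cls univ c) * B * exp (-(t • XX Q cls univ c))) (nbhd nb J) := by
  intro k hk
  rw [mem_nbhd] at hk
  push Not at hk
  rw [conj_local h hB c t]
  have h1 : Commute (XX Q cls J c) (Q k) := by
    unfold XX
    refine Commute.sum_left _ _ _ fun i hi => ?_
    exact h.hcomm i k (hk.2 i (mem_filter.mp hi).1)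
  have h2 : Commute (exp (t • XX Q cls J c)) (Q k) := (h1.smul_left t).exp_left
  have h3 : Commute (exp (-(t • XX Q cls J c))) (Q k) := (h1.smul_left t).neg_left.exp_left
  exact (h2.mul_left (hB k hk.1)).mul_left h3

theorem supp_Q (h : Dat Q nb cls Δ ε) (i : ι) : Supp Q (Q i) (nbhd nb {i}) := by
  intro k hk
  rw [mem_nbhd] at hk
  push Not at hk
  exact h.hcomm i k (hk.2 i (mem_singleton_self i))

/-- ordered product of class exponentials -/
noncomputable def PP (Q : ι → A) (cls : ι → Fin K) : List (Fin K) → ℝ → A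
  | [], _ => 1
  | c :: cs, t => exp (-(t • XX Q cls univ c)) * PP Q cls cs t

/-- its inverse -/
noncomputable def PI (Q : ι → A) (cls : ι → Fin K) : List (Fin K) → ℝ → A
  | [], _ => 1
  | c :: cs, t => PI Q cls cs t * exp (t • XX Q cls univ c)

theorem PP_mul_PI (cs : List (Fin K)) (t : ℝ) : PP Q cls cs t * PI Q cls cs t = 1 := by
  induction cs with
  | nil => simp [PP, PI]
  | cons c cs ih =>
    simp only [PP, PI]
    calc exp (-(t • XX Q cls univ c)) * PP Q cls cs t * (PI Q cls cs t * exp (t • XX Q cls univ c))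
        = exp (-(t • XX Q cls univ c)) * (PP Q cls cs t * PI Q cls cs t) *
          exp (t • XX Q cls univ c) := by noncomm_ring
      _ = 1 := by rw [ih, mul_one, exp_neg_mul]

theorem conj_list (h : Dat Q nb cls Δ ε) (cs : List (Fin K)) {t : ℝ} (ht0 : 0 ≤ t) (ht1 : t ≤ 1) :
    ∀ (B : A) (J : Finset ι), Supp Q B J →
      ‖PI Q cls cs t * B * PP Q cls cs t‖ ≤
        ‖B‖ * Real.exp (2 * cs.length * (J.card * (Δ + 1) ^ cs.length)) := by
  induction cs with
  | nil =>
    intro B J _
    simp [PP, PI]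
  | cons c cs ih =>
    intro B J hB
    simp only [PP, PI]
    have h1 : PI Q cls cs t * exp (t • XX Q cls univ c) * B *
        (exp (-(t • XX Q cls univ c)) * PP Q cls cs t) =
        PI Q cls cs t * (exp (t • XX Q cls univ c) * B * exp (-(t • XX Q cls univ c))) *
          PP Q cls cs t := by noncomm_ring
    rw [h1]
    refine (ih _ _ (supp_conj h hB c t)).trans ?_
    have h2 := norm_conj_le h hB c ht0 ht1
    have h3 : ((nbhd nb J).card : ℝ) ≤ J.card * (Δ + 1) := by
      exact_mod_cast card_nbhd h.hdeg J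
    have h4 : (J.card : ℝ) ≤ J.card * (Δ + 1) ^ (cs.length + 1) := by
      refine le_mul_of_one_le_right (Nat.cast_nonneg _) ?_
      exact one_le_pow₀ (by linarith [(Nat.cast_nonneg Δ : (0:ℝ) ≤ Δ)])
    calc ‖exp (t • XX Q cls univ c) * B * exp (-(t • XX Q cls univ c))‖ *
          Real.exp (2 * cs.length * ((nbhd nb J).card * (Δ + 1) ^ cs.length))
        ≤ (‖B‖ * Real.exp (2 * J.card)) *
          Real.exp (2 * cs.length * ((J.card * (Δ + 1)) * (Δ + 1) ^ cs.length)) := by
            gcongr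
      _ = ‖B‖ * Real.exp (2 * J.card + 2 * cs.length * ((J.card * (Δ + 1)) * (Δ + 1) ^ cs.length))
          := by
            rw [Real.exp_add]
            ring
      _ ≤ ‖B‖ * Real.exp (2 * (c :: cs).length * (J.card * (Δ + 1) ^ (c :: cs).length)) := by
            gcongr
            rw [List.length_cons]
            push_cast
            have h5 : (J.card * (Δ + 1) : ℝ) * (Δ + 1) ^ cs.length =
                J.card * (Δ + 1) ^ (cs.length + 1) := by ring
            rw [h5]
            linarith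

/-- the sum of the classes in a list -/
noncomputable def NN (Q : ι → A) (cls : ι → Fin K) : List (Fin K) → A
  | [] => 0
  | c :: cs => XX Q cls univ c + NN Q cls cs

/-- the logarithmic derivative of `PP` -/
noncomputable def DD (Q : ι → A) (cls : ι → Fin K) : List (Fin K) → ℝ → A
  | [], _ => 0
  | c :: cs, t => DD Q cls cs t - PI Q cls cs t * XX Q cls univ c * PP Q cls cs t

/-- the logarithmic derivative of the flow -/
noncomputable def MM (Q : ι → A) (cls : ι → Fin K) : List (Fin K) → ℝ → A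
  | [], _ => 0
  | c :: cs, t => PI Q cls cs t * (exp (t • XX Q cls univ c) * NN Q cls cs *
      exp (-(t • XX Q cls univ c)) - NN Q cls cs) * PP Q cls cs t + MM Q cls cs t

theorem hasDerivAt_PP (cs : List (Fin K)) (t : ℝ) :
    HasDerivAt (PP Q cls cs) (PP Q cls cs t * DD Q cls cs t) t := by
  induction cs with
  | nil =>
    have h1 : PP Q cls [] = fun _ : ℝ => (1 : A) := rfl
    rw [h1]
    simpa [DD] using hasDerivAt_const t (1 : A)
  | cons c cs ih =>
    have h1 : HasDerivAt (fun s : ℝ => exp (s • (-XX Q cls univ c)))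
        (-XX Q cls univ c * exp (t • (-XX Q cls univ c))) t :=
      hasDerivAt_exp_smul_const' (𝕂 := ℝ) (-XX Q cls univ c) t
    have h2 : HasDerivAt (fun s : ℝ => exp (s • (-XX Q cls univ c)) * PP Q cls cs s)
        (-XX Q cls univ c * exp (t • (-XX Q cls univ c)) * PP Q cls cs t +
          exp (t • (-XX Q cls univ c)) * (PP Q cls cs t * DD Q cls cs t)) t := h1.mul ih
    have h3 : PP Q cls (c :: cs) = fun s : ℝ => exp (s • (-XX Q cls univ c)) * PP Q cls cs s := by
      funext s
      simp only [PP, smul_neg]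
    rw [h3]
    convert h2 using 1
    simp only [DD]
    have h4 : Commute (XX Q cls univ c) (exp (t • (-XX Q cls univ c))) :=
      (((Commute.refl (XX Q cls univ c)).neg_right).smul_right t).exp_right
    have h5 : PP Q cls cs t * PI Q cls cs t = 1 := PP_mul_PI cs t
    calc exp (t • -XX Q cls univ c) * PP Q cls cs t *
          (DD Q cls cs t - PI Q cls cs t * XX Q cls univ c * PP Q cls cs t)
        = exp (t • -XX Q cls univ c) * (PP Q cls cs t * DD Q cls cs t) -
          exp (t • -XX Q cls univ c) * (PP Q cls cs t * PI Q cls cs t) * XX Q cls univ c *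
            PP Q cls cs t := by noncomm_ring
      _ = exp (t • -XX Q cls univ c) * (PP Q cls cs t * DD Q cls cs t) -
          (exp (t • -XX Q cls univ c) * XX Q cls univ c) * PP Q cls cs t := by
            rw [h5]
            noncomm_ring
      _ = _ := by
            rw [← h4.eq]
            noncomm_ring

theorem PI_mul_PP (cs : List (Fin K)) (t : ℝ) : PI Q cls cs t * PP Q cls cs t = 1 := by
  induction cs with
  | nil => simp [PP, PI]
  | cons c cs ih =>
    simp only [PP, PI]
    calc PI Q cls cs t * exp (t • XX Q cls univ c) * (exp (-(t • XX Q cls univ c)) * PP Q cls cs t)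
        = PI Q cls cs t * (exp (t • XX Q cls univ c) * exp (-(t • XX Q cls univ c))) *
          PP Q cls cs t := by noncomm_ring
      _ = 1 := by rw [exp_mul_neg, mul_one, ih]

theorem MM_eq (cs : List (Fin K)) (t : ℝ) :
    MM Q cls cs t = PI Q cls cs t * NN Q cls cs * PP Q cls cs t + DD Q cls cs t := by
  induction cs with
  | nil => simp [MM, PI, NN, PP, DD]
  | cons c cs ih =>
    simp only [MM, PI, NN, PP, DD]
    rw [ih]
    have h4 : Commute (XX Q cls univ c) (exp (-(t • XX Q cls univ c))) :=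
      (((Commute.refl (XX Q cls univ c)).smul_right t).neg_right).exp_right
    have h5 : exp (t • XX Q cls univ c) * XX Q cls univ c * exp (-(t • XX Q cls univ c)) =
        XX Q cls univ c := by
      rw [mul_assoc, h4.eq, ← mul_assoc, exp_mul_neg, one_mul]
    have h6 : PI Q cls cs t * exp (t • XX Q cls univ c) * (XX Q cls univ c + NN Q cls cs) *
        (exp (-(t • XX Q cls univ c)) * PP Q cls cs t) =
        PI Q cls cs t * (exp (t • XX Q cls univ c) * XX Q cls univ c *
          exp (-(t • XX Q cls univ c))) * PP Q cls cs t +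
        PI Q cls cs t * (exp (t • XX Q cls univ c) * NN Q cls cs *
          exp (-(t • XX Q cls univ c))) * PP Q cls cs t := by noncomm_ring
    rw [h6, h5]
    noncomm_ring

/-- the constant -/
noncomputable def C1 (K Δ : ℕ) : ℝ :=
  (Δ + 1) * Real.exp (2 * (Δ + 1)) * Real.exp (2 * K * (Δ + 1) ^ (K + 2))

theorem C1_nonneg (K Δ : ℕ) : 0 ≤ C1 K Δ := by
  unfold C1
  positivity

theorem norm_small (h : Dat Q nb cls Δ ε) (hε : 0 ≤ ε) (i : ι) (c : Fin K) {t : ℝ} (ht0 : 0 ≤ t)
    (ht1 : t ≤ 1) :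
    ‖exp (t • XX Q cls univ c) * Q i * exp (-(t • XX Q cls univ c)) - Q i‖ ≤
      (Δ + 1) * Real.exp (2 * (Δ + 1)) * ε := by
  rw [conj_local h (supp_Q h i) c t]
  refine (norm_conj_sub_le _ _).trans ?_
  have hcard : ((nbhd nb {i}).card : ℝ) ≤ Δ + 1 := by
    have h1 := card_nbhd h.hdeg ({i} : Finset ι)
    rw [card_singleton, one_mul] at h1
    exact_mod_cast h1
  have hX : ‖t • XX Q cls (nbhd nb {i}) c‖ ≤ Δ + 1 := by
    rw [norm_smul, Real.norm_of_nonneg ht0]
    exact ((mul_le_of_le_one_left (norm_nonneg _) ht1).trans (norm_XX_le h _ c)).trans hcard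
  have hcom : ‖t • XX Q cls (nbhd nb {i}) c * Q i - Q i * (t • XX Q cls (nbhd nb {i}) c)‖ ≤
      (Δ + 1) * ε := by
    have h1 : t • XX Q cls (nbhd nb {i}) c * Q i - Q i * (t • XX Q cls (nbhd nb {i}) c) =
        t • ∑ j ∈ (nbhd nb {i}).filter (fun j => cls j = c), (Q j * Q i - Q i * Q j) := by
      unfold XX
      rw [smul_mul_assoc, mul_smul_comm, ← smul_sub, sum_mul, mul_sum, sum_sub_distrib]
    rw [h1, norm_smul, Real.norm_of_nonneg ht0]
    refine (mul_le_of_le_one_left (norm_nonneg _) ht1).trans ?_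
    refine (norm_sum_le _ _).trans ?_
    refine (sum_le_card_nsmul _ _ ε fun j _ => h.hε j i).trans ?_
    rw [nsmul_eq_mul]
    refine mul_le_mul_of_nonneg_right ?_ hε
    refine le_trans ?_ hcard
    exact_mod_cast card_filter_le _ _
  calc Real.exp (2 * ‖t • XX Q cls (nbhd nb {i}) c‖) *
        ‖t • XX Q cls (nbhd nb {i}) c * Q i - Q i * (t • XX Q cls (nbhd nb {i}) c)‖
      ≤ Real.exp (2 * (Δ + 1)) * ((Δ + 1) * ε) := by gcongr
    _ = (Δ + 1) * Real.exp (2 * (Δ + 1)) * ε := by ring

theorem norm_term (h : Dat Q nb cls Δ ε) (hε : 0 ≤ ε) (i : ι) (c : Fin K) {t : ℝ} (ht0 : 0 ≤ t)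
    (ht1 : t ≤ 1) (cs : List (Fin K)) (hcs : cs.length ≤ K) :
    ‖PI Q cls cs t * (exp (t • XX Q cls univ c) * Q i * exp (-(t • XX Q cls univ c)) - Q i) *
      PP Q cls cs t‖ ≤ C1 K Δ * ε := by
  have hs1 := supp_conj h (supp_Q h i) c t
  have hs : Supp Q (exp (t • XX Q cls univ c) * Q i * exp (-(t • XX Q cls univ c)) - Q i)
      (nbhd nb (nbhd nb {i})) := by
    intro k hk
    refine (hs1 k hk).sub_left (supp_Q h i k fun hk' => hk ?_)
    rw [mem_nbhd]
    exact Or.inl hk'
  refine (conj_list h cs ht0 ht1 _ _ hs).trans ?_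
  have hcard : ((nbhd nb (nbhd nb {i})).card : ℝ) ≤ (Δ + 1) ^ 2 := by
    have h1 := card_nbhd h.hdeg ({i} : Finset ι)
    have h2 := card_nbhd h.hdeg (nbhd nb ({i} : Finset ι))
    rw [card_singleton, one_mul] at h1
    have h3 : (nbhd nb (nbhd nb ({i} : Finset ι))).card ≤ (Δ + 1) ^ 2 := by nlinarith
    exact_mod_cast h3
  have h1 : (1 : ℝ) ≤ Δ + 1 := by linarith [(Nat.cast_nonneg Δ : (0:ℝ) ≤ Δ)]
  have hlen : (cs.length : ℝ) ≤ K := by exact_mod_cast hcs
  have hexp : (2 * cs.length * ((nbhd nb (nbhd nb {i})).card * (Δ + 1) ^ cs.length) : ℝ) ≤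
      2 * K * (Δ + 1) ^ (K + 2) := by
    have h2 : ((Δ : ℝ) + 1) ^ cs.length ≤ (Δ + 1) ^ K := pow_le_pow_right₀ h1 hcs
    calc (2 * cs.length * ((nbhd nb (nbhd nb {i})).card * (Δ + 1) ^ cs.length) : ℝ)
        ≤ 2 * K * ((Δ + 1) ^ 2 * (Δ + 1) ^ K) := by gcongr
      _ = 2 * K * (Δ + 1) ^ (K + 2) := by ring
  calc ‖exp (t • XX Q cls univ c) * Q i * exp (-(t • XX Q cls univ c)) - Q i‖ *
        Real.exp (2 * cs.length * ((nbhd nb (nbhd nb {i})).card * (Δ + 1) ^ cs.length))
      ≤ ((Δ + 1) * Real.exp (2 * (Δ + 1)) * ε) * Real.exp (2 * K * (Δ + 1) ^ (K + 2)) := by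
        refine mul_le_mul (norm_small h hε i c ht0 ht1) (Real.exp_le_exp.mpr hexp)
          (Real.exp_nonneg _) (by positivity)
    _ = C1 K Δ * ε := by
        unfold C1
        ring

theorem norm_termN (h : Dat Q nb cls Δ ε) (hε : 0 ≤ ε) (c : Fin K) {t : ℝ} (ht0 : 0 ≤ t)
    (ht1 : t ≤ 1) (cs : List (Fin K)) (hcs : cs.length ≤ K) (ds : List (Fin K)) :
    ‖PI Q cls cs t * (exp (t • XX Q cls univ c) * NN Q cls ds * exp (-(t • XX Q cls univ c)) -
      NN Q cls ds) * PP Q cls cs t‖ ≤ ds.length * (Fintype.card ι * (C1 K Δ * ε)) := by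
  induction ds with
  | nil => simp [NN]
  | cons d ds ih =>
    have h1 : PI Q cls cs t * (exp (t • XX Q cls univ c) * NN Q cls (d :: ds) *
        exp (-(t • XX Q cls univ c)) - NN Q cls (d :: ds)) * PP Q cls cs t =
        ∑ i ∈ univ.filter (fun i => cls i = d), PI Q cls cs t * (exp (t • XX Q cls univ c) * Q i *
          exp (-(t • XX Q cls univ c)) - Q i) * PP Q cls cs t +
        PI Q cls cs t * (exp (t • XX Q cls univ c) * NN Q cls ds *
          exp (-(t • XX Q cls univ c)) - NN Q cls ds) * PP Q cls cs t := by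
      rw [← sum_mul, ← mul_sum, sum_sub_distrib, ← sum_mul, ← mul_sum]
      have h2 : ∑ i ∈ univ.filter (fun i => cls i = d), Q i = XX Q cls univ d := rfl
      rw [h2]
      simp only [NN]
      noncomm_ring
    rw [h1]
    refine (norm_add_le _ _).trans ?_
    have h3 : ‖∑ i ∈ univ.filter (fun i => cls i = d), PI Q cls cs t *
        (exp (t • XX Q cls univ c) * Q i * exp (-(t • XX Q cls univ c)) - Q i) *
          PP Q cls cs t‖ ≤ Fintype.card ι * (C1 K Δ * ε) := by
      refine (norm_sum_le _ _).trans ?_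
      refine (sum_le_card_nsmul _ _ _ fun i _ => norm_term h hε i c ht0 ht1 cs hcs).trans ?_
      rw [nsmul_eq_mul]
      refine mul_le_mul_of_nonneg_right ?_ (mul_nonneg (C1_nonneg K Δ) hε)
      exact_mod_cast card_filter_le _ _
    rw [List.length_cons]
    push_cast
    linarith

theorem norm_MM (h : Dat Q nb cls Δ ε) (hε : 0 ≤ ε) {t : ℝ} (ht0 : 0 ≤ t)
    (ht1 : t ≤ 1) (cs : List (Fin K)) (hcs : cs.length ≤ K) :
    ‖MM Q cls cs t‖ ≤ cs.length * (K * (Fintype.card ι * (C1 K Δ * ε))) := by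
  induction cs with
  | nil => simp [MM]
  | cons c cs ih =>
    simp only [MM]
    have hcs' : cs.length ≤ K := by
      rw [List.length_cons] at hcs
      omega
    refine (norm_add_le _ _).trans ?_
    have h1 := norm_termN h hε c ht0 ht1 cs hcs' cs
    have h2 : (cs.length : ℝ) * (Fintype.card ι * (C1 K Δ * ε)) ≤
        K * (Fintype.card ι * (C1 K Δ * ε)) := by
      refine mul_le_mul_of_nonneg_right (by exact_mod_cast hcs') ?_
      have := C1_nonneg K Δ
      positivity
    have h3 := ih hcs'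
    rw [List.length_cons]
    push_cast
    linarith

theorem NN_finRange : NN Q cls (List.finRange K) = ∑ i, Q i := by
  have h1 : ∀ cs : List (Fin K), NN Q cls cs = (cs.map fun c => XX Q cls univ c).sum := by
    intro cs
    induction cs with
    | nil => rfl
    | cons c cs ih => simp only [NN, List.map_cons, List.sum_cons, ih]
  rw [h1, ← Fin.sum_univ_def]
  unfold XX
  exact sum_fiberwise univ cls Q

theorem PP_one (cs : List (Fin K)) : PP Q cls cs 1 =
    (cs.map fun c => exp (-∑ i ∈ univ.filter (fun i => cls i = c), Q i)).prod := by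
  induction cs with
  | nil => rfl
  | cons c cs ih =>
    simp only [PP, List.map_cons, List.prod_cons, ih, one_smul]
    rfl

theorem flow (h : Dat Q nb cls Δ ε) (hε : 0 ≤ ε) :
    ‖exp (∑ i, Q i) * (List.ofFn fun c : Fin K =>
      exp (-∑ i ∈ univ.filter (fun i => cls i = c), Q i)).prod‖ ≤
      Real.exp (K * (K * C1 K Δ) * Fintype.card ι * ε) := by
  set cs := List.finRange K with hcs
  set N := ∑ i, Q i with hN
  have hZ : ∀ t : ℝ, HasDerivAt (fun s : ℝ => exp (s • N) * PP Q cls cs s)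
      (exp (t • N) * PP Q cls cs t * MM Q cls cs t) t := by
    intro t
    have h1 : HasDerivAt (fun s : ℝ => exp (s • N)) (exp (t • N) * N) t :=
      hasDerivAt_exp_smul_const (𝕂 := ℝ) N t
    have h2 : HasDerivAt (fun s : ℝ => exp (s • N) * PP Q cls cs s)
        (exp (t • N) * N * PP Q cls cs t + exp (t • N) * (PP Q cls cs t * DD Q cls cs t)) t :=
      h1.mul (hasDerivAt_PP cs t)
    convert h2 using 1
    rw [MM_eq, hcs, NN_finRange, ← hcs, ← hN]
    calc exp (t • N) * PP Q cls cs t * (PI Q cls cs t * N * PP Q cls cs t + DD Q cls cs t)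
        = exp (t • N) * (PP Q cls cs t * PI Q cls cs t) * N * PP Q cls cs t +
          exp (t • N) * (PP Q cls cs t * DD Q cls cs t) := by noncomm_ring
      _ = _ := by rw [PP_mul_PI, mul_one]
  have h0 : ‖(fun s : ℝ => exp (s • N) * PP Q cls cs s) 0‖ ≤ 1 := by
    have h1 : PP Q cls cs 0 = 1 := by
      have h2 : ∀ ds : List (Fin K), PP Q cls ds 0 = 1 := by
        intro ds
        induction ds with
        | nil => rfl
        | cons c ds ih => simp [PP, ih]
      exact h2 cs
    simp [h1]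
  have hb : ∀ t ∈ Set.Ico (0 : ℝ) 1, ‖exp (t • N) * PP Q cls cs t * MM Q cls cs t‖ ≤
      (K * (K * (Fintype.card ι * (C1 K Δ * ε)))) *
        ‖(fun s : ℝ => exp (s • N) * PP Q cls cs s) t‖ + 0 := by
    intro t ht
    have h1 := norm_MM h hε ht.1 ht.2.le cs (by rw [hcs, List.length_finRange])
    rw [hcs, List.length_finRange, ← hcs] at h1
    rw [add_zero, mul_comm]
    exact (norm_mul_le _ _).trans (mul_le_mul_of_nonneg_left h1 (norm_nonneg _))
  have h1 := norm_le_gronwallBound_of_norm_deriv_right_le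
    (f := fun s : ℝ => exp (s • N) * PP Q cls cs s)
    (f' := fun t => exp (t • N) * PP Q cls cs t * MM Q cls cs t) (a := 0) (b := 1)
    (fun t _ => (hZ t).continuousAt.continuousWithinAt)
    (fun t _ => (hZ t).hasDerivWithinAt) h0 hb 1 (Set.right_mem_Icc.mpr zero_le_one)
  rw [gronwallBound_ε0, one_mul, sub_zero, mul_one] at h1
  simp only [one_smul] at h1
  rw [PP_one, hcs, ← List.ofFn_eq_map] at h1
  refine h1.trans (le_of_eq ?_)
  congr 1
  ring

end Local

end Flow

/-- F4: the flow bound. -/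
theorem flow_bound (K Δ : ℕ) : ∃ C₀ : ℝ, 0 ≤ C₀ ∧ ∀ (A : Type) [NormedRing A]
    [NormedAlgebra ℂ A] [CompleteSpace A] [NormOneClass A] (ι : Type) [Fintype ι]
    [DecidableEq ι] (Q : ι → A) (_hQ : ∀ i, Q i * Q i = Q i) (_hn : ∀ i, ‖Q i‖ ≤ 1)
    (nb : ι → ι → Prop) (_hsym : ∀ i j, nb i j → nb j i)
    (_hcomm : ∀ i j, ¬ nb i j → Q i * Q j = Q j * Q i) (_hdeg : ∀ i, {j | nb i j}.ncard ≤ Δ)
    (cls : ι → Fin K) (_hcls : ∀ i j, cls i = cls j → i ≠ j → ¬ nb i j)
    (ε : ℝ) (_hε : ∀ i j, ‖Q i * Q j - Q j * Q i‖ ≤ ε),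
    ‖NormedSpace.exp (∑ i, Q i) * (List.ofFn fun c : Fin K =>
      NormedSpace.exp (-∑ i ∈ univ.filter (fun i => cls i = c), Q i)).prod‖ ≤
      Real.exp (C₀ * Fintype.card ι * ε) := by
  refine ⟨K * (K * Flow.C1 K Δ), ?_, ?_⟩
  · have := Flow.C1_nonneg K Δ
    positivity
  · intro A _ _ _ _ ι _ _ Q _ hn nb hsym hcomm hdeg cls hcls ε hε
    let _ : NormedAlgebra ℝ A := NormedAlgebra.restrictScalars ℝ ℂ A
    rcases isEmpty_or_nonempty ι with hι | ⟨⟨i⟩⟩
    · simp
    · have hε0 : 0 ≤ ε := by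
        have h1 := hε i i
        rw [sub_self, norm_zero] at h1
        exact h1
      exact Flow.flow (nb := nb) (Δ := Δ) ⟨hn, hsym, hcomm, hdeg, hcls, hε⟩ hε0

end Pool.Agent.FFG
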