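import Pool.Agent.FFG.Geo1

/-!
# The cells of the partition of the torus
-/

open Finset
open scoped InnerProductSpace

set_option autoImplicit false
set_option linter.unusedSectionVars false

namespace Pool.Agent.FFG

open Pool.Agent.PEPS953 Pool.Agent.PepsX Pool.Agent.PepsY

section Geometry

variable {L : ℕ} [NeZero L]

/-! ### Two-dimensional geometry -/

private lemma al_mono {R a b : ℕ} (h : a ≤ b) (x : ZMod L) : al L R a x ⊆ al L R b x := by
  have h0 : cdist x x ≤ b - a := by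
    unfold cdist
    simp
  have h1 := al_sub (R := R) (w := a) x x h0
  rwa [Nat.add_sub_cancel' h] at h1

private lemma al_sub' {R a b δ : ℕ} {x y : ZMod L} (h : cdist x y ≤ δ) (hab : a + δ ≤ b) :
    al L R a y ⊆ al L R b x :=
  (al_sub x y h).trans (al_mono hab x)

private lemma cdist_comm' (x y : ZMod L) : cdist x y = cdist y x := by
  unfold cdist
  rw [← neg_sub, ZMod.natAbs_valMinAbs_neg]

private lemma three_card {s : Finset ℕ} (hs : s.card ≤ 2) {i j k : ℕ} (hi : i ∈ s) (hj : j ∈ s)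
    (hk : k ∈ s) (hij : i ≠ j) (hik : i ≠ k) (hjk : j ≠ k) : False := by
  have h1 : ({i, j, k} : Finset ℕ) ⊆ s := by
    intro a ha
    simp only [mem_insert, mem_singleton] at ha
    rcases ha with rfl | rfl | rfl
    · exact hi
    · exact hj
    · exact hk
  have h2 := card_le_card h1
  have h3 : ({i, j, k} : Finset ℕ).card = 3 := by
    rw [card_eq_three]
    exact ⟨i, j, k, hij, hik, hjk, rfl⟩
  omega

private lemma al_nested {R w₁ w : ℕ} (hR : 0 < R) (hRL : R ≤ L) (h1 : w ≤ w₁)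
    (h3 : 2 * (w₁ + w) + 1 ≤ R) {x y : ZMod L} (h : cdist x y ≤ w) :
    al L R w₁ x ⊆ al L R w₁ y ∨ al L R w₁ y ⊆ al L R w₁ x := by
  by_contra hcon
  push Not at hcon
  obtain ⟨hA, hB⟩ := hcon
  obtain ⟨i, hi, hi'⟩ := not_subset.1 hA
  obtain ⟨j, hj, hj'⟩ := not_subset.1 hB
  obtain ⟨k, hk⟩ := al_nonempty (L := L) (R := R) (w := 0) y
  have hk1 : k ∈ al L R w₁ y := al_mono (Nat.zero_le _) y hk
  have hk2 : k ∈ al L R w₁ x := al_sub' h (by omega) hk
  have hc := al_card hR hRL h3 x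
  refine three_card hc (al_mono (Nat.le_add_right _ _) x hi) (al_sub' h le_rfl hj)
    (al_mono (Nat.le_add_right _ _) x hk2) ?_ ?_ ?_
  · rintro rfl
    exact hj' hi
  · rintro rfl
    exact hi' hk1
  · rintro rfl
    exact hj' hk2

/-- If the window of radius `w₀` about `x` meets one interval only, then the smaller windows about
the points close to `x` meet this interval only. -/
private lemma al_single {R w₀ w₁ w : ℕ} (hR : 0 < R) (hRL : R ≤ L) (h2 : w₁ + w ≤ w₀)
    (h3 : 2 * (w₀ + w) + 1 ≤ R) {x y : ZMod L} (h : cdist x y ≤ w)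
    (hx : (al L R w₀ x).card ≠ 2) : al L R w₁ x = al L R w₁ y := by
  have hc := al_card (w := w₀) hR hRL (by omega) x
  have hn := (al_nonempty (R := R) (w := w₀) x).card_pos
  obtain ⟨k, hk⟩ := card_eq_one.1 (show (al L R w₀ x).card = 1 by omega)
  have e1 : al L R w₁ x = {k} := by
    have : al L R w₁ x ⊆ {k} := hk ▸ al_mono (by omega) x
    exact (subset_singleton_iff.1 this).resolve_left (al_nonempty x).ne_empty
  have e2 : al L R w₁ y = {k} := by
    have : al L R w₁ y ⊆ {k} := hk ▸ al_sub' h h2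
    exact (subset_singleton_iff.1 this).resolve_left (al_nonempty y).ne_empty
  rw [e1, e2]

private lemma al_pair {R w₀ w : ℕ} (hR : 0 < R) (hRL : R ≤ L)
    (h3 : 2 * (w₀ + w) + 1 ≤ R) {x y : ZMod L} (h : cdist x y ≤ w)
    (hx : (al L R w₀ x).card = 2) (hy : (al L R w₀ y).card = 2) : al L R w₀ x = al L R w₀ y := by
  have hc := al_card hR hRL h3 x
  rw [eq_of_subset_of_card_le (al_mono (Nat.le_add_right w₀ w) x) (by omega),
    eq_of_subset_of_card_le (al_sub' (R := R) h (le_refl (w₀ + w))) (by omega)]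

/-- The index sets of close positions are nested. -/
theorem ph_nested {R w₀ w₁ w : ℕ} (hR : 0 < R) (hRL : R ≤ L) (h1 : w ≤ w₁) (h2 : w₁ + w ≤ w₀)
    (h3 : 2 * (w₀ + w) + 1 ≤ R) (u v : Site L) (huv : sdist u v ≤ w) :
    ph L R w₀ w₁ u ⊆ ph L R w₀ w₁ v ∨ ph L R w₀ w₁ v ⊆ ph L R w₀ w₁ u := by
  have ha : cdist u.1 v.1 ≤ w := (le_max_left _ _).trans huv
  have hb : cdist u.2 v.2 ≤ w := (le_max_right _ _).trans huv
  have ha' : cdist v.1 u.1 ≤ w := cdist_comm' u.1 v.1 ▸ ha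
  have hb' : cdist v.2 u.2 ≤ w := cdist_comm' u.2 v.2 ▸ hb
  unfold ph
  split_ifs with hu hv hv
  · left
    rw [al_pair hR hRL h3 ha hu.1 hv.1, al_pair hR hRL h3 hb hu.2 hv.2]
  · right
    exact product_subset_product (al_sub' ha h2) (al_sub' hb h2)
  · left
    exact product_subset_product (al_sub' ha' h2) (al_sub' hb' h2)
  · by_cases hu1 : (al L R w₀ u.1).card = 2
    · have hu2 : (al L R w₀ u.2).card ≠ 2 := fun h => hu ⟨hu1, h⟩
      rw [al_single hR hRL h2 h3 hb hu2]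
      rcases al_nested hR hRL h1 (by omega) ha with h | h
      · exact Or.inl (product_subset_product h subset_rfl)
      · exact Or.inr (product_subset_product h subset_rfl)
    · rw [al_single hR hRL h2 h3 ha hu1]
      rcases al_nested hR hRL h1 (by omega) hb with h | h
      · exact Or.inl (product_subset_product subset_rfl h)
      · exact Or.inr (product_subset_product subset_rfl h)

theorem cell_far {R w₀ w₁ w : ℕ} (hR : 0 < R) (hRL : R ≤ L) (h1 : w ≤ w₁) (h2 : w₁ + w ≤ w₀)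
    (h3 : 2 * (w₀ + w) + 1 ≤ R) (c c' : CI L R) (u v : Site L)
    (hu : u ∈ cellS R w₀ w₁ c \ cellS R w₀ w₁ c') (hv : v ∈ cellS R w₀ w₁ c' \ cellS R w₀ w₁ c) :
    w < sdist u v := by
  by_contra hcon
  push Not at hcon
  simp only [cellS, mem_sdiff, mem_filter, mem_univ, true_and] at hu hv
  rcases ph_nested hR hRL h1 h2 h3 u v hcon with h | h
  · exact hv.2 (h hu.1)
  · exact hu.2 (h hv.1)

private lemma ph_sub {R w₀ w₁ : ℕ} (h : w₁ ≤ w₀) (u : Site L) :
    ph L R w₀ w₁ u ⊆ al L R w₀ u.1 ×ˢ al L R w₀ u.2 := by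
  unfold ph
  split_ifs
  · exact subset_rfl
  · exact product_subset_product (al_mono h _) (al_mono h _)

theorem cell_cover {R w₀ w₁ : ℕ} (hR : 0 < R) (hRL : R ≤ L) (u : Site L) :
    ∃ c : CI L R, u ∈ cellS R w₀ w₁ c := by
  have key : ∀ w : ℕ, ∃ c : CI L R, ((c.1 : ℕ), (c.2 : ℕ)) ∈ al L R w u.1 ×ˢ al L R w u.2 := by
    intro w
    obtain ⟨i, hi⟩ := al_nonempty (R := R) (w := w) u.1
    obtain ⟨j, hj⟩ := al_nonempty (R := R) (w := w) u.2
    exact ⟨(⟨i, al_lt hR hRL u.1 hi⟩, ⟨j, al_lt hR hRL u.2 hj⟩), mem_product.2 ⟨hi, hj⟩⟩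
  by_cases h : (al L R w₀ u.1).card = 2 ∧ (al L R w₀ u.2).card = 2
  · obtain ⟨c, hc⟩ := key w₀
    refine ⟨c, ?_⟩
    simp only [cellS, mem_filter, mem_univ, true_and]
    unfold ph
    rwa [if_pos h]
  · obtain ⟨c, hc⟩ := key w₁
    refine ⟨c, ?_⟩
    simp only [cellS, mem_filter, mem_univ, true_and]
    unfold ph
    rwa [if_neg h]

private lemma cdist_add (x : ZMod L) (p : ℕ) : cdist (x + (p : ZMod L)) x ≤ p := by
  unfold cdist
  rw [add_sub_cancel_left, ZMod.valMinAbs_natAbs_eq_min]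
  refine (min_le_left _ _).trans ?_
  rw [ZMod.val_natCast]
  exact Nat.mod_le _ _

theorem cell_hull {r R w₀ w₁ : ℕ} (h : w₁ ≤ w₀) (c : CI L R) (u : Site L)
    (hu : u ∈ cellS R w₀ w₁ c) (p : Box r) : boxPos L r u p ∈ hull R (w₀ + r) c := by
  simp only [cellS, mem_filter, mem_univ, true_and] at hu
  obtain ⟨h1, h2⟩ := mem_product.1 (ph_sub h u hu)
  simp only [hull, mem_filter, mem_univ, true_and]
  refine ⟨al_sub' ((cdist_add u.1 (p.1 : ℕ)).trans p.1.2.le) le_rfl h1,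
    al_sub' ((cdist_add u.2 (p.2 : ℕ)).trans p.2.2.le) le_rfl h2⟩

theorem hull_disj {R W : ℕ} (hR : 0 < R) (hRL : R ≤ L) (hW : 2 * W + 1 ≤ R) (c c' : CI L R)
    (hc : ccol c = ccol c') (hne : c ≠ c') : Disjoint (hull R W c) (hull R W c') := by
  rw [disjoint_left]
  intro u hu hu'
  simp only [hull, mem_filter, mem_univ, true_and] at hu hu'
  unfold ccol at hc
  rw [Prod.mk.injEq] at hc
  apply hne
  refine Prod.ext ?_ ?_
  · by_contra hcon
    exact icol_ne hR hRL hW u.1 hu.1 hu'.1 hcon hc.1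
  · by_contra hcon
    exact icol_ne hR hRL hW u.2 hu.2 hu'.2 hcon hc.2

theorem ph_card {R w₀ w₁ : ℕ} (hR : 0 < R) (hRL : R ≤ L) (h : w₁ ≤ w₀) (h0 : 2 * w₀ + 1 ≤ R)
    (u : Site L) : (ph L R w₀ w₁ u).card ≤ 4 := by
  refine (card_le_card (ph_sub h u)).trans ?_
  rw [card_product]
  exact Nat.mul_le_mul (al_card hR hRL h0 u.1) (al_card hR hRL h0 u.2)

end Geometry

end Pool.Agent.FFG
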