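import Pool.Agent.FFG.Defs
import Pool.Agent.FFG.Pos
import Pool.Agent.PepsY.Conn

/-!
# Rectangles about the cells
-/

open Finset
open scoped InnerProductSpace

set_option autoImplicit false
set_option linter.unusedSectionVars false

namespace Pool.Agent.FFG

open Pool.Agent.PEPS953 Pool.Agent.PepsX Pool.Agent.PepsY

section Geometry

variable {L : ℕ} [NeZero L]

/-- The length of the `i`-th interval. -/
private def len3 (L R i : ℕ) : ℕ := if i + 1 = L / R then L - i * R else R

private lemma len3_facts {R : ℕ} (hR : 0 < R) (hRL : R ≤ L) {i : ℕ} (hi : i < L / R) :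
    i * R + len3 L R i ≤ L ∧ 0 < len3 L R i ∧ len3 L R i ≤ 2 * R := by
  have h1 : L / R * R ≤ L := Nat.div_mul_le_self L R
  have h2 : L < L / R * R + R := Nat.lt_div_mul_add hR
  have h3 : (i + 1) * R ≤ L / R * R := Nat.mul_le_mul_right R hi
  have h4 : (i + 1) * R = i * R + R := by ring
  unfold len3
  split_ifs with h
  · rw [← h] at h2 h1
    rw [h4] at h2 h1
    omega
  · omega

private lemma cidx_iff3 {R : ℕ} (hR : 0 < R) (hRL : R ≤ L) {i : ℕ} (hi : i < L / R) (y : ZMod L) :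
    cidx L R y = i ↔ i * R ≤ y.val ∧ y.val < i * R + len3 L R i := by
  have hy : y.val < L := ZMod.val_lt y
  have h1 : L / R * R ≤ L := Nat.div_mul_le_self L R
  have hq : y.val / R * R ≤ y.val := Nat.div_mul_le_self _ _
  have hq2 : y.val < y.val / R * R + R := Nat.lt_div_mul_add hR
  unfold cidx len3
  constructor
  · intro h
    split_ifs with h5
    · have h6 : i ≤ y.val / R := by omega
      have h7 : i * R ≤ y.val / R * R := Nat.mul_le_mul_right R h6
      have h3 : (i + 1) * R ≤ L / R * R := Nat.mul_le_mul_right R hi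
      have h4 : (i + 1) * R = i * R + R := by ring
      omega
    · have h6 : y.val / R = i := by omega
      rw [h6] at hq hq2
      omega
  · rintro ⟨h, h'⟩
    have h6 : i ≤ y.val / R := (Nat.le_div_iff_mul_le hR).2 h
    split_ifs at h' with h5
    · omega
    · have h7 : y.val / R < i + 1 := by
        rw [Nat.div_lt_iff_lt_mul hR]
        have h4 : (i + 1) * R = i * R + R := by ring
        omega
      omega

private lemma mem_al3 {R W : ℕ} (i : ℕ) (x : ZMod L) :
    i ∈ al L R W x ↔ ∃ t : ℕ, t < 2 * W + 1 ∧ cidx L R (x - (W : ZMod L) + (t : ZMod L)) = i := by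
  unfold al
  simp only [mem_image, mem_range]

/-- The window set of the interval `i` is a circular interval. -/
private lemma win3 {R W : ℕ} (hR : 0 < R) (hRL : R ≤ L) (hW : 2 * W + 1 ≤ R) {i : ℕ}
    (hi : i < L / R) (x : ZMod L) : i ∈ al L R W x ↔
      ∃ s : ℕ, s < len3 L R i + 2 * W ∧ x = ((i * R + (L - W) + s : ℕ) : ZMod L) := by
  obtain ⟨hf1, hf2, hf3⟩ := len3_facts hR hRL hi
  have hWL : W ≤ L := by omega
  rw [mem_al3]
  constructor
  · rintro ⟨t, ht, h⟩
    set y : ZMod L := x - (W : ZMod L) + (t : ZMod L) with hy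
    rw [cidx_iff3 hR hRL hi] at h
    refine ⟨y.val - i * R + (2 * W - t), by omega, ?_⟩
    have hx : x = y + (W : ZMod L) - (t : ZMod L) := by rw [hy]; ring
    have he : i * R + (L - W) + (y.val - i * R + (2 * W - t)) + t = y.val + W + L := by omega
    have hc := congrArg (Nat.cast : ℕ → ZMod L) he
    push_cast at hc
    rw [hx]
    have hyv : ((y.val : ℕ) : ZMod L) = y := ZMod.natCast_zmod_val y
    rw [hyv] at hc
    have hL0 : ((L : ℕ) : ZMod L) = 0 := ZMod.natCast_self L
    rw [hL0] at hc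
    have : ((i * R + (L - W) + (y.val - i * R + (2 * W - t)) : ℕ) : ZMod L) + (t : ZMod L) =
        y + (W : ZMod L) := by
      push_cast
      rw [hc]
      ring
    rw [← this]
    ring
  · rintro ⟨s, hs, rfl⟩
    rcases Nat.lt_or_ge s (len3 L R i) with h | h
    · refine ⟨2 * W, by omega, ?_⟩
      have he : (((i * R + (L - W) + s : ℕ) : ZMod L) - (W : ZMod L) + ((2 * W : ℕ) : ZMod L)) =
          ((i * R + s : ℕ) : ZMod L) := by
        have : i * R + (L - W) + s + 2 * W = i * R + s + W + L := by omega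
        have hc := congrArg (Nat.cast : ℕ → ZMod L) this
        rw [Nat.cast_add (m := i * R + (L - W) + s)] at hc
        rw [Nat.cast_add (m := i * R + s + W), ZMod.natCast_self, Nat.cast_add (m := i * R + s)]
          at hc
        rw [add_zero] at hc
        have h3 : ((i * R + (L - W) + s : ℕ) : ZMod L) - (W : ZMod L) + ((2 * W : ℕ) : ZMod L) =
          (((i * R + (L - W) + s : ℕ) : ZMod L) + ((2 * W : ℕ) : ZMod L)) - (W : ZMod L) := by ring
        rw [h3, hc]
        ring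
      rw [he, cidx_iff3 hR hRL hi, ZMod.val_natCast, Nat.mod_eq_of_lt (by omega)]
      omega
    · refine ⟨2 * W - (s - len3 L R i + 1), by omega, ?_⟩
      have he : (((i * R + (L - W) + s : ℕ) : ZMod L) - (W : ZMod L) +
          ((2 * W - (s - len3 L R i + 1) : ℕ) : ZMod L)) =
          ((i * R + (len3 L R i - 1) : ℕ) : ZMod L) := by
        have : i * R + (L - W) + s + (2 * W - (s - len3 L R i + 1)) =
            i * R + (len3 L R i - 1) + W + L := by omega
        have hc := congrArg (Nat.cast : ℕ → ZMod L) this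
        rw [Nat.cast_add (m := i * R + (L - W) + s)] at hc
        rw [Nat.cast_add (m := i * R + (len3 L R i - 1) + W), ZMod.natCast_self,
          Nat.cast_add (m := i * R + (len3 L R i - 1))] at hc
        rw [add_zero] at hc
        have h3 : ((i * R + (L - W) + s : ℕ) : ZMod L) - (W : ZMod L) +
            ((2 * W - (s - len3 L R i + 1) : ℕ) : ZMod L) =
          (((i * R + (L - W) + s : ℕ) : ZMod L) +
            ((2 * W - (s - len3 L R i + 1) : ℕ) : ZMod L)) - (W : ZMod L) := by ring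
        rw [h3, hc]
        ring
      rw [he, cidx_iff3 hR hRL hi, ZMod.val_natCast, Nat.mod_eq_of_lt (by omega)]
      omega

/-- The hull of a cell is a rectangle. -/
private lemma hull_eq3 {R W : ℕ} (hR : 0 < R) (hRL : R ≤ L) (hW : 2 * W + 1 ≤ R) (c : CI L R) :
    hull R W c = ((range (len3 L R c.1 + 2 * W)) ×ˢ (range (len3 L R c.2 + 2 * W))).image
      fun p => tile L (c.1 * R + (L - W)) (c.2 * R + (L - W)) p.1 p.2 := by
  ext u
  unfold hull
  rw [mem_filter, win3 hR hRL hW c.1.isLt, win3 hR hRL hW c.2.isLt, mem_image]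
  constructor
  · rintro ⟨_, ⟨s, hs, h1⟩, ⟨s', hs', h2⟩⟩
    exact ⟨(s, s'), mem_product.2 ⟨mem_range.2 hs, mem_range.2 hs'⟩, Prod.ext h1.symm h2.symm⟩
  · rintro ⟨⟨s, s'⟩, hs, rfl⟩
    rw [mem_product] at hs
    exact ⟨mem_univ _, ⟨s, mem_range.1 hs.1, rfl⟩, ⟨s', mem_range.1 hs.2, rfl⟩⟩

/-- Rectangles are connected. -/
private lemma conn_rect3 (X Y a b : ℕ) :
    Conn (((range a) ×ˢ (range b)).image fun p : ℕ × ℕ => tile L X Y p.1 p.2) := by
  set K : Finset (Site L) := ((range a) ×ˢ (range b)).image fun p : ℕ × ℕ => tile L X Y p.1 p.2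
    with hK
  have hrow : ∀ x y, x < a → y < b → Relation.ReflTransGen
      (fun u v => u ∈ K ∧ v ∈ K ∧ Adj u v) (tile L X Y 0 y) (tile L X Y x y) := by
    intro x y hx hy
    refine rtg_mono ?_ (conn_row X Y 0 a y _ (mem_image_of_mem _ (mem_Ico.2 ⟨le_rfl, by omega⟩)) _
      (mem_image_of_mem _ (mem_Ico.2 ⟨Nat.zero_le _, hx⟩)))
    intro t ht
    obtain ⟨k, hk, rfl⟩ := mem_image.1 ht
    refine mem_image.2 ⟨(k, y), ?_, rfl⟩
    rw [mem_product, mem_range, mem_range]
    exact ⟨(mem_Ico.1 hk).2, hy⟩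
  have hcol : ∀ y, y < b → 0 < a → Relation.ReflTransGen
      (fun u v => u ∈ K ∧ v ∈ K ∧ Adj u v) (tile L X Y 0 0) (tile L X Y 0 y) := by
    intro y hy ha
    refine rtg_mono ?_ (conn_col X Y 0 b 0 _ (mem_image_of_mem _ (mem_Ico.2 ⟨le_rfl, by omega⟩)) _
      (mem_image_of_mem _ (mem_Ico.2 ⟨Nat.zero_le _, hy⟩)))
    intro t ht
    obtain ⟨k, hk, rfl⟩ := mem_image.1 ht
    refine mem_image.2 ⟨(0, k), ?_, rfl⟩
    rw [mem_product, mem_range, mem_range]
    exact ⟨ha, (mem_Ico.1 hk).2⟩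
  have key : ∀ v ∈ K, Relation.ReflTransGen
      (fun u v => u ∈ K ∧ v ∈ K ∧ Adj u v) (tile L X Y 0 0) v := by
    intro v hv
    rw [hK] at hv
    rcases mem_image.1 hv with ⟨⟨x, y⟩, hp, rfl⟩
    rw [mem_product, mem_range, mem_range] at hp
    exact (hcol y hp.2 (by omega)).trans (hrow x y hp.1 hp.2)
  intro v hv w hw
  exact (rtg_symm (key v hv)).trans (key w hw)

/-- Consecutive intervals in a window. -/
private lemma succ3 {R : ℕ} (hR : 0 < R) (hRL : R ≤ L) (y : ZMod L) {δ : ℕ} (hδ : δ < R) :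
    cidx L R (y + (δ : ZMod L)) = cidx L R y ∨
      cidx L R (y + (δ : ZMod L)) = (cidx L R y + 1) % (L / R) := by
  have hk : 1 ≤ L / R := (Nat.one_le_div_iff hR).2 hRL
  have hy : y.val < L := ZMod.val_lt y
  have h1 : L / R * R ≤ L := Nat.div_mul_le_self L R
  have hq : y.val / R * R ≤ y.val := Nat.div_mul_le_self _ _
  have hq2 : y.val < y.val / R * R + R := Nat.lt_div_mul_add hR
  have hv : (y + (δ : ZMod L)).val = (y.val + δ) % L := by
    rw [ZMod.val_add, ZMod.val_natCast]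
    simp
  rcases Nat.lt_or_ge (y.val + δ) L with h | h
  · rw [Nat.mod_eq_of_lt h] at hv
    have h2 : y.val / R ≤ (y.val + δ) / R := Nat.div_le_div_right (by omega)
    have h3 : (y.val + δ) / R < y.val / R + 2 := by
      rw [Nat.div_lt_iff_lt_mul hR]
      have : (y.val / R + 2) * R = y.val / R * R + R + R := by ring
      omega
    unfold cidx
    rw [hv]
    rcases Nat.lt_or_ge (min (y.val / R) (L / R - 1) + 1) (L / R) with h4 | h4
    · rw [Nat.mod_eq_of_lt h4]
      omega
    · left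
      omega
  · have hlt : y.val + δ - L < L := by omega
    have hv' : (y + (δ : ZMod L)).val = y.val + δ - L := by
      rw [hv, Nat.mod_eq_sub_mod h, Nat.mod_eq_of_lt hlt]
    have h2 : (y.val + δ - L) / R = 0 := Nat.div_eq_of_lt (by omega)
    have h3 : L / R - 1 ≤ y.val / R := by
      rw [Nat.le_div_iff_mul_le hR]
      have h5 : (L / R - 1) * R + R = L / R * R := by
        obtain ⟨m, hm⟩ : ∃ m, L / R = m + 1 := ⟨L / R - 1, by omega⟩
        rw [hm]
        simp only [Nat.add_sub_cancel]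
        ring
      omega
    right
    unfold cidx
    rw [hv', h2, min_eq_right h3, Nat.sub_add_cancel hk, Nat.mod_self]
    simp

/-- The neighbours of an interval. -/
private def nbr3 (k i : ℕ) : Finset ℕ := {i, (i + 1) % k, (i + k - 1) % k}

private lemma nbr3_card (k i : ℕ) : (nbr3 k i).card ≤ 3 := Finset.card_le_three

private lemma mem_nbr3 {R W : ℕ} (hR : 0 < R) (hRL : R ≤ L) (hW : 2 * W + 1 ≤ R) (x : ZMod L)
    {i j : ℕ} (hi : i ∈ al L R W x) (hj : j ∈ al L R W x) : j ∈ nbr3 (L / R) i := by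
  have hk : 1 ≤ L / R := (Nat.one_le_div_iff hR).2 hRL
  have hlt : ∀ z : ZMod L, cidx L R z < L / R := fun z => by unfold cidx; omega
  rw [mem_al3] at hi hj
  obtain ⟨t, ht, h1⟩ := hi
  obtain ⟨t', ht', h2⟩ := hj
  have hiL : i < L / R := h1 ▸ hlt _
  have hjL : j < L / R := h2 ▸ hlt _
  unfold nbr3
  simp only [mem_insert, mem_singleton]
  rcases le_total t t' with h | h
  · have hs := succ3 hR hRL (x - (W : ZMod L) + (t : ZMod L)) (δ := t' - t) (by omega)
    have he : x - (W : ZMod L) + (t : ZMod L) + ((t' - t : ℕ) : ZMod L) =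
        x - (W : ZMod L) + (t' : ZMod L) := by
      rw [Nat.cast_sub h]
      ring
    rw [he, h1, h2] at hs
    tauto
  · have hs := succ3 hR hRL (x - (W : ZMod L) + (t' : ZMod L)) (δ := t - t') (by omega)
    have he : x - (W : ZMod L) + (t' : ZMod L) + ((t - t' : ℕ) : ZMod L) =
        x - (W : ZMod L) + (t : ZMod L) := by
      rw [Nat.cast_sub h]
      ring
    rw [he, h1, h2] at hs
    rcases hs with hs | hs
    · left
      exact hs.symm
    · right
      right
      rcases Nat.lt_or_ge (j + 1) (L / R) with h4 | h4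
      · rw [Nat.mod_eq_of_lt h4] at hs
        have : i + L / R - 1 = j + L / R := by omega
        rw [this, Nat.add_mod_right, Nat.mod_eq_of_lt hjL]
      · have h5 : j + 1 = L / R := by omega
        rw [h5, Nat.mod_self] at hs
        rw [hs, zero_add, Nat.mod_eq_of_lt (by omega)]
        omega

theorem hull_deg {R W : ℕ} (hR : 0 < R) (hRL : R ≤ L) (hW : 2 * W + 1 ≤ R) (c : CI L R) :
    {c' : CI L R | ¬ Disjoint (hull R W c) (hull R W c')}.ncard ≤ 9 := by
  have hfin : (nbr3 (L / R) c.1 ×ˢ nbr3 (L / R) c.2).card ≤ 9 := by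
    rw [card_product]
    calc _ ≤ 3 * 3 := Nat.mul_le_mul (nbr3_card _ _) (nbr3_card _ _)
      _ = 9 := by norm_num
  refine le_trans ?_ hfin
  rw [← Set.ncard_coe_finset]
  refine Set.ncard_le_ncard_of_injOn (fun c' : CI L R => ((c'.1 : ℕ), (c'.2 : ℕ))) ?_ ?_
    (Finset.finite_toSet _)
  · intro c' hc'
    rw [Set.mem_ofPred_eq, Finset.not_disjoint_iff] at hc'
    obtain ⟨u, hu, hu'⟩ := hc'
    unfold hull at hu hu'
    rw [mem_filter] at hu hu'
    rw [Finset.mem_coe, mem_product]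
    exact ⟨mem_nbr3 hR hRL hW _ hu.2.1 hu'.2.1, mem_nbr3 hR hRL hW _ hu.2.2 hu'.2.2⟩
  · intro a _ b _ hab
    have := Prod.mk.inj hab
    exact Prod.ext (Fin.ext this.1) (Fin.ext this.2)

theorem hull_card {R W : ℕ} (hR : 0 < R) (hRL : R ≤ L) (hW : 2 * W + 1 ≤ R) (c : CI L R) :
    (hull R W c).card ≤ 9 * R ^ 2 := by
  rw [hull_eq3 hR hRL hW]
  refine le_trans card_image_le ?_
  rw [card_product, card_range, card_range]
  have h1 := (len3_facts (L := L) hR hRL c.1.isLt).2.2
  have h2 := (len3_facts (L := L) hR hRL c.2.isLt).2.2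
  calc _ ≤ (3 * R) * (3 * R) := Nat.mul_le_mul (by omega) (by omega)
    _ = 9 * R ^ 2 := by ring

theorem hull_nonempty {R W : ℕ} (hR : 0 < R) (hRL : R ≤ L) (c : CI L R) :
    (hull R W c).Nonempty := by
  have key : ∀ i : ℕ, i < L / R → i ∈ al L R W ((i * R : ℕ) : ZMod L) := by
    intro i hi
    obtain ⟨hf1, hf2, hf3⟩ := len3_facts hR hRL hi
    rw [mem_al3]
    refine ⟨W, by omega, ?_⟩
    rw [sub_add_cancel, cidx_iff3 hR hRL hi, ZMod.val_natCast, Nat.mod_eq_of_lt (by omega)]
    omega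
  refine ⟨(((c.1 * R : ℕ) : ZMod L), ((c.2 * R : ℕ) : ZMod L)), ?_⟩
  unfold hull
  rw [mem_filter]
  exact ⟨mem_univ _, key _ c.1.isLt, key _ c.2.isLt⟩

theorem hull_conn {R W : ℕ} (hR : 0 < R) (hRL : R ≤ L) (hW : 2 * W + 1 ≤ R) (c : CI L R) :
    Conn (hull R W c) := by
  rw [hull_eq3 hR hRL hW]
  exact conn_rect3 _ _ _ _

end Geometry


section Diam

variable {L : ℕ} [NeZero L]

private lemma cdist_win3 {R W : ℕ} (hR : 0 < R) (hRL : R ≤ L) (hW : 2 * W + 1 ≤ R) {i : ℕ}
    (hi : i < L / R) (x y : ZMod L) (hx : i ∈ al L R W x) (hy : i ∈ al L R W y) :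
    cdist x y ≤ 3 * R := by
  obtain ⟨hf1, hf2, hf3⟩ := len3_facts hR hRL hi
  obtain ⟨s, hs, rfl⟩ := (win3 hR hRL hW hi x).mp hx
  obtain ⟨t, ht, rfl⟩ := (win3 hR hRL hW hi y).mp hy
  refine (cdist_le_int _ _ ((s : ℤ) - (t : ℤ)) ?_).trans ?_
  · push_cast
    ring
  · omega

theorem hull_diam {R W : ℕ} (hR : 0 < R) (hRL : R ≤ L) (hW : 2 * W + 1 ≤ R) (c : CI L R)
    (u v : Site L) (hu : u ∈ hull R W c) (hv : v ∈ hull R W c) : sdist u v ≤ 3 * R := by
  unfold hull at hu hv
  rw [mem_filter] at hu hv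
  exact max_le (cdist_win3 hR hRL hW c.1.isLt _ _ hu.2.1 hv.2.1)
    (cdist_win3 hR hRL hW c.2.isLt _ _ hu.2.2 hv.2.2)

end Diam

end Pool.Agent.FFG
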