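import Pool.Agent.FFG.Defs
import Pool.Agent.Peps99.Count

/-!
# Counting by measurement
-/

set_option autoImplicit false
set_option linter.unusedSectionVars false

open Finset
open scoped InnerProductSpace

namespace Pool.Agent.FFG

open Pool.Agent.PEPS953 Pool.Agent.PepsX Pool.Agent.PepsY

section Abstract

variable {E : Type} [NormedAddCommGroup E] [InnerProductSpace ℂ E] [CompleteSpace E]

/-- F3: counting by measurement. -/
theorem count_bound [FiniteDimensional ℂ E] {ι : Type} [Fintype ι] [DecidableEq ι]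
    (Q : ι → E →L[ℂ] E) (hQ : ∀ i, IsStarProjection (Q i)) (ε β E₀ : ℝ) (hβ : 0 < β)
    (hε : ∀ i j, ‖Q i * Q j - Q j * Q i‖ ≤ ε)
    (K : Finset ι → Submodule ℂ E)
    (hK : ∀ S, ∀ x ∈ (K S)ᗮ, β * ‖x‖ ^ 2 ≤ ∑ i ∈ Sᶜ, ‖Q i x‖ ^ 2) (m : ℕ)
    (V : Submodule ℂ E) (hV : ∀ v ∈ V, ∑ i, ‖Q i v‖ ^ 2 ≤ E₀ * ‖v‖ ^ 2)
    (hm : (E₀ + 2 * (Fintype.card ι : ℝ) ^ 2 * ε) / (m + 1) +
      2 * (Fintype.card ι : ℝ) ^ 2 * ε / β < 1) :
    Module.finrank ℂ V ≤ ∑ S ∈ univ.filter (fun S : Finset ι => S.card ≤ m),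
      Module.finrank ℂ (K S) := by
  rcases isEmpty_or_nonempty ι with h | ⟨⟨i₀⟩⟩
  · refine Pool.Agent.Peps99.finrank_le Q hQ (eps := 0) le_rfl (fun i => h.elim i) m K hβ
      (fun S _ => hK S) V hV ?_
    have hc : Fintype.card ι = 0 := Fintype.card_eq_zero
    rw [hc] at hm ⊢
    simpa using hm
  · have h0 : 0 ≤ ε := (norm_nonneg _).trans (hε i₀ i₀)
    exact Pool.Agent.Peps99.finrank_le Q hQ h0 hε m K hβ (fun S _ => hK S) V hV hm

end Abstract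

end Pool.Agent.FFG
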