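import Pool.Agent.FFG.Defs

open Finset

set_option autoImplicit false
set_option linter.unusedSectionVars false

namespace Pool.Agent.FFG

/-- The parameters are admissible. -/
structure Adm (L r R w₀ w₁ q : ℕ) (γ' γ'' ε : ℝ) : Prop where
  hr : 0 < r
  hrL : r ≤ L
  hR : 0 < R
  hRL : R ≤ L
  h1 : (q * (4 * r ^ 2) + 1) * r ≤ w₁
  h2 : w₁ + (q * (4 * r ^ 2) + 1) * r ≤ w₀
  h3 : 2 * (w₀ + (q * (4 * r ^ 2) + 1) * r) + 1 ≤ R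
  hW : 2 * (w₀ + r) + 1 ≤ R
  hε0 : 0 ≤ ε
  hε : 4 * ((1 + γ' / ((4 * r ^ 2 : ℕ) : ℝ) ^ 2)⁻¹) ^ q ≤ ε ^ 2
  hs1 : 2 * ((L : ℝ) ^ 2) ^ 2 * ε ≤ 1 / 16
  hs2 : 2 * ((L : ℝ) ^ 2) ^ 2 * ε / (γ'' / (9 * R ^ 2)) ≤ 1 / 16

lemma exp_half_le {x : ℝ} (h0 : 0 ≤ x) (h1 : x ≤ 1) : Real.exp (x / 2) ≤ 1 + x := by
  have h2 : Real.exp (x / 2) ≤ 1 + x / 2 + (x / 2) ^ 2 := by
    have := Real.abs_exp_sub_one_sub_id_le (x := x / 2) (by rw [abs_of_nonneg (by linarith)]; linarith)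
    have h3 := (abs_le.mp this).2
    linarith
  nlinarith

/-- Polylogarithms are eventually below `L`. -/
lemma polylog_le (C : ℝ) (k : ℕ) : ∃ L₀ : ℕ, ∀ L : ℕ, L₀ ≤ L → C * (Real.log L) ^ k ≤ L := by
  have h1 : Filter.Tendsto (fun x : ℝ => (Real.log x) ^ k / x) Filter.atTop (nhds 0) :=
    (Real.isLittleO_pow_log_id_atTop (n := k)).tendsto_div_nhds_zero
  have h2 : Filter.Tendsto (fun L : ℕ => (Real.log (L : ℝ)) ^ k / (L : ℝ)) Filter.atTop (nhds 0) :=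
    h1.comp tendsto_natCast_atTop_atTop
  have h3 : 0 < 1 / (|C| + 1) := by positivity
  have h4 := (h2.eventually (gt_mem_nhds h3)).and (Filter.eventually_ge_atTop 1)
  obtain ⟨L₀, hL₀⟩ := Filter.eventually_atTop.mp h4
  refine ⟨L₀, fun L hL => ?_⟩
  obtain ⟨h5, h6⟩ := hL₀ L hL
  have h7 : (0 : ℝ) < L := by exact_mod_cast h6
  rw [div_lt_div_iff₀ h7 (by positivity)] at h5
  have h8 : 0 ≤ (Real.log (L : ℝ)) ^ k := by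
    have : 0 ≤ Real.log (L : ℝ) := Real.log_nonneg (by exact_mod_cast h6)
    positivity
  have h9 : C ≤ |C| + 1 := by linarith [le_abs_self C]
  nlinarith

theorem params (r k₀ a : ℕ) (hr : 0 < r) (C₀ c₂ Cf : ℝ) (hC₀ : 1 ≤ C₀) (hc₂ : 1 ≤ c₂)
    (hCf : 0 ≤ Cf) : ∃ (C₁ : ℝ) (L₀ : ℕ), 1 ≤ C₁ ∧ ∀ L : ℕ, L₀ ≤ L → ∃ (q w₀ w₁ R : ℕ) (ε : ℝ),
      Adm L r R w₀ w₁ q (1 / (C₀ * (Real.log L) ^ k₀) / c₂) (1 / (L : ℝ) ^ a / c₂) ε ∧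
      Cf * (L : ℝ) ^ 2 * ε ≤ Real.log 2 / 2 ∧ (R : ℝ) ≤ C₁ * (Real.log L) ^ (k₀ + 1) := by
  -- constants
  obtain ⟨B, hB⟩ : ∃ B : ℝ, B = 7 + a := ⟨_, rfl⟩
  obtain ⟨g, hg⟩ : ∃ g : ℝ, g = ((4 * r ^ 2 : ℕ) : ℝ) := ⟨_, rfl⟩
  have hr1 : (1 : ℝ) ≤ r := by exact_mod_cast hr
  have hg4 : 4 ≤ g := by
    rw [hg]; push_cast
    nlinarith
  obtain ⟨C₁, hC₁⟩ : ∃ C₁ : ℝ, C₁ = 8 * (g * (4 * g ^ 2 * c₂ * C₀ * B + 1) + 1) * r := ⟨_, rfl⟩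
  have hB7 : 7 ≤ B := by rw [hB]; linarith [Nat.cast_nonneg (α := ℝ) a]
  obtain ⟨L₁, hL₁⟩ := polylog_le C₁ (k₀ + 1)
  refine ⟨C₁, max (max L₁ r) (max 3 (⌈576 * c₂ * C₀ + 64 + 8 * Cf⌉₊)), ?_, fun L hL => ?_⟩
  · rw [hC₁]
    have h1 : 0 ≤ 4 * g ^ 2 * c₂ * C₀ * B := by positivity
    nlinarith [mul_nonneg (by linarith : (0:ℝ) ≤ g) h1]
  have hLL₁ : L₁ ≤ L := le_trans (le_trans (le_max_left _ _) (le_max_left _ _)) hL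
  have hLr : r ≤ L := le_trans (le_trans (le_max_right _ _) (le_max_left _ _)) hL
  have hL3 : 3 ≤ L := le_trans (le_trans (le_max_left _ _) (le_max_right _ _)) hL
  have hcc : 0 ≤ 576 * c₂ * C₀ := by positivity
  have hLc : 576 * c₂ * C₀ + 64 + 8 * Cf ≤ L := by
    have h1 : ⌈576 * c₂ * C₀ + 64 + 8 * Cf⌉₊ ≤ L :=
      le_trans (le_trans (le_max_right _ _) (le_max_right _ _)) hL
    exact (Nat.le_ceil _).trans (by exact_mod_cast h1)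
  obtain ⟨ℓ, hℓ⟩ : ∃ ℓ : ℝ, ℓ = Real.log L := ⟨_, rfl⟩
  have hℓ1 : 1 ≤ ℓ := by rw [hℓ]; exact Pool.Agent.PEPS953.one_le_log hL3
  have hL0 : (0 : ℝ) < L := by
    have : 0 < L := by omega
    exact_mod_cast this
  have hL1 : (1 : ℝ) ≤ L := by
    have : 1 ≤ L := by omega
    exact_mod_cast this
  have hexp : Real.exp ℓ = L := by rw [hℓ, Real.exp_log hL0]
  have hℓL : ℓ ≤ L := by rw [← hexp]; linarith [Real.add_one_le_exp ℓ]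
  rw [← hℓ]
  obtain ⟨γ', hγ'⟩ : ∃ γ' : ℝ, γ' = 1 / (C₀ * ℓ ^ k₀) / c₂ := ⟨_, rfl⟩
  rw [← hγ']
  have hγ0 : 0 < γ' := by rw [hγ']; positivity
  have hpow1 : 1 ≤ ℓ ^ k₀ := one_le_pow₀ hℓ1
  have hγ1 : γ' ≤ 1 := by
    rw [hγ', div_div, div_le_one (by positivity)]
    have h1 : 1 ≤ C₀ * ℓ ^ k₀ := by nlinarith
    nlinarith
  have hγinv : 1 / γ' = c₂ * C₀ * ℓ ^ k₀ := by
    rw [hγ']
    field_simp
  obtain ⟨x, hx⟩ : ∃ x : ℝ, x = γ' / g ^ 2 := ⟨_, rfl⟩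
  have hx0 : 0 < x := by rw [hx]; positivity
  have hx1 : x ≤ 1 := by
    rw [hx, div_le_one (by positivity)]
    nlinarith
  obtain ⟨q, hq⟩ : ∃ q : ℕ, q = ⌈4 / x * (B * ℓ)⌉₊ := ⟨_, rfl⟩
  have hq1 : 4 / x * (B * ℓ) ≤ q := by rw [hq]; exact Nat.le_ceil _
  have hq2 : (q : ℝ) < 4 / x * (B * ℓ) + 1 := by
    rw [hq]; exact Nat.ceil_lt_add_one (by positivity)
  have hxq : B * ℓ ≤ x * q / 4 := by
    have h1 : x * (4 / x * (B * ℓ)) ≤ x * q := by gcongr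
    have h2 : x * (4 / x * (B * ℓ)) = 4 * (B * ℓ) := by field_simp
    linarith
  obtain ⟨w, hw⟩ : ∃ w : ℕ, w = (q * (4 * r ^ 2) + 1) * r := ⟨_, rfl⟩
  have hwr : r ≤ w := by
    rw [hw]
    exact Nat.le_mul_of_pos_left r (by omega)
  obtain ⟨ε, hε⟩ : ∃ ε : ℝ, ε = 2 * Real.exp (-(x * q / 4)) := ⟨_, rfl⟩
  have hε0 : 0 ≤ ε := by rw [hε]; positivity
  have hεB : ε ≤ 2 * Real.exp (-(B * ℓ)) := by
    rw [hε]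
    gcongr
  have hRbd : ((8 * w : ℕ) : ℝ) ≤ C₁ * ℓ ^ (k₀ + 1) := by
    have h1 : 4 / x = 4 * g ^ 2 * (c₂ * C₀ * ℓ ^ k₀) := by
      rw [hx, ← hγinv]; field_simp
    have h2 : (q : ℝ) ≤ (4 * g ^ 2 * c₂ * C₀ * B + 1) * ℓ ^ (k₀ + 1) := by
      have h3 : 4 / x * (B * ℓ) = 4 * g ^ 2 * c₂ * C₀ * B * ℓ ^ (k₀ + 1) := by
        rw [h1, pow_succ]; ring
      have h4 : (1 : ℝ) ≤ ℓ ^ (k₀ + 1) := one_le_pow₀ hℓ1
      linarith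
    have h4 : (1 : ℝ) ≤ ℓ ^ (k₀ + 1) := one_le_pow₀ hℓ1
    have h5 : ((8 * w : ℕ) : ℝ) = 8 * (q * g + 1) * r := by
      rw [hw, hg]; push_cast; ring
    rw [h5, hC₁]
    have h6 : (q : ℝ) * g + 1 ≤ (g * (4 * g ^ 2 * c₂ * C₀ * B + 1) + 1) * ℓ ^ (k₀ + 1) := by
      have h7 : (q : ℝ) * g ≤ (4 * g ^ 2 * c₂ * C₀ * B + 1) * ℓ ^ (k₀ + 1) * g := by gcongr
      linarith
    calc 8 * (q * g + 1) * (r : ℝ) ≤
        8 * ((g * (4 * g ^ 2 * c₂ * C₀ * B + 1) + 1) * ℓ ^ (k₀ + 1)) * r := by gcongr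
      _ = _ := by ring
  have hRL : 8 * w ≤ L := by
    have h1 : ((8 * w : ℕ) : ℝ) ≤ (L : ℝ) := by
      refine hRbd.trans ?_
      rw [hℓ]
      exact hL₁ L hLL₁
    exact_mod_cast h1
  have hexpB : Real.exp (-(B * ℓ)) * (L : ℝ) ^ (7 + a) = 1 := by
    rw [← hexp, ← Real.exp_nat_mul, ← Real.exp_add]
    rw [hB]
    push_cast
    have : -((7 + (a : ℝ)) * ℓ) + (7 + (a : ℝ)) * ℓ = 0 := by ring
    rw [this, Real.exp_zero]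
  refine ⟨q, 2 * w, w, 8 * w, ε, ⟨hr, hLr, by omega, hRL, by omega, by omega, by omega, by omega,
    hε0, ?_, ?_, ?_⟩, ?_, hRbd⟩
  · rw [← hg, ← hx]
    have h1 : Real.exp (x / 2) ≤ 1 + x := exp_half_le hx0.le hx1
    have h2 : (1 + x)⁻¹ ≤ Real.exp (-(x / 2)) := by
      rw [Real.exp_neg]
      exact inv_anti₀ (Real.exp_pos _) h1
    calc 4 * ((1 + x)⁻¹) ^ q ≤ 4 * (Real.exp (-(x / 2))) ^ q := by gcongr
      _ = ε ^ 2 := by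
          rw [hε, ← Real.exp_nat_mul, mul_pow, ← Real.exp_nat_mul]
          norm_num
          ring_nf
  · have h1 : 2 * ((L : ℝ) ^ 2) ^ 2 * ε ≤ 4 * ((L : ℝ) ^ 4 * Real.exp (-(B * ℓ))) := by
      calc 2 * ((L : ℝ) ^ 2) ^ 2 * ε ≤ 2 * ((L : ℝ) ^ 2) ^ 2 * (2 * Real.exp (-(B * ℓ))) := by gcongr
        _ = _ := by ring
    have h2 : (L : ℝ) ^ 4 * Real.exp (-(B * ℓ)) * L ≤ 1 := by
      calc (L : ℝ) ^ 4 * Real.exp (-(B * ℓ)) * L = Real.exp (-(B * ℓ)) * (L : ℝ) ^ 5 := by ring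
        _ ≤ Real.exp (-(B * ℓ)) * (L : ℝ) ^ (7 + a) := by
            exact mul_le_mul_of_nonneg_left (pow_le_pow_right₀ hL1 (by omega)) (Real.exp_pos _).le
        _ = 1 := hexpB
    have h3 : (64 : ℝ) ≤ L := by linarith
    obtain ⟨y, hy⟩ : ∃ y : ℝ, y = (L : ℝ) ^ 4 * Real.exp (-(B * ℓ)) := ⟨_, rfl⟩
    rw [← hy] at h1 h2
    have h4 : 0 ≤ y := by rw [hy]; positivity
    have h5 : y * 64 ≤ y * L := by gcongr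
    linarith
  · have hLa : 0 < (L : ℝ) ^ a := by positivity
    have h1 : 2 * ((L : ℝ) ^ 2) ^ 2 * ε / (1 / (L : ℝ) ^ a / c₂ / (9 * ((8 * w : ℕ) : ℝ) ^ 2)) =
        2 * ((L : ℝ) ^ 2) ^ 2 * ε * (9 * ((8 * w : ℕ) : ℝ) ^ 2) * (c₂ * (L : ℝ) ^ a) := by
      field_simp
    have h1' : ((8 * w : ℕ) : ℝ) ≤ L := by exact_mod_cast hRL
    have h2 : 2 * ((L : ℝ) ^ 2) ^ 2 * ε * (9 * ((8 * w : ℕ) : ℝ) ^ 2) * (c₂ * (L : ℝ) ^ a) ≤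
        36 * c₂ * ((L : ℝ) ^ 6 * (L : ℝ) ^ a * Real.exp (-(B * ℓ))) := by
      calc 2 * ((L : ℝ) ^ 2) ^ 2 * ε * (9 * ((8 * w : ℕ) : ℝ) ^ 2) * (c₂ * (L : ℝ) ^ a) ≤
          2 * ((L : ℝ) ^ 2) ^ 2 * (2 * Real.exp (-(B * ℓ))) * (9 * (L : ℝ) ^ 2) *
            (c₂ * (L : ℝ) ^ a) := by gcongr
        _ = _ := by ring
    have h3 : (L : ℝ) ^ 6 * (L : ℝ) ^ a * Real.exp (-(B * ℓ)) * L = 1 := by
      calc (L : ℝ) ^ 6 * (L : ℝ) ^ a * Real.exp (-(B * ℓ)) * L =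
          Real.exp (-(B * ℓ)) * (L : ℝ) ^ (7 + a) := by rw [pow_add]; ring
        _ = 1 := hexpB
    rw [h1]
    refine h2.trans ?_
    obtain ⟨y, hy⟩ : ∃ y : ℝ, y = (L : ℝ) ^ 6 * (L : ℝ) ^ a * Real.exp (-(B * ℓ)) := ⟨_, rfl⟩
    rw [← hy] at h3 ⊢
    have hy0 : 0 ≤ y := by rw [hy]; positivity
    have hcc' : c₂ ≤ c₂ * C₀ := by nlinarith
    have h5 : 576 * c₂ * y ≤ L * y := by
      refine mul_le_mul_of_nonneg_right ?_ hy0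
      linarith
    linarith
  · have h1 : Cf * (L : ℝ) ^ 2 * ε ≤ 2 * Cf * ((L : ℝ) ^ 2 * Real.exp (-(B * ℓ))) := by
      calc Cf * (L : ℝ) ^ 2 * ε ≤ Cf * (L : ℝ) ^ 2 * (2 * Real.exp (-(B * ℓ))) := by gcongr
        _ = _ := by ring
    have h2 : (L : ℝ) ^ 2 * Real.exp (-(B * ℓ)) * L ≤ 1 := by
      calc (L : ℝ) ^ 2 * Real.exp (-(B * ℓ)) * L = Real.exp (-(B * ℓ)) * (L : ℝ) ^ 3 := by ring
        _ ≤ Real.exp (-(B * ℓ)) * (L : ℝ) ^ (7 + a) := by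
            exact mul_le_mul_of_nonneg_left (pow_le_pow_right₀ hL1 (by omega)) (Real.exp_pos _).le
        _ = 1 := hexpB
    have h3 : 8 * Cf ≤ L := by linarith
    obtain ⟨y, hy⟩ : ∃ y : ℝ, y = (L : ℝ) ^ 2 * Real.exp (-(B * ℓ)) := ⟨_, rfl⟩
    rw [← hy] at h1 h2
    have h4 : 0 ≤ y := by rw [hy]; positivity
    have h5 := Real.log_two_gt_d9
    have h6 : y * (8 * Cf) ≤ y * L := by gcongr
    linarith

end Pool.Agent.FFG
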