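import Pool.Agent.FFG.Defs

/-!
# Trace bound, pigeonhole and amplification
-/

set_option autoImplicit false
set_option linter.unusedSectionVars false
set_option linter.unusedVariables false

open Finset
open scoped InnerProductSpace

namespace Pool.Agent.FFG

open Pool.Agent.PEPS953 Pool.Agent.PepsX Pool.Agent.PepsY

section Abstract

variable {E : Type} [NormedAddCommGroup E] [InnerProductSpace ℂ E] [CompleteSpace E]

lemma pick_exp_mul_exp_neg (x : E →L[ℂ] E) :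
    NormedSpace.exp x * NormedSpace.exp (-x) = 1 := by
  let +nondep : NormedAlgebra ℚ (E →L[ℂ] E) := .restrictScalars ℚ ℂ _
  rw [← NormedSpace.exp_add_of_commute (Commute.neg_right (Commute.refl x)), add_neg_cancel,
    NormedSpace.exp_zero]

lemma exp_apply_eigen {N : E →L[ℂ] E} {u : E} {μ : ℂ} (h : N u = μ • u) :
    NormedSpace.exp N u = Complex.exp μ • u := by
  have h1 := NormedSpace.exp_series_hasSum_exp' (𝕂 := ℂ) N
  have h2 := h1.mapL (ContinuousLinearMap.apply ℂ E u)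
  have h3 : ∀ n, (N ^ n) u = μ ^ n • u := by
    intro n
    induction n with
    | zero => simp
    | succ n ih => rw [pow_succ', mul_apply_eq_comp, ih, map_smul, h, smul_smul, pow_succ]
  have h4 := (NormedSpace.exp_series_hasSum_exp' (𝕂 := ℂ) μ).smul_const u
  rw [Complex.exp_eq_exp_ℂ]
  refine h2.unique ?_
  convert h4 using 2 with n
  simp [h3, smul_smul]

lemma inner_apply_eigen {N : E →L[ℂ] E} (hN : IsSelfAdjoint N) {u : E} {μ : ℝ}
    (h : N u = (μ : ℂ) • u) (x : E) : ⟪u, N x⟫_ℂ = μ * ⟪u, x⟫_ℂ := by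
  have h1 : ⟪N u, x⟫_ℂ = ⟪u, N x⟫_ℂ := hN.isSymmetric u x
  rw [← h1, h, inner_smul_left]
  simp

/-- The norm of `exp (-N) x` in an eigenbasis. -/
lemma norm_exp_neg_sq [FiniteDimensional ℂ E] {N : E →L[ℂ] E} (hN : IsSelfAdjoint N) {ι : Type}
    [Fintype ι] (u : OrthonormalBasis ι ℂ E) (μ : ι → ℝ) (hu : ∀ k, N (u k) = (μ k : ℂ) • u k)
    (x : E) : ‖NormedSpace.exp (-N) x‖ ^ 2 = ∑ k, Real.exp (-2 * μ k) * ‖⟪u k, x⟫_ℂ‖ ^ 2 := by
  rw [← u.sum_sq_norm_inner_right]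
  refine sum_congr rfl fun k _ => ?_
  have h1 : star (NormedSpace.exp (-N)) = NormedSpace.exp (-N) := by
    rw [NormedSpace.star_exp, star_neg, hN.star_eq]
  have hsa : IsSelfAdjoint (NormedSpace.exp (-N)) := h1
  have h2 : NormedSpace.exp (-N) (u k) = ((Real.exp (-μ k) : ℝ) : ℂ) • u k := by
    rw [exp_apply_eigen (μ := ((-μ k : ℝ) : ℂ))]
    · push_cast
      rfl
    · simp [hu]
  rw [inner_apply_eigen hsa h2, norm_mul, Complex.norm_real, Real.norm_eq_abs, abs_of_pos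
    (Real.exp_pos _), mul_pow, ← Real.exp_nat_mul]
  congr 2
  push_cast
  ring

lemma inner_eigen_sum [FiniteDimensional ℂ E] {N : E →L[ℂ] E} (hN : IsSelfAdjoint N) {ι : Type}
    [Fintype ι] (u : OrthonormalBasis ι ℂ E) (μ : ι → ℝ) (hu : ∀ k, N (u k) = (μ k : ℂ) • u k)
    (x : E) : (⟪x, N x⟫_ℂ).re = ∑ k, μ k * ‖⟪u k, x⟫_ℂ‖ ^ 2 := by
  rw [← u.sum_inner_mul_inner x (N x), Complex.re_sum]
  refine sum_congr rfl fun k _ => ?_
  rw [inner_apply_eigen hN (hu k)]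
  have h1 : ⟪x, u k⟫_ℂ * (μ k * ⟪u k, x⟫_ℂ) = ((μ k * ‖⟪u k, x⟫_ℂ‖ ^ 2 : ℝ) : ℂ) := by
    have h2 : ⟪x, u k⟫_ℂ * ⟪u k, x⟫_ℂ = ((‖⟪u k, x⟫_ℂ‖ ^ 2 : ℝ) : ℂ) := by
      rw [← inner_conj_symm x (u k), Complex.ofReal_pow]
      exact Complex.conj_mul' _
    push_cast at h2 ⊢
    linear_combination (μ k : ℂ) * h2
  rw [h1, Complex.ofReal_re]

/-- The adjoint of `T` is dominated by `exp (-N)`. -/
lemma norm_star_apply_sq {N T : E →L[ℂ] E} (hN : IsSelfAdjoint N)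
    (hT : ‖NormedSpace.exp N * T‖ ^ 2 ≤ 2) (x : E) :
    ‖star T x‖ ^ 2 ≤ 2 * ‖NormedSpace.exp (-N) x‖ ^ 2 := by
  have h1 : star (NormedSpace.exp N) = NormedSpace.exp N := by
    rw [NormedSpace.star_exp, hN.star_eq]
  have h2 : star T = star (NormedSpace.exp N * T) * NormedSpace.exp (-N) := by
    rw [star_mul, h1, mul_assoc, pick_exp_mul_exp_neg, mul_one]
  have h3 : ‖star (NormedSpace.exp N * T)‖ = ‖NormedSpace.exp N * T‖ := norm_star _
  have h4 : ‖star T x‖ ≤ ‖NormedSpace.exp N * T‖ * ‖NormedSpace.exp (-N) x‖ := by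
    rw [h2, mul_apply_eq_comp, ← h3]
    exact ContinuousLinearMap.le_opNorm _ _
  calc ‖star T x‖ ^ 2 ≤ (‖NormedSpace.exp N * T‖ * ‖NormedSpace.exp (-N) x‖) ^ 2 :=
        pow_le_pow_left₀ (norm_nonneg _) h4 2
    _ = ‖NormedSpace.exp N * T‖ ^ 2 * ‖NormedSpace.exp (-N) x‖ ^ 2 := by rw [mul_pow]
    _ ≤ _ := mul_le_mul_of_nonneg_right hT (sq_nonneg _)

/-- Trace bound. -/
lemma trace_bound [FiniteDimensional ℂ E] {ι σ : Type} [Fintype ι] [Fintype σ]
    (u : OrthonormalBasis ι ℂ E) (ν : ι → ℝ) (hν : ∀ k, 0 ≤ ν k) {X : E →L[ℂ] E}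
    (hXs : IsSelfAdjoint X) (hX0 : ∀ x, 0 ≤ (⟪x, X x⟫_ℂ).re)
    (hX : ∀ x, (⟪x, X x⟫_ℂ).re ≤ ∑ k, ν k * ‖⟪u k, x⟫_ℂ‖ ^ 2) (b : OrthonormalBasis σ ℂ E)
    (p : ℕ) : ∑ s, ‖(X ^ p) (b s)‖ ^ 2 ≤ ∑ k, ν k ^ (2 * p) := by
  classical
  set x := hXs.isSymmetric.eigenvectorBasis (rfl : Module.finrank ℂ E = Module.finrank ℂ E)
    with hx
  set lam := hXs.isSymmetric.eigenvalues (rfl : Module.finrank ℂ E = Module.finrank ℂ E)
    with hlam
  have hxl : ∀ j, X (x j) = (lam j : ℂ) • x j := fun j =>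
    hXs.isSymmetric.apply_eigenvectorBasis rfl j
  have hin : ∀ j n (y : E), ⟪x j, (X ^ n) y⟫_ℂ = (lam j : ℂ) ^ n * ⟪x j, y⟫_ℂ := by
    intro j n y
    induction n with
    | zero => simp
    | succ n ih =>
      rw [pow_succ', mul_apply_eq_comp, inner_apply_eigen hXs (hxl j), ih, pow_succ]
      ring
  have hxn : ∀ j, ‖x j‖ = 1 := fun j => x.orthonormal.1 j
  have hlv : ∀ j, (⟪x j, X (x j)⟫_ℂ).re = lam j := by
    intro j
    rw [inner_apply_eigen hXs (hxl j), inner_self_eq_norm_sq_to_K, hxn]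
    simp
  have hl0 : ∀ j, 0 ≤ lam j := fun j => by
    rw [← hlv]
    exact hX0 _
  have h1 : ∑ s, ‖(X ^ p) (b s)‖ ^ 2 = ∑ j, lam j ^ (2 * p) := by
    have h2 : ∀ s, ‖(X ^ p) (b s)‖ ^ 2 = ∑ j, lam j ^ (2 * p) * ‖⟪x j, b s⟫_ℂ‖ ^ 2 := by
      intro s
      rw [← x.sum_sq_norm_inner_right]
      refine sum_congr rfl fun j _ => ?_
      rw [hin, norm_mul, norm_pow, Complex.norm_real, Real.norm_eq_abs, abs_of_nonneg (hl0 j),
        mul_pow, ← pow_mul, mul_comm p 2]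
    rw [sum_congr rfl fun s _ => h2 s, sum_comm]
    refine sum_congr rfl fun j _ => ?_
    rw [← mul_sum, b.sum_sq_norm_inner_left, hxn]
    simp
  rw [h1]
  have hw : ∀ j, ∑ k, ‖⟪u k, x j⟫_ℂ‖ ^ 2 = 1 := by
    intro j
    rw [u.sum_sq_norm_inner_right, hxn]
    simp
  have h3 : ∀ j, lam j ^ (2 * p) ≤ ∑ k, ‖⟪u k, x j⟫_ℂ‖ ^ 2 * ν k ^ (2 * p) := by
    intro j
    have h4 : lam j ≤ ∑ k, ‖⟪u k, x j⟫_ℂ‖ ^ 2 * ν k := by
      rw [← hlv j]
      refine (hX (x j)).trans (le_of_eq ?_)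
      exact sum_congr rfl fun k _ => mul_comm _ _
    refine (pow_le_pow_left₀ (hl0 j) h4 _).trans ?_
    exact Real.pow_arith_mean_le_arith_mean_pow univ _ _ (fun k _ => sq_nonneg _) (hw j)
      (fun k _ => hν k) _
  refine (sum_le_sum fun j _ => h3 j).trans (le_of_eq ?_)
  rw [sum_comm]
  refine sum_congr rfl fun k _ => ?_
  rw [← sum_mul, x.sum_sq_norm_inner_left, u.orthonormal.1 k]
  simp

/-- Summation over the energy levels. -/
lemma count_sum {ι : Type} [Fintype ι] (μ : ι → ℝ) (hμ : ∀ k, 0 ≤ μ k) (κ : ℝ) (hκ : 1 ≤ κ)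
    (hc : ∀ E₀ : ℝ, 0 ≤ E₀ → ((univ.filter fun k => μ k ≤ E₀).card : ℝ) ≤
      Real.exp (κ * (2 * E₀ + 2))) (p : ℕ) (hp : κ + 1 ≤ p) :
    ∑ k, Real.exp (-4 * p * μ k) ≤ 2 * Real.exp (3 * κ) := by
  classical
  set lev : ι → ℕ := fun k => ⌊2 * μ k⌋₊ with hlev
  have h1 : ∀ k, Real.exp (-4 * p * μ k) ≤ Real.exp (-2 * p * lev k) := by
    intro k
    refine Real.exp_le_exp.2 ?_
    have h2 : (lev k : ℝ) ≤ 2 * μ k := Nat.floor_le (by have := hμ k; linarith)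
    have hp0 : (0 : ℝ) ≤ p := Nat.cast_nonneg p
    nlinarith
  obtain ⟨M, hM⟩ : ∃ M : ℕ, ∀ k, lev k < M :=
    ⟨univ.sup lev + 1, fun k => Nat.lt_succ_of_le (le_sup (f := lev) (mem_univ k))⟩
  have h2 : ∑ k, Real.exp (-2 * p * lev k) =
      ∑ j ∈ range M, ((univ.filter fun k => lev k = j).card : ℝ) * Real.exp (-2 * p * j) := by
    rw [← sum_fiberwise_of_maps_to (s := univ) (t := range M) (g := lev)
      (fun k _ => mem_range.2 (hM k))]
    refine sum_congr rfl fun j _ => ?_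
    rw [← nsmul_eq_mul, ← sum_const]
    refine sum_congr rfl fun k hk => ?_
    rw [(mem_filter.1 hk).2]
  have h3 : ∀ j : ℕ, ((univ.filter fun k => lev k = j).card : ℝ) ≤ Real.exp (κ * (j + 3)) := by
    intro j
    have h4 := hc ((j + 1) / 2) (by positivity)
    have h5 : κ * (2 * (((j : ℝ) + 1) / 2) + 2) = κ * (j + 3) := by ring
    rw [h5] at h4
    refine le_trans ?_ h4
    norm_cast
    refine card_le_card fun k hk => ?_
    simp only [mem_filter, mem_univ, true_and] at hk ⊢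
    have h6 : 2 * μ k < lev k + 1 := Nat.lt_floor_add_one _
    rw [hk] at h6
    push_cast
    linarith
  have h4 : ∀ j : ℕ, ((univ.filter fun k => lev k = j).card : ℝ) * Real.exp (-2 * p * j) ≤
      Real.exp (3 * κ) * (1 / 2) ^ j := by
    intro j
    have hj0 : (0 : ℝ) ≤ j := Nat.cast_nonneg j
    calc ((univ.filter fun k => lev k = j).card : ℝ) * Real.exp (-2 * p * j)
        ≤ Real.exp (κ * (j + 3)) * Real.exp (-2 * p * j) :=
          mul_le_mul_of_nonneg_right (h3 j) (Real.exp_pos _).le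
      _ = Real.exp (κ * (j + 3) + -2 * p * j) := (Real.exp_add _ _).symm
      _ ≤ Real.exp (3 * κ + -(j : ℝ)) := by
          refine Real.exp_le_exp.2 ?_
          nlinarith
      _ = Real.exp (3 * κ) * Real.exp (-1) ^ j := by
          rw [Real.exp_add, ← Real.exp_nat_mul]
          congr 2
          ring
      _ ≤ _ := by
          refine mul_le_mul_of_nonneg_left (pow_le_pow_left₀ (Real.exp_pos _).le ?_ _)
            (Real.exp_pos _).le
          rw [Real.exp_neg, one_div]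
          refine inv_anti₀ (by norm_num) ?_
          have := Real.add_one_le_exp (1 : ℝ)
          linarith
  calc ∑ k, Real.exp (-4 * p * μ k) ≤ ∑ k, Real.exp (-2 * p * lev k) := sum_le_sum fun k _ => h1 k
    _ = _ := h2
    _ ≤ ∑ j ∈ range M, Real.exp (3 * κ) * (1 / 2) ^ j := sum_le_sum fun j _ => h4 j
    _ = Real.exp (3 * κ) * ∑ j ∈ range M, (1 / 2 : ℝ) ^ j := by rw [mul_sum]
    _ ≤ Real.exp (3 * κ) * 2 := mul_le_mul_of_nonneg_left (by
        have := sum_geometric_two_le M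
        exact this) (Real.exp_pos _).le
    _ = _ := mul_comm _ _

/-- The span of a part of an eigenbasis. -/
lemma finrank_span_part [FiniteDimensional ℂ E] {N : E →L[ℂ] E} (hN : IsSelfAdjoint N) {ι : Type}
    [Fintype ι] (u : OrthonormalBasis ι ℂ E) (μ : ι → ℝ) (hu : ∀ k, N (u k) = (μ k : ℂ) • u k)
    (E₀ : ℝ) : ∃ V : Submodule ℂ E, Module.finrank ℂ V = (univ.filter fun k => μ k ≤ E₀).card ∧
      ∀ v ∈ V, (⟪v, N v⟫_ℂ).re ≤ E₀ * ‖v‖ ^ 2 := by
  classical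
  set S := univ.filter fun k => μ k ≤ E₀ with hS
  refine ⟨Submodule.span ℂ (Set.range fun k : S => u k), ?_, ?_⟩
  · have hli : LinearIndependent ℂ fun k : S => u k :=
      u.orthonormal.linearIndependent.comp _ Subtype.val_injective
    rw [finrank_span_eq_card hli]
    simp
  · intro v hv
    have hz : ∀ k, k ∉ S → ⟪u k, v⟫_ℂ = 0 := by
      intro k hk
      induction hv using Submodule.span_induction with
      | mem x hx =>
        obtain ⟨j, rfl⟩ := hx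
        have : k ≠ j := fun h => hk (h ▸ j.2)
        exact u.orthonormal.2 this
      | zero => simp
      | add x y _ _ h1 h2 => rw [inner_add_right, h1, h2, add_zero]
      | smul a x _ h1 => rw [inner_smul_right, h1, mul_zero]
    rw [inner_eigen_sum hN u μ hu, ← u.sum_sq_norm_inner_right v, mul_sum]
    refine sum_le_sum fun k _ => ?_
    by_cases hk : k ∈ S
    · exact mul_le_mul_of_nonneg_right (mem_filter.1 hk).2 (sq_nonneg _)
    · rw [hz k hk]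
      simp

/-- F5: trace bound, pigeonhole and amplification. -/
theorem pick_vector [FiniteDimensional ℂ E] {σ : Type} [Fintype σ]
    (b : OrthonormalBasis σ ℂ E) (N T : E →L[ℂ] E) (hN : IsSelfAdjoint N)
    (hN0 : ∀ x, 0 ≤ (⟪x, N x⟫_ℂ).re) (hT : ‖NormedSpace.exp N * T‖ ^ 2 ≤ 2) (Ψ : E)
    (hΨ : ‖Ψ‖ = 1) (hNΨ : N Ψ = 0) (hTΨ : T Ψ = Ψ) (hTΨ' : star T Ψ = Ψ) (κ : ℝ) (hκ : 1 ≤ κ)
    (hcount : ∀ (E₀ : ℝ) (V : Submodule ℂ E), 0 ≤ E₀ → (∀ v ∈ V, (⟪v, N v⟫_ℂ).re ≤ E₀ * ‖v‖ ^ 2) →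
      (Module.finrank ℂ V : ℝ) ≤ Real.exp (κ * (2 * E₀ + 2)))
    (hone : ∀ V : Submodule ℂ E, (∀ v ∈ V, (⟪v, N v⟫_ℂ).re ≤ 3 / 4 * ‖v‖ ^ 2) →
      Module.finrank ℂ V ≤ 1) (p' : ℕ) :
    ∃ (s : σ) (c : ℂ), ‖c • ((T * star T) ^ (⌈κ⌉₊ + 1 + p')) (b s) - Ψ‖ ≤
      Real.exp (8 * κ - p' / 2) := by
  classical
  set u := hN.isSymmetric.eigenvectorBasis (rfl : Module.finrank ℂ E = Module.finrank ℂ E)
    with hu0
  set μ := hN.isSymmetric.eigenvalues (rfl : Module.finrank ℂ E = Module.finrank ℂ E)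
    with hμ0
  have hu : ∀ k, N (u k) = (μ k : ℂ) • u k := fun k =>
    hN.isSymmetric.apply_eigenvectorBasis rfl k
  have hun : ∀ k, ‖u k‖ = 1 := fun k => u.orthonormal.1 k
  have hμ : ∀ k, 0 ≤ μ k := by
    intro k
    have h1 := hN0 (u k)
    rw [inner_apply_eigen hN (hu k), inner_self_eq_norm_sq_to_K, hun] at h1
    simpa using h1
  set X := T * star T with hX
  have hXs : IsSelfAdjoint X := by
    rw [hX]
    exact IsSelfAdjoint.mul_star_self T
  have hadj : ∀ x y, ⟪T x, y⟫_ℂ = ⟪x, star T y⟫_ℂ := by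
    intro x y
    rw [ContinuousLinearMap.star_eq_adjoint, ContinuousLinearMap.adjoint_inner_right]
  have hXin : ∀ x, (⟪x, X x⟫_ℂ).re = ‖star T x‖ ^ 2 := by
    intro x
    have h1 : ⟪x, X x⟫_ℂ = ⟪star T x, star T x⟫_ℂ := by
      rw [hX, mul_apply_eq_comp, ContinuousLinearMap.star_eq_adjoint,
        ContinuousLinearMap.adjoint_inner_left]
    rw [h1, inner_self_eq_norm_sq_to_K]
    norm_cast
  have hexp : ∀ x, ‖star T x‖ ^ 2 ≤ ∑ k, 2 * Real.exp (-2 * μ k) * ‖⟪u k, x⟫_ℂ‖ ^ 2 := by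
    intro x
    refine (norm_star_apply_sq hN hT x).trans (le_of_eq ?_)
    rw [norm_exp_neg_sq hN u μ hu, mul_sum]
    exact sum_congr rfl fun k _ => by ring
  have hXΨ : X Ψ = Ψ := by rw [hX, mul_apply_eq_comp, hTΨ', hTΨ]
  -- trace bound
  set p := ⌈κ⌉₊ + 1 with hp
  have hcard : ∀ E₀ : ℝ, 0 ≤ E₀ → ((univ.filter fun k => μ k ≤ E₀).card : ℝ) ≤
      Real.exp (κ * (2 * E₀ + 2)) := by
    intro E₀ hE
    obtain ⟨V, hV1, hV2⟩ := finrank_span_part hN u μ hu E₀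
    rw [← hV1]
    exact hcount E₀ V hE hV2
  have hpκ : κ + 1 ≤ p := by
    rw [hp]
    push_cast
    have := Nat.le_ceil κ
    linarith
  have hpκ2 : (p : ℝ) ≤ κ + 2 := by
    rw [hp]
    push_cast
    have := Nat.ceil_lt_add_one (by linarith : (0 : ℝ) ≤ κ)
    linarith
  have htr : ∑ s, ‖(X ^ p) (b s)‖ ^ 2 ≤ Real.exp (10 * κ) := by
    have h1 := trace_bound u (fun k => 2 * Real.exp (-2 * μ k)) (fun k => by positivity) hXs
      (fun x => by rw [hXin]; positivity) (fun x => by rw [hXin]; exact hexp x) b p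
    refine h1.trans ?_
    have h2 : ∀ k, (2 * Real.exp (-2 * μ k)) ^ (2 * p) = 4 ^ p * Real.exp (-4 * p * μ k) := by
      intro k
      rw [mul_pow, pow_mul, ← Real.exp_nat_mul]
      congr 2
      · norm_num
      · push_cast
        ring
    rw [sum_congr rfl fun k _ => h2 k, ← mul_sum]
    have h3 := count_sum μ hμ κ hκ hcard p hpκ
    have he : (2 : ℝ) ≤ Real.exp 1 := by
      have := Real.add_one_le_exp (1 : ℝ)
      linarith
    have h4 : (4 : ℝ) ^ p ≤ Real.exp (6 * κ) := by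
      calc (4 : ℝ) ^ p ≤ (Real.exp 2) ^ p := by
            refine pow_le_pow_left₀ (by norm_num) ?_ _
            have : Real.exp 2 = Real.exp 1 * Real.exp 1 := by
              rw [← Real.exp_add]
              norm_num
            rw [this]
            nlinarith
        _ = Real.exp (p * 2) := (Real.exp_nat_mul _ _).symm
        _ ≤ Real.exp (6 * κ) := Real.exp_le_exp.2 (by linarith)
    have h5 : (2 : ℝ) ≤ Real.exp κ := he.trans (Real.exp_le_exp.2 hκ)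
    calc (4 : ℝ) ^ p * ∑ k, Real.exp (-4 * p * μ k)
        ≤ Real.exp (6 * κ) * (2 * Real.exp (3 * κ)) :=
          mul_le_mul h4 h3 (sum_nonneg fun _ _ => (Real.exp_pos _).le) (Real.exp_pos _).le
      _ ≤ Real.exp (6 * κ) * (Real.exp κ * Real.exp (3 * κ)) := by
          refine mul_le_mul_of_nonneg_left ?_ (Real.exp_pos _).le
          exact mul_le_mul_of_nonneg_right h5 (Real.exp_pos _).le
      _ = Real.exp (10 * κ) := by
          rw [← Real.exp_add, ← Real.exp_add]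
          congr 1
          ring
  -- pigeonhole
  have hsumΨ : ∑ s, ‖⟪b s, Ψ⟫_ℂ‖ ^ 2 = 1 := by
    rw [b.sum_sq_norm_inner_right, hΨ]
    simp
  obtain ⟨s, hs0, hs⟩ : ∃ s, ⟪b s, Ψ⟫_ℂ ≠ 0 ∧
      ‖(X ^ p) (b s)‖ ^ 2 ≤ Real.exp (16 * κ) * ‖⟪b s, Ψ⟫_ℂ‖ ^ 2 := by
    by_contra hno
    push Not at hno
    have h1 : ∀ s, Real.exp (16 * κ) * ‖⟪b s, Ψ⟫_ℂ‖ ^ 2 ≤ ‖(X ^ p) (b s)‖ ^ 2 := by
      intro s
      by_cases h0 : ⟪b s, Ψ⟫_ℂ = 0
      · rw [h0]
        simp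
      · exact (hno s h0).le
    have h2 := sum_le_sum fun s (_ : s ∈ univ) => h1 s
    rw [← mul_sum, hsumΨ, mul_one] at h2
    have h3 : Real.exp (10 * κ) < Real.exp (16 * κ) := Real.exp_lt_exp.2 (by linarith)
    linarith
  set a := ⟪Ψ, b s⟫_ℂ with ha
  have hab : ‖a‖ = ‖⟪b s, Ψ⟫_ℂ‖ := by
    rw [ha, ← inner_conj_symm, RCLike.norm_conj]
  have ha0 : a ≠ 0 := by
    rw [← norm_ne_zero_iff, hab]
    exact norm_ne_zero_iff.2 hs0
  refine ⟨s, a⁻¹, ?_⟩
  have hpowΨ : ∀ n y, ⟪Ψ, (X ^ n) y⟫_ℂ = ⟪Ψ, y⟫_ℂ := by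
    intro n y
    induction n with
    | zero => simp
    | succ n ih =>
      rw [pow_succ', mul_apply_eq_comp]
      have : ⟪Ψ, X ((X ^ n) y)⟫_ℂ = ⟪X Ψ, (X ^ n) y⟫_ℂ := (hXs.isSymmetric Ψ _).symm
      rw [this, hXΨ, ih]
  set Φ := a⁻¹ • (X ^ p) (b s) with hΦ
  set w := Φ - Ψ with hw
  have hΨΨ : ⟪Ψ, Ψ⟫_ℂ = 1 := by
    rw [inner_self_eq_norm_sq_to_K, hΨ]
    simp
  have hw0 : ⟪Ψ, w⟫_ℂ = 0 := by
    rw [hw, inner_sub_right, hΦ, inner_smul_right, hpowΨ, ← ha, inv_mul_cancel₀ ha0, hΨΨ, sub_self]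
  have hΦn : ‖Φ‖ ^ 2 ≤ Real.exp (16 * κ) := by
    rw [hΦ, norm_smul, mul_pow, norm_inv, inv_pow]
    have : 0 < ‖a‖ ^ 2 := by positivity
    rw [inv_mul_le_iff₀ this, mul_comm]
    rw [hab]
    exact hs
  have hwn : ‖w‖ ≤ Real.exp (8 * κ) := by
    have h1 : ‖Φ‖ ^ 2 = 1 + ‖w‖ ^ 2 := by
      have h2 : Φ = Ψ + w := by rw [hw]; abel
      have h3 := norm_add_sq_eq_norm_sq_add_norm_sq_of_inner_eq_zero (𝕜 := ℂ) Ψ w hw0
      rw [← h2, hΨ] at h3
      nlinarith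
    have h4 : ‖w‖ ^ 2 ≤ Real.exp (8 * κ) ^ 2 := by
      rw [← Real.exp_nat_mul]
      have : ((2 : ℕ) : ℝ) * (8 * κ) = 16 * κ := by push_cast; ring
      rw [this]
      linarith
    exact (pow_le_pow_iff_left₀ (norm_nonneg _) (Real.exp_pos _).le (by norm_num)).1 h4
  -- amplification
  have hcontr : ∀ x, ⟪Ψ, x⟫_ℂ = 0 → ‖star T x‖ ^ 2 ≤ 2 * Real.exp (-3 / 2) * ‖x‖ ^ 2 := by
    intro x hx
    refine (hexp x).trans ?_
    rw [← u.sum_sq_norm_inner_right x, mul_sum]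
    refine sum_le_sum fun k _ => ?_
    by_cases hk : 3 / 4 < μ k
    · refine mul_le_mul_of_nonneg_right ?_ (sq_nonneg _)
      refine mul_le_mul_of_nonneg_left (Real.exp_le_exp.2 ?_) (by norm_num)
      linarith
    · push Not at hk
      have hz : ⟪u k, x⟫_ℂ = 0 := by
        -- the eigenvectors with small eigenvalue are proportional to `Ψ`
        obtain ⟨V, hV1, hV2⟩ := finrank_span_part hN u μ hu (3 / 4)
        have h1 := hone V hV2
        rw [hV1] at h1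
        have h2 : ∀ j, j ≠ k → ⟪u j, Ψ⟫_ℂ = 0 := by
          intro j hj
          have h3 : ⟪u j, N Ψ⟫_ℂ = μ j * ⟪u j, Ψ⟫_ℂ := inner_apply_eigen hN (hu j) Ψ
          rw [hNΨ, inner_zero_right] at h3
          have h4 : μ j ≠ 0 := by
            intro h5
            refine hj (card_le_one.1 h1 j ?_ k ?_)
            · simp [h5]
              norm_num
            · simpa using hk
          rcases mul_eq_zero.1 h3.symm with h5 | h5
          · exact absurd (by exact_mod_cast h5) h4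
          · exact h5
        have h3 : Ψ = ⟪u k, Ψ⟫_ℂ • u k := by
          conv_lhs => rw [← u.sum_repr' Ψ]
          refine sum_eq_single k (fun j _ hj => ?_) (fun h => absurd (mem_univ k) h)
          rw [h2 j hj, zero_smul]
        have h4 : ⟪u k, Ψ⟫_ℂ ≠ 0 := by
          intro h5
          rw [h5, zero_smul] at h3
          rw [h3] at hΨ
          simp at hΨ
        rw [h3, inner_smul_left] at hx
        rcases mul_eq_zero.1 hx with h5 | h5
        · exact absurd ((map_eq_zero _).1 h5) h4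
        · exact h5
      rw [hz]
      simp
  have hq0 : (0 : ℝ) ≤ 2 * Real.exp (-3 / 2) := by positivity
  set q := Real.sqrt (2 * Real.exp (-3 / 2)) with hq
  have hq' : 0 ≤ q := Real.sqrt_nonneg _
  have hqq : q * q = 2 * Real.exp (-3 / 2) := Real.mul_self_sqrt hq0
  have hstar : ∀ x, ⟪Ψ, x⟫_ℂ = 0 → ⟪Ψ, star T x⟫_ℂ = 0 ∧ ‖star T x‖ ≤ q * ‖x‖ := by
    intro x hx
    refine ⟨?_, ?_⟩
    · rw [← hadj, hTΨ, hx]
    · have h1 := hcontr x hx
      have h2 : ‖star T x‖ ^ 2 ≤ (q * ‖x‖) ^ 2 := by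
        rw [mul_pow, sq q, hqq]
        exact h1
      exact (pow_le_pow_iff_left₀ (norm_nonneg _) (by positivity) (by norm_num)).1 h2
  have hTc : ∀ x, ⟪Ψ, x⟫_ℂ = 0 → ⟪Ψ, T x⟫_ℂ = 0 ∧ ‖T x‖ ≤ q * ‖x‖ := by
    intro x hx
    have h0 : ⟪Ψ, T x⟫_ℂ = 0 := by
      rw [← inner_conj_symm, hadj, hTΨ', inner_conj_symm, hx]
    refine ⟨h0, ?_⟩
    have h1 : ‖T x‖ ^ 2 ≤ ‖star T (T x)‖ * ‖x‖ := by
      have h2 : ⟪T x, T x⟫_ℂ = ⟪x, star T (T x)⟫_ℂ := hadj x (T x)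
      have h3 : ‖T x‖ ^ 2 = ‖⟪x, star T (T x)⟫_ℂ‖ := by
        rw [← h2, inner_self_eq_norm_sq_to_K]
        simp
      rw [h3, mul_comm]
      exact norm_inner_le_norm _ _
    have h4 := (hstar (T x) h0).2
    rcases eq_or_lt_of_le (norm_nonneg (T x)) with h5 | h5
    · rw [← h5]
      positivity
    · have h6 : ‖T x‖ * ‖T x‖ ≤ (q * ‖x‖) * ‖T x‖ := by
        calc ‖T x‖ * ‖T x‖ = ‖T x‖ ^ 2 := (sq _).symm
          _ ≤ ‖star T (T x)‖ * ‖x‖ := h1
          _ ≤ (q * ‖T x‖) * ‖x‖ := mul_le_mul_of_nonneg_right h4 (norm_nonneg _)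
          _ = _ := by ring
      exact le_of_mul_le_mul_right h6 h5
  have hXc : ∀ n x, ⟪Ψ, x⟫_ℂ = 0 →
      ‖(X ^ n) x‖ ≤ (2 * Real.exp (-3 / 2)) ^ n * ‖x‖ := by
    intro n x hx
    induction n with
    | zero => simp
    | succ n ih =>
      rw [pow_succ' X, mul_apply_eq_comp]
      have h1 : ⟪Ψ, (X ^ n) x⟫_ℂ = 0 := by rw [hpowΨ, hx]
      have h2 := hstar _ h1
      have h3 := hTc _ h2.1
      calc ‖X ((X ^ n) x)‖ = ‖T (star T ((X ^ n) x))‖ := rfl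
        _ ≤ q * ‖star T ((X ^ n) x)‖ := h3.2
        _ ≤ q * (q * ‖(X ^ n) x‖) := mul_le_mul_of_nonneg_left h2.2 hq'
        _ = 2 * Real.exp (-3 / 2) * ‖(X ^ n) x‖ := by rw [← mul_assoc, hqq]
        _ ≤ 2 * Real.exp (-3 / 2) * ((2 * Real.exp (-3 / 2)) ^ n * ‖x‖) :=
          mul_le_mul_of_nonneg_left ih hq0
        _ = _ := by rw [pow_succ']; ring
  have hfin : a⁻¹ • (X ^ (p + p')) (b s) - Ψ = (X ^ p') w := by
    have h1 : (X ^ p') Ψ = Ψ := by
      clear_value X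
      induction p' with
      | zero => simp
      | succ n ih => rw [pow_succ, mul_apply_eq_comp, hXΨ, ih]
    rw [hw, map_sub, h1, hΦ, map_smul, add_comm p p', pow_add, mul_apply_eq_comp]
  rw [hfin]
  refine (hXc p' w hw0).trans ?_
  have he : (2 : ℝ) ≤ Real.exp 1 := by
    have := Real.add_one_le_exp (1 : ℝ)
    linarith
  calc (2 * Real.exp (-3 / 2)) ^ p' * ‖w‖ ≤ Real.exp (-1 / 2) ^ p' * Real.exp (8 * κ) := by
        refine mul_le_mul (pow_le_pow_left₀ hq0 ?_ _) hwn (norm_nonneg _) (by positivity)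
        calc 2 * Real.exp (-3 / 2) ≤ Real.exp 1 * Real.exp (-3 / 2) :=
              mul_le_mul_of_nonneg_right he (Real.exp_pos _).le
          _ = Real.exp (-1 / 2) := by
              rw [← Real.exp_add]
              norm_num
    _ = Real.exp (8 * κ - p' / 2) := by
        rw [← Real.exp_nat_mul, ← Real.exp_add]
        congr 1
        ring

end Abstract

end Pool.Agent.FFG
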