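import Pool.Agent.FFG.Local
import Pool.Agent.FFG.Pos

/-!
# The projections of a frustration-free, locally gapped Hamiltonian
-/

open Finset
open scoped InnerProductSpace ComplexOrder

set_option autoImplicit false
set_option linter.unusedSectionVars false

namespace Pool.Agent.FFG

open Pool.Agent.PEPS953 Pool.Agent.PepsX Pool.Agent.PepsY

section ProjAux

variable {d L r : ℕ} [NeZero L]

theorem pj_translate_mul (hrL : r ≤ L) (o o' : Matrix (LConf d r) (LConf d r) ℂ) (v : Site L) :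
    PEPS953.translate L (o * o') v = PEPS953.translate L o v * PEPS953.translate L o' v := by
  classical
  ext s s'
  rw [Matrix.mul_apply]
  by_cases h : ∀ u, u ∉ Set.range (boxPos L r v) → s u = s' u
  · have h1 : PEPS953.translate L (o * o') v s s' =
        ∑ b : LConf d r, PEPS953.translate L o v s (ow v b s) * PEPS953.translate L o' v (ow v b s) s' := by
      unfold PEPS953.translate
      rw [if_pos h, Matrix.mul_apply]
      refine Finset.sum_congr rfl fun b _ => ?_
      have h2 : (fun p => ow v b s (boxPos L r v p)) = b := funext fun p => ow_pos hrL v b s p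
      rw [if_pos, if_pos, h2]
      · intro u hu
        rw [ow_neg v b s u (fun ⟨p, hp⟩ => hu ⟨p, hp⟩)]
        exact h u hu
      · intro u hu
        rw [ow_neg v b s u (fun ⟨p, hp⟩ => hu ⟨p, hp⟩)]
    rw [h1]
    have hinj : Function.Injective fun b : LConf d r => ow v b s := by
      intro b b' hb
      funext p
      have := congrFun hb (boxPos L r v p)
      simpa only [ow_pos hrL] using this
    rw [← Finset.sum_image (f := fun t => PEPS953.translate L o v s t * PEPS953.translate L o' v t s')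
      (g := fun b : LConf d r => ow v b s) (fun a _ b _ hab => hinj hab)]
    refine Finset.sum_subset (Finset.subset_univ _) fun t _ ht => ?_
    have h3 : PEPS953.translate L o v s t = 0 := by
      unfold PEPS953.translate
      rw [if_neg]
      intro h4
      apply ht
      rw [Finset.mem_image]
      refine ⟨fun p => t (boxPos L r v p), Finset.mem_univ _, ?_⟩
      funext u
      by_cases hu : ∃ p, boxPos L r v p = u
      · obtain ⟨p, rfl⟩ := hu
        rw [ow_pos hrL]
      · rw [ow_neg v _ s u hu]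
        exact h4 u (fun ⟨p, hp⟩ => hu ⟨p, hp⟩)
    rw [h3, zero_mul]
  · have h1 : PEPS953.translate L (o * o') v s s' = 0 := by
      unfold PEPS953.translate
      rw [if_neg h]
    rw [h1]
    symm
    refine Finset.sum_eq_zero fun t _ => ?_
    by_cases h2 : ∀ u, u ∉ Set.range (boxPos L r v) → s u = t u
    · have h3 : PEPS953.translate L o' v t s' = 0 := by
        unfold PEPS953.translate
        rw [if_neg]
        intro h4
        exact h fun u hu => (h2 u hu).trans (h4 u hu)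
      rw [h3, mul_zero]
    · have h3 : PEPS953.translate L o v s t = 0 := by
        unfold PEPS953.translate
        rw [if_neg h2]
      rw [h3, zero_mul]

open scoped MatrixOrder in
theorem pj_sqrt {n : Type} [Fintype n] [DecidableEq n] {h : Matrix n n ℂ} (hh : h.PosSemidef) :
    ∃ B : Matrix n n ℂ, h = B.conjTranspose * B := by
  obtain ⟨B, hB⟩ := CStarAlgebra.nonneg_iff_eq_star_mul_self.mp hh.nonneg
  exact ⟨B, hB⟩

theorem pj_square (hrL : r ≤ L) {h : Matrix (LConf d r) (LConf d r) ℂ} (hh : h.PosSemidef) :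
    ∃ B : Site L → (Hil d L →L[ℂ] Hil d L), ∀ v, locOp L h v = star (B v) * B v := by
  obtain ⟨B, hB⟩ := pj_sqrt hh
  refine ⟨fun v => locOp L B v, fun v => ?_⟩
  unfold locOp
  rw [← map_star, ← map_mul, Matrix.star_eq_conjTranspose, translate_conjTranspose,
    ← pj_translate_mul hrL, ← hB]

theorem pj_selfAdjoint (hrL : r ≤ L) {h : Matrix (LConf d r) (LConf d r) ℂ} (hh : h.PosSemidef)
    (v : Site L) : IsSelfAdjoint (locOp L h v) := by
  obtain ⟨B, hB⟩ := pj_square (L := L) hrL hh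
  rw [hB v]
  exact IsSelfAdjoint.star_mul_self _

theorem pj_inner (hrL : r ≤ L) {h : Matrix (LConf d r) (LConf d r) ℂ} (hh : h.PosSemidef)
    (v : Site L) (x : Hil d L) :
    0 ≤ (⟪x, locOp L h v x⟫_ℂ).re ∧ ((⟪x, locOp L h v x⟫_ℂ).re = 0 → locOp L h v x = 0) := by
  obtain ⟨B, hB⟩ := pj_square (L := L) hrL hh
  have h1 : ⟪x, locOp L h v x⟫_ℂ = ((‖B v x‖ ^ 2 : ℝ) : ℂ) := by
    rw [hB v, mul_apply_eq_comp, ContinuousLinearMap.star_eq_adjoint,
      ContinuousLinearMap.adjoint_inner_right, inner_self_eq_norm_sq_to_K]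
    push_cast
    rfl
  rw [h1, Complex.ofReal_re]
  refine ⟨by positivity, fun h0 => ?_⟩
  have h2 : B v x = 0 := by
    rw [← norm_eq_zero]
    exact pow_eq_zero_iff (two_ne_zero) |>.mp h0
  rw [hB v, mul_apply_eq_comp, h2, map_zero]

theorem pj_hamOn_inner (h : Matrix (LConf d r) (LConf d r) ℂ) (A : Finset (Site L))
    (x : Hil d L) : (⟪x, hamOn h A x⟫_ℂ).re = ∑ v ∈ A, (⟪x, locOp L h v x⟫_ℂ).re := by
  unfold hamOn
  rw [_root_.sum_apply, inner_sum, Complex.re_sum]

theorem pj_hamOn_selfAdjoint (hrL : r ≤ L) {h : Matrix (LConf d r) (LConf d r) ℂ}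
    (hh : h.PosSemidef) (A : Finset (Site L)) : IsSelfAdjoint (hamOn (L := L) h A) := by
  unfold hamOn
  rw [ContinuousLinearMap.isSelfAdjoint_iff_isSymmetric]
  intro x y
  have e : ∀ z : Hil d L, ((∑ v ∈ A, locOp L h v : Hil d L →L[ℂ] Hil d L) :
      Hil d L →ₗ[ℂ] Hil d L) z = ∑ v ∈ A, locOp L h v z := by
    intro z
    rw [ContinuousLinearMap.coe_coe, _root_.sum_apply]
  rw [e, e, sum_inner, inner_sum]
  exact Finset.sum_congr rfl fun v _ => (pj_selfAdjoint hrL hh v).isSymmetric x y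

theorem pj_mem_ker (hrL : r ≤ L) {h : Matrix (LConf d r) (LConf d r) ℂ} (hh : h.PosSemidef)
    (A : Finset (Site L)) (x : Hil d L) : hamOn h A x = 0 ↔ ∀ v ∈ A, locOp L h v x = 0 := by
  constructor
  · intro h0 v hv
    have h1 := pj_hamOn_inner h A x
    rw [h0, inner_zero_right, Complex.zero_re] at h1
    have h2 := (Finset.sum_eq_zero_iff_of_nonneg fun w _ => (pj_inner hrL hh w x).1).mp h1.symm v hv
    exact (pj_inner hrL hh v x).2 h2
  · intro h0
    unfold hamOn
    rw [_root_.sum_apply]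
    exact Finset.sum_eq_zero h0

theorem pj_Qv_zero {h : Matrix (LConf d r) (LConf d r) ℂ} (v : Site L) (x : Hil d L) :
    Qv h v x = 0 ↔ locOp L h v x = 0 := by
  unfold Qv
  rw [sub_apply, one_apply_eq_self, sub_eq_zero, eq_comm,
    Submodule.starProjection_eq_self_iff, LinearMap.mem_ker]
  rfl

end ProjAux

section Projections

variable {d L r : ℕ} [NeZero L]

theorem sys_Qv (hrL : r ≤ L) {h : Matrix (LConf d r) (LConf d r) ℂ} (hh : h.PosSemidef) :
    Sys (Qv (L := L) h) (ov r) (4 * r ^ 2) where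
  proj v := isStarProjection_starProjection.one_sub
  symm v w := fun ⟨p, q, hpq⟩ => ⟨q, p, hpq.symm⟩
  comm v w hvw := by
    have hloc : ∀ u : Site L, LocalOn (univ.image (boxPos L r u)) (Qv h u) := by
      intro u
      have h1 := (localOn_ker (pj_selfAdjoint hrL hh u) (locOp_localOn hrL h u)).smul (-1 : ℂ)
      have h2 := (localOn_one (d := d) (univ.image (boxPos L r u))).add h1
      have h3 : Qv h u = 1 + (-1 : ℂ) •
          (LinearMap.ker (locOp L h u : Hil d L →ₗ[ℂ] Hil d L)).starProjection := by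
        ext1 x
        simp [Qv, sub_eq_add_neg]
      rw [h3]
      exact h2
    refine LocalOn.commute ?_ (hloc v) (hloc w)
    rw [Finset.disjoint_left]
    intro u hu hu'
    rw [Finset.mem_image] at hu hu'
    obtain ⟨p, _, hp⟩ := hu
    obtain ⟨q, _, hq⟩ := hu'
    exact hvw ⟨p, q, hp.trans hq.symm⟩
  deg v := ov_deg r v

theorem isKer_GA (hrL : r ≤ L) {h : Matrix (LConf d r) (LConf d r) ℂ} (hh : h.PosSemidef)
    (A : Finset (Site L)) : IsKer (Qv (L := L) h) A (GA h A) where
  proj := isStarProjection_starProjection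
  zero v hv := by
    ext1 x
    rw [mul_apply_eq_comp, zero_apply, pj_Qv_zero]
    have h1 : GA h A x ∈ LinearMap.ker (hamOn h A : Hil d L →ₗ[ℂ] Hil d L) :=
      Submodule.starProjection_apply_mem _ x
    rw [LinearMap.mem_ker] at h1
    exact (pj_mem_ker hrL hh A _).mp h1 v hv
  fix x hx := by
    unfold GA
    rw [Submodule.starProjection_eq_self_iff, LinearMap.mem_ker]
    exact (pj_mem_ker hrL hh A x).mpr fun v hv => (pj_Qv_zero v x).mp (hx v hv)

theorem energy_ge_of_gapAt (hrL : r ≤ L) {h : Matrix (LConf d r) (LConf d r) ℂ}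
    (hh : h.PosSemidef) {γ : ℝ} {A : Finset (Site L)} (H : GapAt h A γ)
    (x : Hil d L) : γ * ‖(1 - GA h A) x‖ ^ 2 ≤ (⟪x, hamOn h A x⟫_ℂ).re := by
  have hsym : ((hamOn (L := L) h A) : Hil d L →ₗ[ℂ] Hil d L).IsSymmetric :=
    (pj_hamOn_selfAdjoint hrL hh A).isSymmetric
  set T : Hil d L →ₗ[ℂ] Hil d L := ((hamOn (L := L) h A) : Hil d L →ₗ[ℂ] Hil d L) with hT
  set b := hsym.eigenvectorBasis rfl with hb
  have hTb : ∀ i, T (b i) = ((hsym.eigenvalues rfl i : ℝ) : ℂ) • b i :=
    fun i => hsym.apply_eigenvectorBasis rfl i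
  have hval : ∀ i, hsym.eigenvalues rfl i = 0 ∨ γ ≤ hsym.eigenvalues rfl i := by
    intro i
    refine H _ (b i) ?_ (hTb i)
    intro h0
    have := b.orthonormal.1 i
    rw [h0, norm_zero] at this
    exact zero_ne_one this
  have hG : ∀ i, (1 - GA h A) (b i) = if hsym.eigenvalues rfl i = 0 then 0 else b i := by
    intro i
    rw [sub_apply, one_apply_eq_self]
    split_ifs with h0
    · rw [sub_eq_zero, eq_comm]
      unfold GA
      rw [Submodule.starProjection_eq_self_iff, LinearMap.mem_ker, ← hT, hTb i, h0]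
      simp
    · have h1 : GA h A (b i) = 0 := by
        unfold GA
        rw [Submodule.starProjection_apply_eq_zero_iff, Submodule.mem_orthogonal]
        intro y hy
        rw [LinearMap.mem_ker, ← hT] at hy
        have h2 := hsym y (b i)
        rw [hy, inner_zero_left, hTb i, inner_smul_right] at h2
        have h3 : ((hsym.eigenvalues rfl i : ℝ) : ℂ) ≠ 0 := by exact_mod_cast h0
        exact (mul_eq_zero.mp h2.symm).resolve_left h3
      rw [h1, sub_zero]
  have hx1 : (1 - GA h A) x = ∑ i, (if hsym.eigenvalues rfl i = 0 then (0 : ℂ) else ⟪b i, x⟫_ℂ) • b i := by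
    conv_lhs => rw [← b.sum_repr' x]
    rw [map_sum]
    refine Finset.sum_congr rfl fun i _ => ?_
    rw [map_smul, hG i]
    split_ifs <;> simp
  have hx2 : T x = ∑ i, (⟪b i, x⟫_ℂ * ((hsym.eigenvalues rfl i : ℝ) : ℂ)) • b i := by
    conv_lhs => rw [← b.sum_repr' x]
    rw [map_sum]
    refine Finset.sum_congr rfl fun i _ => ?_
    rw [map_smul, hTb i, smul_smul]
  have hn : ‖(1 - GA h A) x‖ ^ 2 =
      ∑ i, (if hsym.eigenvalues rfl i = 0 then (0 : ℝ) else ‖⟪b i, x⟫_ℂ‖ ^ 2) := by
    rw [← b.sum_sq_norm_inner_right]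
    refine Finset.sum_congr rfl fun i _ => ?_
    rw [hx1, b.orthonormal.inner_right_fintype]
    split_ifs <;> simp
  have he : (⟪x, T x⟫_ℂ).re = ∑ i, hsym.eigenvalues rfl i * ‖⟪b i, x⟫_ℂ‖ ^ 2 := by
    rw [← b.sum_inner_mul_inner x (T x), Complex.re_sum]
    refine Finset.sum_congr rfl fun i _ => ?_
    rw [hx2, b.orthonormal.inner_right_fintype, ← mul_assoc, ← inner_conj_symm x (b i),
      ← Complex.normSq_eq_conj_mul_self, Complex.normSq_eq_norm_sq]
    rw [← Complex.ofReal_mul, Complex.ofReal_re]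
    ring
  have hgoal : (⟪x, hamOn h A x⟫_ℂ).re = (⟪x, T x⟫_ℂ).re := rfl
  rw [hgoal, he, hn, Finset.mul_sum]
  refine Finset.sum_le_sum fun i _ => ?_
  split_ifs with h0
  · rw [h0]; simp
  · exact mul_le_mul_of_nonneg_right ((hval i).resolve_left h0) (by positivity)

theorem energy_ge_of_locGap (hrL : r ≤ L) {h : Matrix (LConf d r) (LConf d r) ℂ}
    (hh : h.PosSemidef) {γ : ℝ} (_hγ : 0 < γ) (H : LocGap L h γ) (A : Finset (Site L))
    (x : Hil d L) : γ * ‖(1 - GA h A) x‖ ^ 2 ≤ (⟪x, hamOn h A x⟫_ℂ).re :=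
  energy_ge_of_gapAt hrL hh (H A) x

theorem lgap_of_gapAt (hrL : r ≤ L) {h : Matrix (LConf d r) (LConf d r) ℂ} (hh : h.PosSemidef)
    {γ : ℝ} {A : Finset (Site L)} (H : GapAt h A γ) (x : Hil d L) :
    γ / (entNorm h + 1) * ‖x - GA h A x‖ ^ 2 ≤ ∑ v ∈ A, ‖Qv h v x‖ ^ 2 := by
  have hJ : 0 < entNorm h + 1 := by have := entNorm_nonneg h; linarith
  have h1 := energy_ge_of_gapAt hrL hh H x
  rw [pj_hamOn_inner] at h1
  have h2 : ∀ v ∈ A, (⟪x, locOp L h v x⟫_ℂ).re ≤ (entNorm h + 1) * ‖Qv h v x‖ ^ 2 := by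
    intro v _
    have hsa := pj_selfAdjoint (L := L) hrL hh v
    have hx : x = (x - Qv h v x) + Qv h v x := by abel
    have hz : locOp L h v (x - Qv h v x) = 0 := by
      rw [← pj_Qv_zero, map_sub]
      have hid : Qv h v * Qv h v = Qv h v :=
        (isStarProjection_starProjection.one_sub : IsStarProjection (Qv h v)).isIdempotentElem
      have h3 := congrArg (fun T : Hil d L →L[ℂ] Hil d L => T x) hid
      simp only [mul_apply_eq_comp] at h3
      rw [h3, sub_self]
    have h4 : locOp L h v x = locOp L h v (Qv h v x) := by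
      conv_lhs => rw [hx, map_add, hz, zero_add]
    have h5 : ⟪x, locOp L h v x⟫_ℂ = ⟪Qv h v x, locOp L h v (Qv h v x)⟫_ℂ := by
      have h6 : ⟪x, locOp L h v (Qv h v x)⟫_ℂ = ⟪locOp L h v x, Qv h v x⟫_ℂ :=
        (hsa.isSymmetric x (Qv h v x)).symm
      rw [h4, h6, h4]
      exact hsa.isSymmetric (Qv h v x) (Qv h v x)
    rw [h5]
    calc (⟪Qv h v x, locOp L h v (Qv h v x)⟫_ℂ).re
        ≤ ‖⟪Qv h v x, locOp L h v (Qv h v x)⟫_ℂ‖ := Complex.re_le_norm _
      _ ≤ ‖Qv h v x‖ * ‖locOp L h v (Qv h v x)‖ := norm_inner_le_norm _ _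
      _ ≤ ‖Qv h v x‖ * (entNorm h * ‖Qv h v x‖) := by
          refine mul_le_mul_of_nonneg_left ?_ (norm_nonneg _)
          exact ((locOp L h v).le_opNorm _).trans
            (mul_le_mul_of_nonneg_right (norm_locOp_le hrL h v) (norm_nonneg _))
      _ ≤ (entNorm h + 1) * ‖Qv h v x‖ ^ 2 := by nlinarith [sq_nonneg ‖Qv h v x‖]
  have h3 : γ * ‖x - GA h A x‖ ^ 2 ≤ (entNorm h + 1) * ∑ v ∈ A, ‖Qv h v x‖ ^ 2 := by
    rw [Finset.mul_sum]
    exact h1.trans (Finset.sum_le_sum h2)
  rw [div_mul_eq_mul_div, div_le_iff₀ hJ, mul_comm _ (entNorm h + 1)]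
  exact h3

theorem GA_localOn (hrL : r ≤ L) {h : Matrix (LConf d r) (LConf d r) ℂ} (hh : h.PosSemidef)
    (A : Finset (Site L)) (K : Finset (Site L)) (hA : ∀ v ∈ A, ∀ p, boxPos L r v p ∈ K) :
    LocalOn K (GA (L := L) h A) := by
  refine localOn_ker (pj_hamOn_selfAdjoint hrL hh A) ?_
  unfold hamOn
  intro u hu a b
  rw [Finset.mul_sum, Finset.sum_mul]
  refine Finset.sum_congr rfl fun v hv => ?_
  refine (LocalOn.mono ?_ (locOp_localOn hrL h v)) u hu a b
  intro w hw
  obtain ⟨p, _, rfl⟩ := Finset.mem_image.mp hw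
  exact hA v hv p

end Projections

end Pool.Agent.FFG
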