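import Pool.Agent.FFG.Glue
import Pool.Agent.FFG.Measure
import Pool.Agent.FFG.Flow
import Pool.Agent.FFG.Pick
import Pool.Agent.FFG.Geo2
import Pool.Agent.FFG.Geo3
import Pool.Agent.FFG.Pos
import Pool.Agent.FFG.PepoProd
import Pool.Agent.FFG.Proj
import Pool.Agent.FFG.Param
import Pool.Agent.PepsX.Main

open Finset
open scoped InnerProductSpace ComplexOrder

set_option autoImplicit false
set_option linter.unusedSectionVars false

namespace Pool.Agent.FFG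

open Pool.Agent.PEPS953 Pool.Agent.PepsX Pool.Agent.PepsY

/-! ### Cells -/

section Cells

variable {d L r : ℕ} [NeZero L]

/-- The excitation projection of a cell. -/
noncomputable def QC (h : Matrix (LConf d r) (LConf d r) ℂ) (R w₀ w₁ : ℕ) (c : CI L R) :
    Hil d L →L[ℂ] Hil d L := 1 - GA h (cellS R w₀ w₁ c)

/-- The number of violated cells. -/
noncomputable def NN (L : ℕ) [NeZero L] (h : Matrix (LConf d r) (LConf d r) ℂ) (R w₀ w₁ : ℕ) :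
    Hil d L →L[ℂ] Hil d L := ∑ c : CI L R, QC h R w₀ w₁ c

/-- The class of a cell. -/
def cls {R : ℕ} (c : CI L R) : Fin 9 := finProdFinEquiv (ccol c)

/-- The filter of one class. -/
noncomputable def TC (L : ℕ) [NeZero L] (h : Matrix (LConf d r) (LConf d r) ℂ) (R w₀ w₁ : ℕ)
    (k : Fin 9) : Hil d L →L[ℂ] Hil d L :=
  NormedSpace.exp (-∑ c ∈ univ.filter (fun c : CI L R => cls c = k), QC h R w₀ w₁ c)

/-- The filter. -/
noncomputable def TT (L : ℕ) [NeZero L] (h : Matrix (LConf d r) (LConf d r) ℂ) (R w₀ w₁ : ℕ) :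
    Hil d L →L[ℂ] Hil d L :=
  (List.ofFn fun k : Fin 9 => TC L h R w₀ w₁ k).prod

lemma isStar_GA (h : Matrix (LConf d r) (LConf d r) ℂ) (A : Finset (Site L)) :
    IsStarProjection (GA h A) := isStarProjection_starProjection

lemma isStar_QC (h : Matrix (LConf d r) (LConf d r) ℂ) (R w₀ w₁ : ℕ) (c : CI L R) :
    IsStarProjection (QC h R w₀ w₁ c) := (isStar_GA h _).one_sub

lemma norm_proj_sq {E : Type} [NormedAddCommGroup E] [InnerProductSpace ℂ E] [CompleteSpace E]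
    {Q : E →L[ℂ] E} (hQ : IsStarProjection Q) (x : E) : ‖Q x‖ ^ 2 = (⟪x, Q x⟫_ℂ).re := by
  have h1 : ⟪Q x, Q x⟫_ℂ = ⟪x, Q x⟫_ℂ := by
    have h2 := hQ.isSelfAdjoint
    have h3 : ⟪Q x, Q x⟫_ℂ = ⟪x, star Q (Q x)⟫_ℂ := by
      rw [ContinuousLinearMap.star_eq_adjoint, ContinuousLinearMap.adjoint_inner_right]
    rw [h3, h2.star_eq]
    have h4 : Q (Q x) = (Q * Q) x := rfl
    rw [h4, hQ.isIdempotentElem.eq]
  rw [← h1]
  exact (inner_self_eq_norm_sq (𝕜 := ℂ) (Q x)).symm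

lemma cellS_card {R w₀ w₁ : ℕ} (hr : 0 < r) (hR : 0 < R) (hRL : R ≤ L) (h1 : w₁ ≤ w₀)
    (hW : 2 * (w₀ + r) + 1 ≤ R) (c : CI L R) : (cellS R w₀ w₁ c).card ≤ 9 * R ^ 2 := by
  refine le_trans (card_le_card ?_) (hull_card hR hRL hW c)
  intro u hu
  have h2 := cell_hull (r := r) h1 c u hu (⟨0, hr⟩, ⟨0, hr⟩)
  simpa [boxPos] using h2

lemma sum_biUnion_le {α β : Type*} [DecidableEq α] [DecidableEq β] (s : Finset α)
    (t : α → Finset β) (f : β → ℝ) (hf : ∀ b, 0 ≤ f b) :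
    ∑ b ∈ s.biUnion t, f b ≤ ∑ a ∈ s, ∑ b ∈ t a, f b := by
  induction s using Finset.induction_on with
  | empty => simp
  | insert a s ha ih =>
    rw [biUnion_insert, sum_insert ha]
    have h1 : ∑ b ∈ t a ∪ s.biUnion t, f b + ∑ b ∈ t a ∩ s.biUnion t, f b =
        ∑ b ∈ t a, f b + ∑ b ∈ s.biUnion t, f b := sum_union_inter
    have h2 : 0 ≤ ∑ b ∈ t a ∩ s.biUnion t, f b := sum_nonneg fun b _ => hf b
    linarith

/-- The region covered by the cells outside `S`. -/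
def reg (R w₀ w₁ : ℕ) (S : Finset (CI L R)) : Finset (Site L) :=
  Sᶜ.biUnion fun c => cellS R w₀ w₁ c

lemma norm_Qv_le (hrL : r ≤ L) {h : Matrix (LConf d r) (LConf d r) ℂ} (hh : h.PosSemidef)
    {A : Finset (Site L)} {v : Site L} (hv : v ∈ A) (x : Hil d L) :
    ‖Qv h v x‖ ≤ ‖(1 - GA h A) x‖ := by
  have h1 : Qv h v x = Qv h v ((1 - GA h A) x) := by
    have h2 := (isKer_GA hrL hh A).zero v hv
    have h3 : Qv h v (GA h A x) = 0 := by
      have := congrArg (fun T : Hil d L →L[ℂ] Hil d L => T x) h2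
      simpa using this
    rw [sub_apply, one_apply_eq_self, map_sub, h3, sub_zero]
  rw [h1]
  have h4 : ‖Qv (L := L) h v‖ ≤ 1 := ((sys_Qv hrL hh).proj v).norm_le
  calc ‖Qv h v ((1 - GA h A) x)‖ ≤ ‖Qv (L := L) h v‖ * ‖(1 - GA h A) x‖ :=
        (Qv h v).le_opNorm _
    _ ≤ 1 * ‖(1 - GA h A) x‖ := by gcongr
    _ = _ := one_mul _

lemma reg_gap (hr : 0 < r) (hrL : r ≤ L) {h : Matrix (LConf d r) (LConf d r) ℂ}
    (hh : h.PosSemidef) {γ : ℝ} {R w₀ w₁ : ℕ} (hR : 0 < R)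
    (hRL : R ≤ L) (h1 : w₁ ≤ w₀) (hW : 2 * (w₀ + r) + 1 ≤ R) (S : Finset (CI L R))
    (H : GapAt h (reg R w₀ w₁ S) γ) (x : Hil d L)
    (hx : x ∈ (LinearMap.ker (hamOn h (reg R w₀ w₁ S) : Hil d L →ₗ[ℂ] Hil d L))ᗮ) :
    γ / (entNorm h + 1) / (9 * R ^ 2) * ‖x‖ ^ 2 ≤ ∑ c ∈ Sᶜ, ‖QC h R w₀ w₁ c x‖ ^ 2 := by
  have hG : GA h (reg R w₀ w₁ S) x = 0 := by
    unfold GA
    exact (Submodule.starProjection_apply_eq_zero_iff _).mpr hx
  have h2 := lgap_of_gapAt hrL hh H x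
  rw [hG, sub_zero] at h2
  have h3 : ∑ v ∈ reg R w₀ w₁ S, ‖Qv h v x‖ ^ 2 ≤
      ∑ c ∈ Sᶜ, ∑ v ∈ cellS R w₀ w₁ c, ‖Qv h v x‖ ^ 2 := by
    unfold reg
    exact sum_biUnion_le _ _ _ fun _ => by positivity
  have h4 : ∀ c ∈ Sᶜ, ∑ v ∈ cellS R w₀ w₁ c, ‖Qv h v x‖ ^ 2 ≤
      9 * R ^ 2 * ‖QC h R w₀ w₁ c x‖ ^ 2 := by
    intro c _
    calc ∑ v ∈ cellS R w₀ w₁ c, ‖Qv h v x‖ ^ 2 ≤
        ∑ v ∈ cellS R w₀ w₁ c, ‖QC h R w₀ w₁ c x‖ ^ 2 := by
          refine sum_le_sum fun v hv => ?_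
          have := norm_Qv_le hrL hh hv x
          unfold QC
          gcongr
      _ = (cellS R w₀ w₁ c).card * ‖QC h R w₀ w₁ c x‖ ^ 2 := by
          rw [sum_const, nsmul_eq_mul]
      _ ≤ _ := by
          have h5 : ((cellS R w₀ w₁ c).card : ℝ) ≤ 9 * R ^ 2 := by
            exact_mod_cast cellS_card hr hR hRL h1 hW c
          gcongr
  have h5 : γ / (entNorm h + 1) * ‖x‖ ^ 2 ≤ 9 * R ^ 2 * ∑ c ∈ Sᶜ, ‖QC h R w₀ w₁ c x‖ ^ 2 := by
    rw [mul_sum]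
    exact h2.trans (h3.trans (sum_le_sum h4))
  have hR' : (0 : ℝ) < 9 * R ^ 2 := by positivity
  rw [div_mul_eq_mul_div, div_le_iff₀ hR']
  linarith

lemma comm_one_sub {A : Type*} [Ring A] (a b : A) :
    (1 - a) * (1 - b) - (1 - b) * (1 - a) = a * b - b * a := by
  noncomm_ring

lemma comm_QC (hr : 0 < r) (hrL : r ≤ L) {h : Matrix (LConf d r) (LConf d r) ℂ}
    (hh : h.PosSemidef) {γ : ℝ} (hγ : 0 < γ) {R w₀ w₁ q : ℕ} (hR : 0 < R)
    (hRL : R ≤ L) (h1 : (q * (4 * r ^ 2) + 1) * r ≤ w₁)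
    (h2 : w₁ + (q * (4 * r ^ 2) + 1) * r ≤ w₀)
    (h3 : 2 * (w₀ + (q * (4 * r ^ 2) + 1) * r) + 1 ≤ R) (c c' : CI L R)
    (H : GapAt h (cellS R w₀ w₁ c ∪ cellS R w₀ w₁ c') γ) :
    ‖QC h R w₀ w₁ c * QC h R w₀ w₁ c' - QC h R w₀ w₁ c' * QC h R w₀ w₁ c‖ ^ 2 ≤
      4 * ((1 + γ / (entNorm h + 1) / ((4 * r ^ 2 : ℕ) : ℝ) ^ 2)⁻¹) ^ q := by
  obtain ⟨col, hcol⟩ := ov_col (L := L) hr hrL
  obtain ⟨f, hf1, hf2, hf3⟩ := ov_pot (L := L) hr (q * (4 * r ^ 2))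
    (cellS R w₀ w₁ c \ cellS R w₀ w₁ c') (cellS R w₀ w₁ c' \ cellS R w₀ w₁ c)
    fun u hu v hv => cell_far hR hRL h1 h2 h3 c c' u v hu hv
  have hent : 0 < entNorm h + 1 := by have := entNorm_nonneg h; linarith
  have key := glue_local (by positivity : 0 < 4 * r ^ 2) (sys_Qv hrL hh) (isKer_GA hrL hh)
    (by positivity : (0 : ℝ) ≤ γ / (entNorm h + 1)) col hcol
    (cellS R w₀ w₁ c) (cellS R w₀ w₁ c') (lgap_of_gapAt hrL hh H) q f hf1 hf2 hf3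
  have h4 : QC h R w₀ w₁ c * QC h R w₀ w₁ c' - QC h R w₀ w₁ c' * QC h R w₀ w₁ c =
      GA h (cellS R w₀ w₁ c) * GA h (cellS R w₀ w₁ c') -
        GA h (cellS R w₀ w₁ c') * GA h (cellS R w₀ w₁ c) := by
    exact comm_one_sub _ _
  rw [h4]
  exact key

lemma inner_NN (h : Matrix (LConf d r) (LConf d r) ℂ) (R w₀ w₁ : ℕ) (x : Hil d L) :
    (⟪x, NN L h R w₀ w₁ x⟫_ℂ).re = ∑ c : CI L R, ‖QC h R w₀ w₁ c x‖ ^ 2 := by
  unfold NN
  rw [_root_.sum_apply, inner_sum, Complex.re_sum]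
  exact sum_congr rfl fun c _ => (norm_proj_sq (isStar_QC h R w₀ w₁ c) x).symm

lemma card_small_le {α : Type} [Fintype α] [DecidableEq α] (m : ℕ) :
    (univ.filter fun S : Finset α => S.card ≤ m).card ≤ (1 + Fintype.card α) ^ m := by
  have h1 : (univ.filter fun S : Finset α => S.card ≤ m) =
      (range (m + 1)).biUnion fun j => powersetCard j univ := by
    ext S
    simp only [mem_filter, mem_univ, true_and, mem_biUnion, mem_range, mem_powersetCard,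
      subset_univ]
    constructor
    · intro hS
      exact ⟨S.card, by omega, rfl⟩
    · rintro ⟨j, hj, hS⟩
      omega
  rw [h1]
  refine card_biUnion_le.trans ?_
  simp_rw [card_powersetCard, card_univ]
  exact sum_choose_le _ _

lemma compl_reg_card {R w₀ w₁ : ℕ} (hr : 0 < r) (hR : 0 < R) (hRL : R ≤ L) (h1 : w₁ ≤ w₀)
    (hW : 2 * (w₀ + r) + 1 ≤ R) (S : Finset (CI L R)) :
    ((reg R w₀ w₁ S)ᶜ).card ≤ 9 * R ^ 2 * S.card := by
  have h2 : (reg R w₀ w₁ S)ᶜ ⊆ S.biUnion fun c => cellS R w₀ w₁ c := by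
    intro u hu
    obtain ⟨c, hc⟩ := cell_cover (w₀ := w₀) (w₁ := w₁) hR hRL u
    rw [mem_biUnion]
    refine ⟨c, ?_, hc⟩
    by_contra hcS
    rw [mem_compl] at hu
    apply hu
    unfold reg
    rw [mem_biUnion]
    exact ⟨c, mem_compl.mpr hcS, hc⟩
  refine (card_le_card h2).trans (card_biUnion_le.trans ?_)
  calc ∑ c ∈ S, (cellS R w₀ w₁ c).card ≤ ∑ _c ∈ S, 9 * R ^ 2 :=
        sum_le_sum fun c _ => cellS_card hr hR hRL h1 hW c
    _ = _ := by rw [sum_const, smul_eq_mul, mul_comm]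

lemma card_CI (R : ℕ) : Fintype.card (CI L R) = (L / R) ^ 2 := by
  rw [Fintype.card_prod, Fintype.card_fin, sq]

lemma Adm.w_le {R w₀ w₁ q : ℕ} {γ' γ'' ε : ℝ} (A : Adm L r R w₀ w₁ q γ' γ'' ε) : w₁ ≤ w₀ := by
  have := A.h2
  omega

lemma sub_eq_one_add_smul (X : Hil d L →L[ℂ] Hil d L) : 1 - X = 1 + (-1 : ℂ) • X := by
  ext x
  simp [sub_eq_add_neg]

lemma cellS_hull {R w₀ w₁ : ℕ} (hr : 0 < r) (h1 : w₁ ≤ w₀) (c : CI L R) :
    cellS R w₀ w₁ c ⊆ hull R (w₀ + r) c := by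
  intro u hu
  have h2 := cell_hull (r := r) h1 c u hu (⟨0, hr⟩, ⟨0, hr⟩)
  simpa [boxPos] using h2

lemma QC_localOn (hrL : r ≤ L) {h : Matrix (LConf d r) (LConf d r) ℂ} (hh : h.PosSemidef)
    {R w₀ w₁ : ℕ} (hw : w₁ ≤ w₀) (c : CI L R) :
    LocalOn (hull R (w₀ + r) c) (QC h R w₀ w₁ c) := by
  have h1 : LocalOn (hull R (w₀ + r) c) (GA h (cellS R w₀ w₁ c)) :=
    GA_localOn hrL hh _ _ fun v hv p => cell_hull hw c v hv p
  have h2 : QC h R w₀ w₁ c = 1 + (-1 : ℂ) • GA h (cellS R w₀ w₁ c) := by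
    unfold QC
    exact sub_eq_one_add_smul _
  rw [h2]
  exact (localOn_one _).add (h1.smul _)

lemma QC_comm {R w₀ w₁ q : ℕ} {γ' γ'' ε : ℝ} {h : Matrix (LConf d r) (LConf d r) ℂ}
    (A : Adm L r R w₀ w₁ q γ' γ'' ε) (hh : h.PosSemidef) (c c' : CI L R)
    (hc : Disjoint (hull R (w₀ + r) c) (hull R (w₀ + r) c')) :
    QC h R w₀ w₁ c * QC h R w₀ w₁ c' = QC h R w₀ w₁ c' * QC h R w₀ w₁ c :=
  LocalOn.commute hc (QC_localOn A.hrL hh A.w_le c) (QC_localOn A.hrL hh A.w_le c')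

lemma Adm.comm {R w₀ w₁ q : ℕ} {γ γ₂ ε : ℝ} {h : Matrix (LConf d r) (LConf d r) ℂ}
    (A : Adm L r R w₀ w₁ q (γ / (entNorm h + 1)) (γ₂ / (entNorm h + 1)) ε) (hh : h.PosSemidef)
    (hγ : 0 < γ) (H : LG L h (6 * R) γ γ₂) (c c' : CI L R) :
    ‖QC h R w₀ w₁ c * QC h R w₀ w₁ c' - QC h R w₀ w₁ c' * QC h R w₀ w₁ c‖ ≤ ε := by
  by_cases hdis : Disjoint (hull R (w₀ + r) c) (hull R (w₀ + r) c')
  · rw [QC_comm A hh c c' hdis, sub_self, norm_zero]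
    exact A.hε0
  · rw [not_disjoint_iff] at hdis
    obtain ⟨v₀, hv, hv'⟩ := hdis
    have hg : GapAt h (cellS R w₀ w₁ c ∪ cellS R w₀ w₁ c') γ := by
      refine H.small _ v₀ fun u hu => ?_
      rw [mem_union] at hu
      rcases hu with hu | hu
      · have := hull_diam A.hR A.hRL A.hW c v₀ u hv (cellS_hull A.hr A.w_le c hu)
        omega
      · have := hull_diam A.hR A.hRL A.hW c' v₀ u hv' (cellS_hull A.hr A.w_le c' hu)
        omega
    have h1 := (comm_QC A.hr A.hrL hh hγ A.hR A.hRL A.h1 A.h2 A.h3 c c' hg).trans A.hε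
    exact abs_le_of_sq_le_sq' h1 A.hε0 |>.2

/-- Counting states with few violated cells. -/
theorem count_cells {R w₀ w₁ q : ℕ} {γ γ₂ ε : ℝ} {h : Matrix (LConf d r) (LConf d r) ℂ}
    (A : Adm L r R w₀ w₁ q (γ / (entNorm h + 1)) (γ₂ / (entNorm h + 1)) ε) (hh : h.PosSemidef)
    (hγ : 0 < γ) (hγ₂ : 0 < γ₂) (H : LG L h (6 * R) γ γ₂) (m : ℕ) (E₀ : ℝ) (hE : (E₀ + 1 / 16) / (m + 1) + 1 / 16 < 1)
    (V : Submodule ℂ (Hil d L))
    (hV : ∀ v ∈ V, ∑ c : CI L R, ‖QC h R w₀ w₁ c v‖ ^ 2 ≤ E₀ * ‖v‖ ^ 2) :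
    Module.finrank ℂ V ≤ ∑ S ∈ univ.filter (fun S : Finset (CI L R) => S.card ≤ m),
      Module.finrank ℂ (LinearMap.ker (hamOn h (reg R w₀ w₁ S) : Hil d L →ₗ[ℂ] Hil d L)) := by
  have hent : 0 < entNorm h + 1 := by have := entNorm_nonneg h; linarith
  have hR := A.hR
  have hn : (Fintype.card (CI L R) : ℝ) ≤ (L : ℝ) ^ 2 := by
    rw [card_CI]
    push_cast
    gcongr
    exact_mod_cast Nat.div_le_self L R
  have hn0 : (0 : ℝ) ≤ Fintype.card (CI L R) := by positivity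
  have hβ : 0 < γ₂ / (entNorm h + 1) / (9 * (R : ℝ) ^ 2) := by positivity
  have hε0 := A.hε0
  obtain ⟨n, hn'⟩ : ∃ n : ℝ, n = (Fintype.card (CI L R) : ℝ) := ⟨_, rfl⟩
  have h1 : 2 * n ^ 2 * ε ≤ 1 / 16 := by
    refine le_trans ?_ A.hs1
    rw [← hn'] at hn hn0
    gcongr
  have h2 : 2 * n ^ 2 * ε / (γ₂ / (entNorm h + 1) / (9 * (R : ℝ) ^ 2)) ≤ 1 / 16 := by
    refine le_trans ?_ A.hs2
    rw [← hn'] at hn hn0
    gcongr
  have h3 : (E₀ + 2 * n ^ 2 * ε) / (m + 1) +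
      2 * n ^ 2 * ε / (γ₂ / (entNorm h + 1) / (9 * (R : ℝ) ^ 2)) < 1 := by
    refine lt_of_le_of_lt ?_ hE
    gcongr
  rw [hn'] at h3
  have hK : ∀ S : Finset (CI L R), ∀ x ∈ (LinearMap.ker (hamOn h (reg R w₀ w₁ S) :
      Hil d L →ₗ[ℂ] Hil d L))ᗮ, γ₂ / (entNorm h + 1) / (9 * (R : ℝ) ^ 2) * ‖x‖ ^ 2 ≤
      ∑ i ∈ Sᶜ, ‖QC h R w₀ w₁ i x‖ ^ 2 := fun S x hx =>
    reg_gap A.hr A.hrL hh A.hR A.hRL A.w_le A.hW S (H.all _) x hx
  obtain ⟨Ker, hKer⟩ : ∃ Ker : Finset (CI L R) → Submodule ℂ (Hil d L),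
      Ker = fun S => LinearMap.ker (hamOn h (reg R w₀ w₁ S) : Hil d L →ₗ[ℂ] Hil d L) := ⟨_, rfl⟩
  obtain ⟨β, hβ'⟩ : ∃ β : ℝ, β = γ₂ / (entNorm h + 1) / (9 * (R : ℝ) ^ 2) := ⟨_, rfl⟩
  obtain ⟨Q, hQ⟩ : ∃ Q : CI L R → Hil d L →L[ℂ] Hil d L, Q = QC h R w₀ w₁ := ⟨_, rfl⟩
  have hK' : ∀ S : Finset (CI L R), ∀ x ∈ (Ker S)ᗮ, β * ‖x‖ ^ 2 ≤ ∑ i ∈ Sᶜ, ‖Q i x‖ ^ 2 := by
    rw [hKer, hβ', hQ]
    exact hK
  have hc : ∀ c c', ‖Q c * Q c' - Q c' * Q c‖ ≤ ε := by rw [hQ]; exact A.comm hh hγ H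
  have hs : ∀ c, IsStarProjection (Q c) := by rw [hQ]; exact isStar_QC h R w₀ w₁
  rw [← hβ'] at hβ h3
  rw [← hQ] at hV
  have key := count_bound Q hs ε β E₀ hβ hc Ker hK' m V hV h3
  rw [hKer] at key
  exact key

/-- The number of few-cell states under `FewZero`. -/
theorem count_exp {R w₀ w₁ q : ℕ} {γ γ₂ ε κ : ℝ} {h : Matrix (LConf d r) (LConf d r) ℂ}
    (A : Adm L r R w₀ w₁ q (γ / (entNorm h + 1)) (γ₂ / (entNorm h + 1)) ε) (hh : h.PosSemidef)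
    (hγ : 0 < γ) (hγ₂ : 0 < γ₂) (H : LG L h (6 * R) γ γ₂) (hκ : 1 ≤ κ) (hF : FewZero L h κ) (E₀ : ℝ) (hE : 0 ≤ E₀)
    (V : Submodule ℂ (Hil d L))
    (hV : ∀ v ∈ V, ∑ c : CI L R, ‖QC h R w₀ w₁ c v‖ ^ 2 ≤ E₀ * ‖v‖ ^ 2) :
    (Module.finrank ℂ V : ℝ) ≤
      Real.exp ((κ * (1 + 9 * R ^ 2) + Real.log (1 + (L : ℝ) ^ 2)) * (2 * E₀ + 2)) := by
  obtain ⟨m, hm⟩ : ∃ m : ℕ, m = ⌈2 * E₀⌉₊ := ⟨_, rfl⟩
  have hm1 : 2 * E₀ ≤ m := by rw [hm]; exact Nat.le_ceil _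
  have hm2 : (m : ℝ) < 2 * E₀ + 1 := by rw [hm]; exact Nat.ceil_lt_add_one (by positivity)
  have h1 : (E₀ + 1 / 16) / (m + 1) + 1 / 16 < 1 := by
    have : (E₀ + 1 / 16) / (m + 1) ≤ 1 / 2 := by
      rw [div_le_iff₀ (by positivity)]
      linarith
    linarith
  have h2 := count_cells A hh hγ hγ₂ H m E₀ h1 V hV
  have hR := A.hR
  have hlog : 0 ≤ Real.log (1 + (L : ℝ) ^ 2) := Real.log_nonneg (by nlinarith [sq_nonneg (L : ℝ)])
  have h3 : ∀ S ∈ univ.filter (fun S : Finset (CI L R) => S.card ≤ m),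
      (Module.finrank ℂ (LinearMap.ker (hamOn h (reg R w₀ w₁ S) :
        Hil d L →ₗ[ℂ] Hil d L)) : ℝ) ≤ Real.exp (κ * (1 + 9 * R ^ 2 * m)) := by
    intro S hS
    have h4 := hF (reg R w₀ w₁ S)ᶜ
    rw [compl_compl] at h4
    refine h4.trans (Real.exp_le_exp.mpr ?_)
    have h5 : (((reg R w₀ w₁ S)ᶜ).card : ℝ) ≤ 9 * R ^ 2 * S.card := by
      exact_mod_cast compl_reg_card A.hr A.hR A.hRL A.w_le A.hW S
    have h6 : (S.card : ℝ) ≤ m := by exact_mod_cast (mem_filter.mp hS).2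
    have h7 : (9 : ℝ) * R ^ 2 * S.card ≤ 9 * R ^ 2 * m := by gcongr
    have : (1 : ℝ) + ((reg R w₀ w₁ S)ᶜ).card ≤ 1 + 9 * R ^ 2 * m := by linarith
    gcongr
  have h8 : ((univ.filter fun S : Finset (CI L R) => S.card ≤ m).card : ℝ) ≤
      Real.exp (Real.log (1 + (L : ℝ) ^ 2) * m) := by
    have h9 : ((univ.filter fun S : Finset (CI L R) => S.card ≤ m).card : ℝ) ≤
        (1 + Fintype.card (CI L R) : ℝ) ^ m := by
      exact_mod_cast card_small_le m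
    refine h9.trans ?_
    rw [mul_comm, Real.exp_nat_mul, Real.exp_log (by positivity)]
    have h10 : (Fintype.card (CI L R) : ℝ) ≤ (L : ℝ) ^ 2 := by
      rw [card_CI]
      push_cast
      gcongr
      exact_mod_cast Nat.div_le_self L R
    gcongr
  calc (Module.finrank ℂ V : ℝ) ≤ ∑ S ∈ univ.filter (fun S : Finset (CI L R) => S.card ≤ m),
      (Module.finrank ℂ (LinearMap.ker (hamOn h (reg R w₀ w₁ S) :
        Hil d L →ₗ[ℂ] Hil d L)) : ℝ) := by exact_mod_cast h2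
    _ ≤ ∑ _S ∈ univ.filter (fun S : Finset (CI L R) => S.card ≤ m),
        Real.exp (κ * (1 + 9 * R ^ 2 * m)) := sum_le_sum h3
    _ = ((univ.filter fun S : Finset (CI L R) => S.card ≤ m).card : ℝ) *
        Real.exp (κ * (1 + 9 * R ^ 2 * m)) := by rw [sum_const, nsmul_eq_mul]
    _ ≤ Real.exp (Real.log (1 + (L : ℝ) ^ 2) * m) * Real.exp (κ * (1 + 9 * R ^ 2 * m)) := by
        gcongr
    _ = Real.exp (Real.log (1 + (L : ℝ) ^ 2) * m + κ * (1 + 9 * R ^ 2 * m)) := by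
        rw [Real.exp_add]
    _ ≤ _ := by
        apply Real.exp_le_exp.mpr
        have hm3 : (m : ℝ) ≤ 2 * E₀ + 2 := by linarith
        have h10 : Real.log (1 + (L : ℝ) ^ 2) * m ≤ Real.log (1 + (L : ℝ) ^ 2) * (2 * E₀ + 2) := by
          gcongr
        have h11 : κ * (1 + 9 * (R : ℝ) ^ 2 * m) ≤ κ * ((1 + 9 * R ^ 2) * (2 * E₀ + 2)) := by
          have : 1 + 9 * (R : ℝ) ^ 2 * m ≤ (1 + 9 * R ^ 2) * (2 * E₀ + 2) := by
            have h12 : 9 * (R : ℝ) ^ 2 * m ≤ 9 * R ^ 2 * (2 * E₀ + 2) := by gcongr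
            nlinarith
          gcongr
        linarith

end Cells

/-! ### The filter -/

section Filter

/-- The exponential of an idempotent. -/
lemma exp_neg_idem {A : Type*} [NormedRing A] [NormedAlgebra ℂ A] [CompleteSpace A] (Q : A)
    (hQ : Q * Q = Q) : NormedSpace.exp (-Q) = (1 - Q) + (Real.exp (-1) : ℂ) • Q := by
  have hpow : ∀ n : ℕ, (-Q) ^ (n + 1) = ((-1 : ℂ) ^ (n + 1)) • Q := by
    intro n
    induction n with
    | zero => simp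
    | succ n ih =>
      rw [pow_succ, ih, smul_mul_assoc, mul_neg, hQ, pow_succ (-1 : ℂ) (n + 1), mul_neg_one,
        neg_smul, smul_neg]
  have h1 : HasSum (fun n : ℕ => ((n.factorial : ℂ)⁻¹) • (-Q) ^ n) (NormedSpace.exp (-Q)) :=
    NormedSpace.exp_series_hasSum_exp' (𝕂 := ℂ) (-Q)
  have h2 : HasSum (fun n : ℕ => ((n.factorial : ℂ)⁻¹ * (-1) ^ n) • Q) ((Real.exp (-1) : ℂ) • Q) := by
    have h3 : HasSum (fun n : ℕ => (n.factorial : ℂ)⁻¹ * (-1) ^ n) (Complex.exp (-1)) := by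
      have h4 := NormedSpace.exp_series_hasSum_exp' (𝕂 := ℂ) (-1 : ℂ)
      rw [← Complex.exp_eq_exp_ℂ] at h4
      simpa [smul_eq_mul] using h4
    have h5 : (Complex.exp (-1) : ℂ) = ((Real.exp (-1) : ℝ) : ℂ) := by
      rw [Complex.ofReal_exp]; norm_num
    rw [← h5]
    exact h3.smul_const Q
  have h3 : HasSum (fun n : ℕ => if n = 0 then (1 - Q) else 0) (1 - Q) := by
    have := hasSum_ite_eq (0 : ℕ) (1 - Q)
    exact this
  have h4 := h3.add h2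
  refine h1.unique ?_
  convert h4 using 1
  funext n
  cases n with
  | zero => simp
  | succ n => rw [hpow]; simp [smul_smul]

lemma exp_neg_list {A : Type*} [NormedRing A] [NormedAlgebra ℂ A] [CompleteSpace A] {ι : Type*}
    (Q : ι → A) (hQ : ∀ i, Q i * Q i = Q i) (l : List ι)
    (hl : l.Pairwise fun i j => Q i * Q j = Q j * Q i) :
    NormedSpace.exp (-(l.map Q).sum) =
      (l.map fun i => (1 - Q i) + (Real.exp (-1) : ℂ) • Q i).prod := by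
  induction l with
  | nil => simp
  | cons i l ih =>
    rw [List.pairwise_cons] at hl
    rw [List.map_cons, List.sum_cons, neg_add, List.map_cons, List.prod_cons, ← ih hl.2,
      ← exp_neg_idem (Q i) (hQ i)]
    let _ : NormedAlgebra ℚ A := NormedAlgebra.restrictScalars ℚ ℂ A
    refine NormedSpace.exp_add_of_commute ?_
    refine Commute.neg_left (Commute.neg_right ?_)
    have : ∀ x ∈ l.map Q, Commute (Q i) x := by
      intro x hx
      rw [List.mem_map] at hx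
      obtain ⟨j, hj, rfl⟩ := hx
      exact hl.1 j hj
    clear hl ih
    induction l with
    | nil => simp
    | cons j l ih2 =>
      rw [List.map_cons, List.sum_cons]
      refine Commute.add_right (this _ (by simp)) (ih2 fun x hx => this x (by simp [hx]))

variable {d L r : ℕ} [NeZero L]

lemma cls_disj {R w₀ w₁ q : ℕ} {γ' γ'' ε : ℝ} (A : Adm L r R w₀ w₁ q γ' γ'' ε) (c c' : CI L R)
    (hc : cls c = cls c') (hne : c ≠ c') :
    Disjoint (hull R (w₀ + r) c) (hull R (w₀ + r) c') :=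
  hull_disj A.hR A.hRL A.hW c c' (finProdFinEquiv.injective hc) hne

lemma TC_eq {R w₀ w₁ q : ℕ} {γ' γ'' ε : ℝ} {h : Matrix (LConf d r) (LConf d r) ℂ}
    (A : Adm L r R w₀ w₁ q γ' γ'' ε) (hh : h.PosSemidef) (k : Fin 9) :
    TC L h R w₀ w₁ k = (((univ.filter fun c : CI L R => cls c = k).toList).map fun c =>
      (1 - QC h R w₀ w₁ c) + (Real.exp (-1) : ℂ) • QC h R w₀ w₁ c).prod := by
  unfold TC
  rw [← exp_neg_list (A := Hil d L →L[ℂ] Hil d L) (QC h R w₀ w₁)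
    (fun c => (isStar_QC h R w₀ w₁ c).isIdempotentElem.eq)]
  · rw [sum_map_toList]
  · have h1 : (univ.filter fun c : CI L R => cls c = k).toList.Nodup := nodup_toList _
    rw [List.Nodup, List.pairwise_iff_getElem] at h1
    rw [List.pairwise_iff_getElem]
    intro i j hi hj hij
    have h2 := h1 i j hi hj hij
    have h3 := mem_filter.mp (mem_toList.mp (List.getElem_mem hi))
    have h4 := mem_filter.mp (mem_toList.mp (List.getElem_mem hj))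
    exact QC_comm A hh _ _ (cls_disj A _ _ (h3.2.trans h4.2.symm) h2)

lemma pepo_TC {R w₀ w₁ q : ℕ} {γ' γ'' ε : ℝ} {h : Matrix (LConf d r) (LConf d r) ℂ} (hd : 0 < d)
    (A : Adm L r R w₀ w₁ q γ' γ'' ε) (hh : h.PosSemidef) (k : Fin 9) :
    IsPEPO (d ^ (2 * (9 * R ^ 2))) (mat (TC L h R w₀ w₁ k)) := by
  rw [TC_eq A hh k]
  refine pepo_prod hd _ (fun c => hull R (w₀ + r) c) ?_ (fun c => hull_nonempty A.hR A.hRL c)
    (fun c => hull_conn A.hR A.hRL A.hW c) _ (fun c => hull_card A.hR A.hRL A.hW c) _ ?_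
  · have h1 : (univ.filter fun c : CI L R => cls c = k).toList.Nodup := nodup_toList _
    rw [List.Nodup, List.pairwise_iff_getElem] at h1
    rw [List.pairwise_iff_getElem]
    intro i j hi hj hij
    have h2 := h1 i j hi hj hij
    have h3 := mem_filter.mp (mem_toList.mp (List.getElem_mem hi))
    have h4 := mem_filter.mp (mem_toList.mp (List.getElem_mem hj))
    exact cls_disj A _ _ (h3.2.trans h4.2.symm) h2
  · intro c
    have h1 := QC_localOn A.hrL hh A.w_le c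
    have h2 : (1 : Hil d L →L[ℂ] Hil d L) - QC h R w₀ w₁ c = 1 + (-1 : ℂ) • QC h R w₀ w₁ c := by
      exact sub_eq_one_add_smul _
    rw [h2]
    exact ((localOn_one _).add (h1.smul _)).add (h1.smul _)

lemma apply_eq_mat (O : Hil d L →L[ℂ] Hil d L) (Φ : Hil d L) (s : Conf d L) :
    (O Φ) s = ∑ f, mat O s f * Φ f := by
  have h1 : O = Matrix.toEuclideanCLM (𝕜 := ℂ) (n := Conf d L) (mat O) := by
    unfold mat
    rw [StarAlgEquiv.apply_symm_apply]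
  conv_lhs => rw [h1]
  rfl

lemma isPEPS_op {D B : ℕ} {O : Hil d L →L[ℂ] Hil d L} (hO : IsPEPO B (mat O)) {Φ : Hil d L}
    (hΦ : IsPEPS D Φ) : IsPEPS (D * B) (O Φ) :=
  pepo_apply hO hΦ _ fun s => apply_eq_mat O Φ s

lemma isPEPS_list {B : ℕ} (l : List (Hil d L →L[ℂ] Hil d L)) (hl : ∀ O ∈ l, IsPEPO B (mat O))
    {D : ℕ} {Φ : Hil d L} (hΦ : IsPEPS D Φ) : IsPEPS (D * B ^ l.length) (l.prod Φ) := by
  induction l with
  | nil => simpa using hΦ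
  | cons O l ih =>
    rw [List.prod_cons, List.length_cons, pow_succ, ← mul_assoc]
    exact isPEPS_op (hl O (by simp)) (ih fun O' hO' => hl O' (by simp [hO']))

lemma star_TC (h : Matrix (LConf d r) (LConf d r) ℂ) (R w₀ w₁ : ℕ) (k : Fin 9) :
    star (TC L h R w₀ w₁ k) = TC L h R w₀ w₁ k := by
  unfold TC
  rw [NormedSpace.star_exp, star_neg, star_sum]
  congr 2
  exact sum_congr rfl fun c _ => (isStar_QC h R w₀ w₁ c).isSelfAdjoint.star_eq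

lemma star_list_prod {A : Type*} [Monoid A] [StarMul A] (l : List A) :
    star l.prod = (l.reverse.map star).prod := by
  induction l with
  | nil => simp
  | cons a l ih => simp [ih]

lemma isPEPS_TT {R w₀ w₁ q : ℕ} {γ' γ'' ε : ℝ} {h : Matrix (LConf d r) (LConf d r) ℂ} (hd : 0 < d)
    (A : Adm L r R w₀ w₁ q γ' γ'' ε) (hh : h.PosSemidef) {D : ℕ} {Φ : Hil d L} (hΦ : IsPEPS D Φ) :
    IsPEPS (D * (d ^ (2 * (9 * R ^ 2))) ^ 18) ((TT L h R w₀ w₁ * star (TT L h R w₀ w₁)) Φ) := by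
  have h1 : IsPEPS (D * (d ^ (2 * (9 * R ^ 2))) ^ 9) (star (TT L h R w₀ w₁) Φ) := by
    unfold TT
    rw [star_list_prod]
    have := isPEPS_list (B := d ^ (2 * (9 * R ^ 2)))
      (((List.ofFn fun k : Fin 9 => TC L h R w₀ w₁ k).reverse.map star)) ?_ hΦ
    · simpa using this
    · intro O hO
      rw [List.mem_map] at hO
      obtain ⟨O', hO', rfl⟩ := hO
      rw [List.mem_reverse, List.mem_ofFn] at hO'
      obtain ⟨k, rfl⟩ := hO'
      rw [star_TC]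
      exact pepo_TC hd A hh k
  have h2 := isPEPS_list (B := d ^ (2 * (9 * R ^ 2)))
      (List.ofFn fun k : Fin 9 => TC L h R w₀ w₁ k) (by
        intro O hO
        rw [List.mem_ofFn] at hO
        obtain ⟨k, rfl⟩ := hO
        exact pepo_TC hd A hh k) h1
  rw [List.length_ofFn, mul_assoc, ← pow_add] at h2
  exact h2

lemma isPEPS_TT_pow {R w₀ w₁ q : ℕ} {γ' γ'' ε : ℝ} {h : Matrix (LConf d r) (LConf d r) ℂ} (hd : 0 < d)
    (A : Adm L r R w₀ w₁ q γ' γ'' ε) (hh : h.PosSemidef) (P : ℕ) {D : ℕ} {Φ : Hil d L}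
    (hΦ : IsPEPS D Φ) :
    IsPEPS (D * ((d ^ (2 * (9 * R ^ 2))) ^ 18) ^ P)
      (((TT L h R w₀ w₁ * star (TT L h R w₀ w₁)) ^ P) Φ) := by
  induction P with
  | zero => simpa using hΦ
  | succ P ih =>
    have h1 := isPEPS_TT hd A hh ih
    rw [mul_assoc, ← pow_succ] at h1
    rw [pow_succ' (TT L h R w₀ w₁ * star (TT L h R w₀ w₁)) P]
    exact h1

end Filter

/-! ### The bound for one torus -/

section Core

/-- `C₀` is a constant for the flow bound. -/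
def FlowC (K Δ : ℕ) (C₀ : ℝ) : Prop := ∀ (A : Type) [NormedRing A]
    [NormedAlgebra ℂ A] [CompleteSpace A] [NormOneClass A] (ι : Type) [Fintype ι]
    [DecidableEq ι] (Q : ι → A) (_hQ : ∀ i, Q i * Q i = Q i) (_hn : ∀ i, ‖Q i‖ ≤ 1)
    (nb : ι → ι → Prop) (_hsym : ∀ i j, nb i j → nb j i)
    (_hcomm : ∀ i j, ¬ nb i j → Q i * Q j = Q j * Q i) (_hdeg : ∀ i, {j | nb i j}.ncard ≤ Δ)
    (cls : ι → Fin K) (_hcls : ∀ i j, cls i = cls j → i ≠ j → ¬ nb i j)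
    (ε : ℝ) (_hε : ∀ i j, ‖Q i * Q j - Q j * Q i‖ ≤ ε),
    ‖NormedSpace.exp (∑ i, Q i) * (List.ofFn fun c : Fin K =>
      NormedSpace.exp (-∑ i ∈ univ.filter (fun i => cls i = c), Q i)).prod‖ ≤
      Real.exp (C₀ * Fintype.card ι * ε)

variable {d L r : ℕ} [NeZero L]

lemma norm_exp_TT {R w₀ w₁ q : ℕ} {γ γ₂ ε C₀ : ℝ} {h : Matrix (LConf d r) (LConf d r) ℂ}
    (hd : 2 ≤ d) (A : Adm L r R w₀ w₁ q (γ / (entNorm h + 1)) (γ₂ / (entNorm h + 1)) ε)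
    (hh : h.PosSemidef) (hγ : 0 < γ) (H : LG L h (6 * R) γ γ₂) (hC : 0 ≤ C₀) (hC₀ : FlowC 9 9 C₀)
    (hs3 : C₀ * (L : ℝ) ^ 2 * ε ≤ Real.log 2 / 2) :
    ‖NormedSpace.exp (NN L h R w₀ w₁) * TT L h R w₀ w₁‖ ^ 2 ≤ 2 := by
  have : Nonempty (Conf d L) := ⟨fun _ => ⟨0, by omega⟩⟩
  have : Nontrivial (Hil d L) := by
    refine ⟨⟨EuclideanSpace.single (fun _ => ⟨0, by omega⟩) 1, 0, ?_⟩⟩
    intro h0
    have h1 := congrArg (fun x : Hil d L => x (fun _ => ⟨0, by omega⟩)) h0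
    simp at h1
  have hε0 := A.hε0
  have key := hC₀ (Hil d L →L[ℂ] Hil d L) (CI L R) (QC h R w₀ w₁)
    (fun c => (isStar_QC h R w₀ w₁ c).isIdempotentElem.eq) (fun c => (isStar_QC h R w₀ w₁ c).norm_le)
    (fun c c' => ¬ Disjoint (hull R (w₀ + r) c) (hull R (w₀ + r) c'))
    (fun c c' h1 h2 => h1 h2.symm) (fun c c' h1 => QC_comm A hh c c' (not_not.mp h1))
    (fun c => hull_deg A.hR A.hRL A.hW c) cls (fun c c' h1 h2 => not_not.mpr (cls_disj A c c' h1 h2))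
    ε (A.comm hh hγ H)
  have h1 : C₀ * (Fintype.card (CI L R) : ℝ) * ε ≤ Real.log 2 / 2 := by
    refine le_trans ?_ hs3
    have h2 : (Fintype.card (CI L R) : ℝ) ≤ (L : ℝ) ^ 2 := by
      rw [card_CI]
      push_cast
      gcongr
      exact_mod_cast Nat.div_le_self L R
    gcongr
  have h2 : ‖NormedSpace.exp (NN L h R w₀ w₁) * TT L h R w₀ w₁‖ ≤ Real.exp (Real.log 2 / 2) :=
    key.trans (Real.exp_le_exp.mpr h1)
  calc ‖NormedSpace.exp (NN L h R w₀ w₁) * TT L h R w₀ w₁‖ ^ 2 ≤ (Real.exp (Real.log 2 / 2)) ^ 2 := by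
        gcongr
    _ = 2 := by
        rw [← Real.exp_nat_mul]
        have : ((2 : ℕ) : ℝ) * (Real.log 2 / 2) = Real.log 2 := by push_cast; ring
        rw [this, Real.exp_log (by norm_num)]

lemma isSelfAdjoint_sum' {A : Type} [Ring A] [StarRing A] {ι : Type} (s : Finset ι) (f : ι → A)
    (hf : ∀ i, IsSelfAdjoint (f i)) : IsSelfAdjoint (∑ i ∈ s, f i) :=
  isSelfAdjoint_sum s fun i _ => hf i

lemma star_NN (h : Matrix (LConf d r) (LConf d r) ℂ) (R w₀ w₁ : ℕ) :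
    IsSelfAdjoint (NN L h R w₀ w₁) := by
  exact isSelfAdjoint_sum' (A := Hil d L →L[ℂ] Hil d L) univ (QC h R w₀ w₁)
    fun c => (isStar_QC h R w₀ w₁ c).isSelfAdjoint

lemma exp_apply_of_zero (X : Hil d L →L[ℂ] Hil d L) (Ψ : Hil d L) (hX : X Ψ = 0) :
    NormedSpace.exp X Ψ = Ψ := by
  have h1 : HasSum (fun n : ℕ => ((n.factorial : ℂ)⁻¹) • X ^ n) (NormedSpace.exp X) :=
    NormedSpace.exp_series_hasSum_exp' (𝕂 := ℂ) X
  have h2 : HasSum (fun n : ℕ => (((n.factorial : ℂ)⁻¹) • X ^ n) Ψ) (NormedSpace.exp X Ψ) :=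
    h1.mapL (ContinuousLinearMap.apply ℂ (Hil d L) Ψ)
  have h3 : HasSum (fun n : ℕ => if n = 0 then Ψ else 0) Ψ := hasSum_ite_eq 0 Ψ
  refine h2.unique ?_
  convert h3 using 1
  funext n
  cases n with
  | zero => simp
  | succ n => simp [pow_succ, hX]

lemma QC_zero {h : Matrix (LConf d r) (LConf d r) ℂ} (hrL : r ≤ L) (hh : h.PosSemidef) {Ψ : Hil d L}
    (hΨ : ham L h Ψ = 0) (R w₀ w₁ : ℕ) (c : CI L R) : QC h R w₀ w₁ c Ψ = 0 := by
  have h0 : hamOn h univ Ψ = 0 := by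
    unfold hamOn
    exact hΨ
  have h1 : GA h (univ : Finset (Site L)) Ψ = Ψ := by
    unfold GA
    exact Submodule.starProjection_eq_self_iff.mpr h0
  have h2 : ∀ v, Qv h v Ψ = 0 := by
    intro v
    have h3 := (isKer_GA hrL hh (univ : Finset (Site L))).zero v (mem_univ v)
    have h4 := congrArg (fun T : Hil d L →L[ℂ] Hil d L => T Ψ) h3
    rw [mul_apply_eq_comp] at h4
    rw [h1] at h4
    simpa using h4
  have h3 : GA h (cellS R w₀ w₁ c) Ψ = Ψ := (isKer_GA hrL hh _).fix Ψ fun v _ => h2 v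
  unfold QC
  rw [sub_apply, h3]
  simp

lemma TC_fix {h : Matrix (LConf d r) (LConf d r) ℂ} (hrL : r ≤ L) (hh : h.PosSemidef) {Ψ : Hil d L}
    (hΨ : ham L h Ψ = 0) (R w₀ w₁ : ℕ) (k : Fin 9) : TC L h R w₀ w₁ k Ψ = Ψ := by
  unfold TC
  refine exp_apply_of_zero _ _ ?_
  rw [neg_apply, _root_.sum_apply]
  rw [sum_eq_zero fun c _ => QC_zero hrL hh hΨ R w₀ w₁ c, neg_zero]

lemma list_fix (l : List (Hil d L →L[ℂ] Hil d L)) (Ψ : Hil d L) (hl : ∀ O ∈ l, O Ψ = Ψ) :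
    l.prod Ψ = Ψ := by
  induction l with
  | nil => simp
  | cons O l ih =>
    rw [List.prod_cons]
    have h1 : (O * l.prod) Ψ = O (l.prod Ψ) := rfl
    rw [h1, ih fun O' hO' => hl O' (by simp [hO']), hl O (by simp)]

lemma TT_fix {h : Matrix (LConf d r) (LConf d r) ℂ} (hrL : r ≤ L) (hh : h.PosSemidef) {Ψ : Hil d L}
    (hΨ : ham L h Ψ = 0) (R w₀ w₁ : ℕ) : TT L h R w₀ w₁ Ψ = Ψ ∧ star (TT L h R w₀ w₁) Ψ = Ψ := by
  constructor
  · unfold TT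
    refine list_fix _ _ fun O hO => ?_
    rw [List.mem_ofFn] at hO
    obtain ⟨k, rfl⟩ := hO
    exact TC_fix hrL hh hΨ R w₀ w₁ k
  · unfold TT
    rw [star_list_prod]
    refine list_fix _ _ fun O hO => ?_
    rw [List.mem_map] at hO
    obtain ⟨O', hO', rfl⟩ := hO
    rw [List.mem_reverse, List.mem_ofFn] at hO'
    obtain ⟨k, rfl⟩ := hO'
    rw [star_TC]
    exact TC_fix hrL hh hΨ R w₀ w₁ k

/-- The exponent of the counting bound. -/
noncomputable def kap (L R : ℕ) (κ : ℝ) : ℝ := κ * (1 + 9 * R ^ 2) + Real.log (1 + (L : ℝ) ^ 2)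

theorem core_peps {R w₀ w₁ q : ℕ} {γ γ₂ ε C₀ κ : ℝ} {h : Matrix (LConf d r) (LConf d r) ℂ}
    (hd : 2 ≤ d) (A : Adm L r R w₀ w₁ q (γ / (entNorm h + 1)) (γ₂ / (entNorm h + 1)) ε)
    (hh : h.PosSemidef) (hγ : 0 < γ) (hγ₂ : 0 < γ₂) (H : LG L h (6 * R) γ γ₂) (hC : 0 ≤ C₀) (hC₀ : FlowC 9 9 C₀)
    (hs3 : C₀ * (L : ℝ) ^ 2 * ε ≤ Real.log 2 / 2) (hκ : 1 ≤ κ) (hF : FewZero L h κ)
    (Ψ : Hil d L) (hΨ : ‖Ψ‖ = 1) (hΨ0 : ham L h Ψ = 0)
    (hu : ∀ φ : Hil d L, ham L h φ = 0 → ∃ c : ℂ, φ = c • Ψ) (p' : ℕ) :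
    ∃ Φ : Hil d L, IsPEPS (((d ^ (2 * (9 * R ^ 2))) ^ 18) ^ (⌈kap L R κ⌉₊ + 1 + p')) Φ ∧
      ‖Φ - Ψ‖ ≤ Real.exp (8 * kap L R κ - p' / 2) := by
  have hfix := TT_fix A.hrL hh hΨ0 R w₀ w₁
  have hR := A.hR
  have hκ' : 1 ≤ kap L R κ := by
    unfold kap
    have h1 : 0 ≤ Real.log (1 + (L : ℝ) ^ 2) := Real.log_nonneg (by nlinarith [sq_nonneg (L : ℝ)])
    nlinarith [sq_nonneg (R : ℝ)]
  have hNΨ : NN L h R w₀ w₁ Ψ = 0 := by
    unfold NN
    rw [_root_.sum_apply]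
    exact sum_eq_zero fun c _ => QC_zero A.hrL hh hΨ0 R w₀ w₁ c
  have hcount : ∀ (E₀ : ℝ) (V : Submodule ℂ (Hil d L)), 0 ≤ E₀ →
      (∀ v ∈ V, (⟪v, NN L h R w₀ w₁ v⟫_ℂ).re ≤ E₀ * ‖v‖ ^ 2) →
      (Module.finrank ℂ V : ℝ) ≤ Real.exp (kap L R κ * (2 * E₀ + 2)) := by
    intro E₀ V hE hV
    refine count_exp A hh hγ hγ₂ H hκ hF E₀ hE V fun v hv => ?_
    rw [← inner_NN]
    exact hV v hv
  have hone : ∀ V : Submodule ℂ (Hil d L),
      (∀ v ∈ V, (⟪v, NN L h R w₀ w₁ v⟫_ℂ).re ≤ 3 / 4 * ‖v‖ ^ 2) → Module.finrank ℂ V ≤ 1 := by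
    intro V hV
    have h1 := count_cells A hh hγ hγ₂ H 0 (3 / 4) (by norm_num) V fun v hv => by
      rw [← inner_NN]; exact hV v hv
    refine h1.trans ?_
    have h2 : (univ.filter fun S : Finset (CI L R) => S.card ≤ 0) = {∅} := by
      ext S
      simp
    rw [h2, sum_singleton]
    have h3 : reg R w₀ w₁ (∅ : Finset (CI L R)) = univ := by
      unfold reg
      rw [compl_empty]
      ext u
      simp only [mem_biUnion, mem_univ, true_and, iff_true]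
      exact cell_cover A.hR A.hRL u
    rw [h3]
    have h4 : LinearMap.ker (hamOn h (univ : Finset (Site L)) : Hil d L →ₗ[ℂ] Hil d L) ≤
        Submodule.span ℂ {Ψ} := by
      intro φ hφ
      obtain ⟨c, hc⟩ := hu φ hφ
      rw [Submodule.mem_span_singleton]
      exact ⟨c, hc.symm⟩
    exact (Submodule.finrank_mono h4).trans ((finrank_span_le_card {Ψ}).trans (by simp))
  have hpos : ∀ x : Hil d L, 0 ≤ (⟪x, NN L h R w₀ w₁ x⟫_ℂ).re := fun x =>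
    le_of_le_of_eq (sum_nonneg fun c _ => sq_nonneg _) (inner_NN h R w₀ w₁ x).symm
  have hexp := norm_exp_TT hd A hh hγ H hC hC₀ hs3
  have hself := star_NN h R w₀ w₁ (L := L)
  have hpeps : ∀ s : Conf d L, IsPEPS (((d ^ (2 * (9 * R ^ 2))) ^ 18) ^ (⌈kap L R κ⌉₊ + 1 + p'))
      (((TT L h R w₀ w₁ * star (TT L h R w₀ w₁)) ^ (⌈kap L R κ⌉₊ + 1 + p'))
        (EuclideanSpace.basisFun (Conf d L) ℂ s)) := by
    intro s
    rw [EuclideanSpace.basisFun_apply]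
    have := isPEPS_TT_pow (by omega : 0 < d) A hh (⌈kap L R κ⌉₊ + 1 + p') (isPEPS_single s)
    rwa [one_mul] at this
  generalize NN L h R w₀ w₁ = N at *
  generalize TT L h R w₀ w₁ = T at *
  generalize kap L R κ = κ' at *
  obtain ⟨s, c, hs⟩ := pick_vector (EuclideanSpace.basisFun (Conf d L) ℂ) N
    T hself hpos hexp Ψ hΨ hNΨ hfix.1 hfix.2 κ' hκ' hcount hone p'
  exact ⟨_, (hpeps s).smul c, hs⟩

lemma inner_hamOn (h : Matrix (LConf d r) (LConf d r) ℂ) (B : Finset (Site L)) (x : Hil d L) :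
    (⟪x, hamOn h B x⟫_ℂ).re = ∑ u ∈ B, (⟪x, locOp L h u x⟫_ℂ).re := by
  unfold hamOn
  rw [_root_.sum_apply, inner_sum, Complex.re_sum]

theorem core_count {R w₀ w₁ q : ℕ} {γ γ₂ ε κ : ℝ} {h : Matrix (LConf d r) (LConf d r) ℂ}
    (A : Adm L r R w₀ w₁ q (γ / (entNorm h + 1)) (γ₂ / (entNorm h + 1)) ε) (hh : h.PosSemidef)
    (hγ : 0 < γ) (hγ₂ : 0 < γ₂) (H : LG L h (6 * R) γ γ₂) (hκ : 1 ≤ κ) (hF : FewZero L h κ) (M : ℝ) (hM : 0 ≤ M)
    (V : Submodule ℂ (Hil d L)) (hV : ∀ v ∈ V, (⟪v, ham L h v⟫_ℂ).re ≤ M * ‖v‖ ^ 2) :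
    (Module.finrank ℂ V : ℝ) ≤ Real.exp (kap L R κ * (8 * M / γ + 2)) := by
  have h1 : ∀ v ∈ V, ∑ c : CI L R, ‖QC h R w₀ w₁ c v‖ ^ 2 ≤ 4 * M / γ * ‖v‖ ^ 2 := by
    intro v hv
    have h2 : γ * ∑ c : CI L R, ‖QC h R w₀ w₁ c v‖ ^ 2 ≤ 4 * (⟪v, ham L h v⟫_ℂ).re := by
      rw [mul_sum]
      calc ∑ c : CI L R, γ * ‖QC h R w₀ w₁ c v‖ ^ 2
          ≤ ∑ c : CI L R, ∑ u ∈ cellS R w₀ w₁ c, (⟪v, locOp L h u v⟫_ℂ).re := by
            refine sum_le_sum fun c _ => ?_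
            obtain ⟨v₀, hv₀⟩ := hull_nonempty (W := w₀ + r) A.hR A.hRL c
            have h3 := energy_ge_of_gapAt A.hrL hh (H.small (cellS R w₀ w₁ c) v₀ fun u hu => by
              have := hull_diam A.hR A.hRL A.hW c v₀ u hv₀ (cellS_hull A.hr A.w_le c hu)
              omega) v
            rwa [inner_hamOn] at h3
        _ = ∑ u : Site L, ∑ _c ∈ univ.filter (fun c : CI L R => u ∈ cellS R w₀ w₁ c),
            (⟪v, locOp L h u v⟫_ℂ).re := by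
            rw [sum_comm' (s' := fun u => univ.filter fun c : CI L R => u ∈ cellS R w₀ w₁ c)
              (t' := univ)]
            intro c u
            simp
        _ ≤ ∑ u : Site L, 4 * (⟪v, locOp L h u v⟫_ℂ).re := by
            refine sum_le_sum fun u _ => ?_
            rw [sum_const, nsmul_eq_mul]
            have h3 : ((univ.filter fun c : CI L R => u ∈ cellS R w₀ w₁ c).card : ℝ) ≤ 4 := by
              have h4 : (univ.filter fun c : CI L R => u ∈ cellS R w₀ w₁ c).card ≤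
                  (ph L R w₀ w₁ u).card := by
                refine card_le_card_of_injOn (fun c : CI L R => ((c.1 : ℕ), (c.2 : ℕ))) ?_ ?_
                · intro c hc
                  exact (mem_filter.mp (mem_filter.mp hc).2).2
                · intro c _ c' _ hcc
                  simp only [Prod.mk.injEq] at hcc
                  exact Prod.ext (Fin.ext hcc.1) (Fin.ext hcc.2)
              have hW := A.hW
              have h5 := ph_card (w₀ := w₀) (w₁ := w₁) A.hR A.hRL A.w_le (by omega) u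
              exact_mod_cast h4.trans h5
            have h6 : 0 ≤ (⟪v, locOp L h u v⟫_ℂ).re := by
              have h7 := energy_ge_of_gapAt A.hrL hh (H.all {u}) v
              rw [inner_hamOn, sum_singleton] at h7
              exact le_trans (by positivity) h7
            gcongr
        _ = 4 * (⟪v, ham L h v⟫_ℂ).re := by
            rw [← mul_sum]
            have h3 := inner_hamOn h univ v
            rw [← h3]
            rfl
    have h3 := hV v hv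
    rw [div_mul_eq_mul_div, le_div_iff₀ hγ]
    nlinarith
  have h2 := count_exp A hh hγ hγ₂ H hκ hF (4 * M / γ) (by positivity) V h1
  have h3 : 2 * (4 * M / γ) = 8 * M / γ := by ring
  rw [h3] at h2
  exact h2

end Core

end Pool.Agent.FFG
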