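import Pool.Agent.FFG.Defs

/-!
# One-dimensional geometry of the partition
-/

open Finset
open scoped InnerProductSpace

set_option autoImplicit false
set_option linter.unusedSectionVars false

namespace Pool.Agent.FFG

open Pool.Agent.PEPS953 Pool.Agent.PepsX Pool.Agent.PepsY

section Geometry

variable {L : ℕ} [NeZero L]

theorem g1_div_pos {R : ℕ} (hR : 0 < R) (hRL : R ≤ L) : 1 ≤ L / R :=
  (Nat.one_le_div_iff hR).2 hRL

theorem g1_val_succ (w : ZMod L) : (w + 1).val = (w.val + 1) % L := by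
  rcases Nat.lt_or_ge 1 L with hL | hL
  · have : Fact (1 < L) := ⟨hL⟩
    rw [ZMod.val_add, ZMod.val_one]
  · have hL1 : L = 1 := by
      have := NeZero.pos L
      omega
    subst hL1
    have h0 : ∀ z : ZMod 1, z.val = 0 := fun z => by
      have := ZMod.val_lt z
      omega
    rw [h0, h0]

/-- A change of the index happens only between cyclic neighbours. -/
theorem g1_neighbour {R : ℕ} (hR : 0 < R) (hRL : R ≤ L) (w : ZMod L)
    (h : cidx L R (w + 1) ≠ cidx L R w) : cidx L R (w + 1) = cidx L R w + 1 ∨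
      (cidx L R (w + 1) = 0 ∧ cidx L R w + 1 = L / R) := by
  have h1 := g1_div_pos (L := L) hR hRL
  have hw : w.val < L := ZMod.val_lt w
  have hadd := g1_val_succ w
  rcases Nat.lt_or_ge (w.val + 1) L with hlt | hge
  · rw [Nat.mod_eq_of_lt hlt] at hadd
    unfold cidx at h ⊢
    rw [hadd] at h ⊢
    have hdiv : (w.val + 1) / R = if R ∣ w.val + 1 then w.val / R + 1 else w.val / R := by
      rw [Nat.succ_div]
      split_ifs <;> simp
    split_ifs at hdiv with hd
    · rw [hdiv] at h ⊢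
      left
      omega
    · rw [hdiv] at h
      exact absurd rfl h
  · have hw' : w.val + 1 = L := by omega
    rw [hw', Nat.mod_self] at hadd
    right
    unfold cidx
    rw [hadd, Nat.zero_div, Nat.zero_min]
    refine ⟨rfl, ?_⟩
    have h2 : L / R - 1 ≤ w.val / R := by
      rw [Nat.le_div_iff_mul_le hR]
      have h3 : L / R * R ≤ L := Nat.div_mul_le_self _ _
      have h4 : (L / R - 1) * R = L / R * R - R := by rw [Nat.sub_mul, one_mul]
      omega
    rw [min_eq_right h2]
    omega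

/-- A change of the cell index happens only at the start of a cell. -/
theorem g1_start {R : ℕ} (hR : 0 < R) (hRL : R ≤ L) (w : ZMod L)
    (h : cidx L R (w + 1) ≠ cidx L R w) : ∃ a, a ≤ L / R - 1 ∧ (w + 1).val = a * R := by
  have h1 := g1_div_pos (L := L) hR hRL
  have hw : w.val < L := ZMod.val_lt w
  have hadd := g1_val_succ w
  rcases Nat.lt_or_ge (w.val + 1) L with hlt | hge
  · rw [Nat.mod_eq_of_lt hlt] at hadd
    unfold cidx at h
    rw [hadd] at h ⊢
    have hdiv : (w.val + 1) / R = if R ∣ w.val + 1 then w.val / R + 1 else w.val / R := by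
      rw [Nat.succ_div]
      split_ifs <;> simp
    split_ifs at hdiv with hd
    · refine ⟨w.val / R + 1, ?_, ?_⟩
      · rw [hdiv] at h
        omega
      · rw [← hdiv, Nat.div_mul_cancel hd]
    · rw [hdiv] at h
      exact absurd rfl h
  · have : w.val + 1 = L := by omega
    rw [this, Nat.mod_self] at hadd
    exact ⟨0, Nat.zero_le _, by rw [hadd, zero_mul]⟩

/-- Two starts of cells are at distance at least `R`. -/
theorem g1_far {R : ℕ} (hR : 0 < R) (hRL : R ≤ L) (z : ZMod L) (a b δ : ℕ)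
    (ha : a ≤ L / R - 1) (hz : z.val = a * R) (hzb : (z + (δ : ZMod L)).val = b * R)
    (hδ : 0 < δ) (hδR : δ < R) : False := by
  have h1 := g1_div_pos (L := L) hR hRL
  have hLR : L / R * R ≤ L := Nat.div_mul_le_self _ _
  have hmul : a * R + R ≤ L := by
    calc a * R + R = (a + 1) * R := by ring
      _ ≤ L / R * R := Nat.mul_le_mul_right R (by omega)
      _ ≤ L := hLR
  have hv : (z + (δ : ZMod L)).val = a * R + δ := by
    rw [ZMod.val_add, ZMod.val_natCast, Nat.mod_eq_of_lt (a := δ) (by omega), hz,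
      Nat.mod_eq_of_lt (by omega)]
  rw [hv] at hzb
  have h2 : (a * R + δ) % R = δ := by
    rw [add_comm, Nat.add_mul_mod_self_right, Nat.mod_eq_of_lt hδR]
  rw [hzb, Nat.mul_mod_left] at h2
  omega

theorem g1_change (g : ℕ → ℕ) (i : ℕ) : ∀ j, g i ≠ g (i + j) →
    ∃ k, i ≤ k ∧ k < i + j ∧ g (k + 1) ≠ g k := by
  intro j
  induction j with
  | zero => intro h; exact absurd rfl h
  | succ j ih =>
    intro h
    by_cases h2 : g i = g (i + j)
    · refine ⟨i + j, by omega, by omega, ?_⟩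
      intro h3
      apply h
      rw [h2, ← h3]
      rfl
    · obtain ⟨k, hk1, hk2, hk3⟩ := ih h2
      exact ⟨k, hk1, by omega, hk3⟩

theorem g1_two_changes {R : ℕ} (hR : 0 < R) (hRL : R ≤ L) (y : ZMod L) (k l : ℕ)
    (hkl : k < l) (hlR : l < k + R)
    (hk : cidx L R (y + ((k + 1 : ℕ) : ZMod L)) ≠ cidx L R (y + (k : ZMod L)))
    (hl : cidx L R (y + ((l + 1 : ℕ) : ZMod L)) ≠ cidx L R (y + (l : ZMod L))) : False := by
  have e1 : y + ((k + 1 : ℕ) : ZMod L) = y + (k : ZMod L) + 1 := by push_cast; ring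
  have e2 : y + ((l + 1 : ℕ) : ZMod L) = y + (l : ZMod L) + 1 := by push_cast; ring
  rw [e1] at hk
  rw [e2] at hl
  obtain ⟨a, ha, haz⟩ := g1_start hR hRL _ hk
  obtain ⟨b, hb, hbz⟩ := g1_start hR hRL _ hl
  refine g1_far hR hRL (y + (k : ZMod L) + 1) a b (l - k) ha haz ?_ (by omega) (by omega)
  rw [← hbz]
  congr 1
  rw [Nat.cast_sub hkl.le]
  ring

theorem mem_al {R w : ℕ} (x : ZMod L) (i : ℕ) : i ∈ al L R w x ↔
    ∃ t, t < 2 * w + 1 ∧ cidx L R (x - (w : ZMod L) + (t : ZMod L)) = i := by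
  simp [al]

theorem al_sub {R w δ : ℕ} (x y : ZMod L) (h : cdist x y ≤ δ) :
    al L R w y ⊆ al L R (w + δ) x := by
  intro i hi
  rw [mem_al] at hi ⊢
  obtain ⟨t, ht, rfl⟩ := hi
  unfold cdist at h
  have hm := ZMod.coe_valMinAbs (x - y)
  set m := (x - y).valMinAbs
  have h1 : 0 ≤ (t : ℤ) + δ - m := by omega
  refine ⟨((t : ℤ) + δ - m).toNat, by omega, ?_⟩
  congr 1
  have h2 : ((((t : ℤ) + δ - m).toNat : ℕ) : ZMod L) = (t : ZMod L) + δ - (x - y) := by
    rw [← hm]
    have h3 : (((((t : ℤ) + δ - m).toNat : ℕ) : ℤ) : ZMod L) = (((t : ℤ) + δ - m : ℤ) : ZMod L) := by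
      rw [Int.toNat_of_nonneg h1]
    rw [Int.cast_natCast] at h3
    rw [h3]
    push_cast
    rfl
  rw [h2]
  push_cast
  ring

theorem al_nonempty {R w : ℕ} (x : ZMod L) : (al L R w x).Nonempty := by
  refine ⟨cidx L R (x - (w : ZMod L) + ((0 : ℕ) : ZMod L)), ?_⟩
  rw [mem_al]
  exact ⟨0, by omega, rfl⟩

theorem al_card {R w : ℕ} (hR : 0 < R) (hRL : R ≤ L) (hw : 2 * w + 1 ≤ R) (x : ZMod L) :
    (al L R w x).card ≤ 2 := by
  set g : ℕ → ℕ := fun t => cidx L R (x - (w : ZMod L) + (t : ZMod L)) with hg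
  have hsub : al L R w x ⊆ {g 0, g (2 * w)} := by
    intro c hc
    rw [mem_al] at hc
    obtain ⟨i, hi, rfl⟩ := hc
    simp only [mem_insert, mem_singleton]
    by_contra hcon
    push Not at hcon
    obtain ⟨h1, h2⟩ := hcon
    obtain ⟨k, hk1, hk2, hk3⟩ := g1_change g 0 i (by
      rw [zero_add]
      exact fun h => h1 h.symm)
    obtain ⟨l, hl1, hl2, hl3⟩ := g1_change g i (2 * w - i) (by
      rw [show i + (2 * w - i) = 2 * w by omega]
      exact h2)
    exact g1_two_changes hR hRL (x - (w : ZMod L)) k l (by omega) (by omega) hk3 hl3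
  exact (card_le_card hsub).trans card_le_two

theorem al_lt {R w : ℕ} (hR : 0 < R) (hRL : R ≤ L) (x : ZMod L) {i : ℕ} (hi : i ∈ al L R w x) :
    i < L / R := by
  rw [mem_al] at hi
  obtain ⟨t, _, rfl⟩ := hi
  have h1 := g1_div_pos (L := L) hR hRL
  unfold cidx
  have h2 := min_le_right ((x - (w : ZMod L) + (t : ZMod L)).val / R) (L / R - 1)
  omega

/-- Two different indices met by a short window are cyclic neighbours. -/
theorem al_neighbour {R w : ℕ} (hR : 0 < R) (hRL : R ≤ L) (hw : 2 * w + 1 ≤ R) (x : ZMod L)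
    {i j : ℕ} (hi : i ∈ al L R w x) (hj : j ∈ al L R w x) (hij : i ≠ j) :
    j = i + 1 ∨ i = j + 1 ∨ (i = 0 ∧ j + 1 = L / R) ∨ (j = 0 ∧ i + 1 = L / R) := by
  rw [mem_al] at hi hj
  obtain ⟨t, ht, hti⟩ := hi
  obtain ⟨s, hs, hsj⟩ := hj
  set g : ℕ → ℕ := fun t => cidx L R (x - (w : ZMod L) + (t : ZMod L)) with hg
  have key : ∀ t s : ℕ, t < s → s < 2 * w + 1 → g t ≠ g s →
      g s = g t + 1 ∨ (g s = 0 ∧ g t + 1 = L / R) := by
    intro t s hts hs hne
    obtain ⟨k, hk1, hk2, hk3⟩ := g1_change g t (s - t) (by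
      rw [show t + (s - t) = s by omega]
      exact hne)
    have h1 : g t = g k := by
      by_contra hcon
      obtain ⟨l, hl1, hl2, hl3⟩ := g1_change g t (k - t) (by
        rw [show t + (k - t) = k by omega]
        exact hcon)
      exact g1_two_changes hR hRL (x - (w : ZMod L)) l k (by omega) (by omega) hl3 hk3
    have h2 : g (k + 1) = g s := by
      by_contra hcon
      obtain ⟨l, hl1, hl2, hl3⟩ := g1_change g (k + 1) (s - (k + 1)) (by
        rw [show k + 1 + (s - (k + 1)) = s by omega]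
        exact hcon)
      exact g1_two_changes hR hRL (x - (w : ZMod L)) k l (by omega) (by omega) hk3 hl3
    have e1 : x - (w : ZMod L) + ((k + 1 : ℕ) : ZMod L) = x - (w : ZMod L) + (k : ZMod L) + 1 := by
      push_cast; ring
    have h3 : g (k + 1) = cidx L R (x - (w : ZMod L) + (k : ZMod L) + 1) := by
      rw [hg]
      simp only
      rw [e1]
    rw [h3] at hk3
    have h4 := g1_neighbour hR hRL _ hk3
    rw [← h3] at h4
    change g (k + 1) = g k + 1 ∨ (g (k + 1) = 0 ∧ g k + 1 = L / R) at h4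
    rw [h1, ← h2]
    exact h4
  rcases Nat.lt_trichotomy t s with h | h | h
  · have h1 := key t s h hs (by
      change cidx L R _ ≠ cidx L R _
      rw [hti, hsj]
      exact hij)
    change cidx L R (x - (w : ZMod L) + (s : ZMod L)) =
      cidx L R (x - (w : ZMod L) + (t : ZMod L)) + 1 ∨
      (cidx L R (x - (w : ZMod L) + (s : ZMod L)) = 0 ∧
        cidx L R (x - (w : ZMod L) + (t : ZMod L)) + 1 = L / R) at h1
    rw [hti, hsj] at h1
    tauto
  · exfalso
    subst h
    exact hij (hti.symm.trans hsj)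
  · have h1 := key s t h ht (by
      change cidx L R _ ≠ cidx L R _
      rw [hti, hsj]
      exact hij.symm)
    change cidx L R (x - (w : ZMod L) + (t : ZMod L)) =
      cidx L R (x - (w : ZMod L) + (s : ZMod L)) + 1 ∨
      (cidx L R (x - (w : ZMod L) + (t : ZMod L)) = 0 ∧
        cidx L R (x - (w : ZMod L) + (s : ZMod L)) + 1 = L / R) at h1
    rw [hti, hsj] at h1
    tauto

theorem icol_ne {R w : ℕ} (hR : 0 < R) (hRL : R ≤ L) (hw : 2 * w + 1 ≤ R) (x : ZMod L)
    {i j : Fin (L / R)} (hi : (i : ℕ) ∈ al L R w x) (hj : (j : ℕ) ∈ al L R w x) (hij : i ≠ j) :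
    icol _ i ≠ icol _ j := by
  have h1 := al_neighbour hR hRL hw x hi hj (fun h => hij (Fin.ext h))
  have hij' : (i : ℕ) ≠ j := fun h => hij (Fin.ext h)
  have hi2 := i.2
  have hj2 := j.2
  unfold icol
  split_ifs <;> first | (exfalso; omega) | decide

end Geometry

end Pool.Agent.FFG
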