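import Pool.Agent.FFG.Detect

/-!
# Gluing of ground state projections by the light cone
-/

set_option autoImplicit false
set_option linter.unusedSectionVars false
set_option linter.unusedVariables false

open Finset
open scoped InnerProductSpace

namespace Pool.Agent.FFG

variable {E : Type} [NormedAddCommGroup E] [InnerProductSpace ℂ E] [CompleteSpace E]
variable {ι : Type} [DecidableEq ι]

/-- The layer with number `j`: the positions with colour `j mod K`. -/
noncomputable def layer (A : Finset ι) (col : ι → ℕ) (K j : ℕ) : List ι :=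
  A.toList.filter fun v => col v = j % K

/-- The product of the layers `n - 1, …, 0` (the layer `0` acts first). -/
noncomputable def wall (Q : ι → E →L[ℂ] E) (A : Finset ι) (col : ι → ℕ) (K : ℕ) : ℕ → (E →L[ℂ] E)
  | 0 => 1
  | n + 1 => prodL Q (layer A col K n) * wall Q A col K n

/-- The same with the light cone only. -/
noncomputable def cone (Q : ι → E →L[ℂ] E) (A : Finset ι) (col f : ι → ℕ) (K : ℕ) :
    ℕ → (E →L[ℂ] E)
  | 0 => 1
  | n + 1 => prodL Q ((layer A col K n).filter fun v => f v ≤ n) * cone Q A col f K n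

lemma mem_layer {A : Finset ι} {col : ι → ℕ} {K j : ℕ} {v : ι} :
    v ∈ layer A col K j ↔ v ∈ A ∧ col v = j % K := by simp [layer]

lemma commute_prodL {Q : ι → E →L[ℂ] E} {v : ι} {l : List ι}
    (h : ∀ w ∈ l, Q v * Q w = Q w * Q v) : Commute (1 - Q v) (prodL Q l) := by
  refine Commute.list_prod_right _ _ fun x hx => ?_
  obtain ⟨w, hw, rfl⟩ := List.mem_map.1 hx
  have := h w hw
  simp only [Commute, SemiconjBy, sub_mul, mul_sub, one_mul, mul_one, this]
  abel

lemma prodL_split {Q : ι → E →L[ℂ] E} {l : List ι} (p : ι → Bool)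
    (h : ∀ v ∈ l, ∀ w ∈ l, Q v * Q w = Q w * Q v) :
    prodL Q l = prodL Q (l.filter p) * prodL Q (l.filter fun v => !p v) := by
  rw [← prodL_append]
  refine List.Perm.prod_eq' ((List.filter_append_perm p l).symm.map _) ?_
  rw [List.pairwise_map]
  refine List.pairwise_of_forall_mem_list fun v hv w hw => ?_
  have := h v hv w hw
  simp only [Commute, SemiconjBy, sub_mul, mul_sub, one_mul, mul_one, this]
  abel

lemma wall_eq_cone {Q : ι → E →L[ℂ] E} (hQ : ∀ v, IsStarProjection (Q v)) (ov : ι → ι → Prop)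
    (hov : ∀ v w, ¬ ov v w → Q v * Q w = Q w * Q v) {A B : Finset ι} {col f : ι → ℕ} {K : ℕ}
    (hcol : ∀ v ∈ A ∪ B, ∀ w ∈ A ∪ B, v ≠ w → col v = col w → ¬ ov v w)
    (hf : ∀ v ∈ A ∪ B, ∀ w ∈ A ∪ B, ov v w → f v ≤ f w + 1)
    (hfA : ∀ v ∈ A \ B, f v = 0) {G : E →L[ℂ] E} (hG : IsKer Q B G) (n : ℕ) :
    wall Q (A ∪ B) col K n * G = cone Q (A ∪ B) col f K n * G := by
  induction n with
  | zero => rfl
  | succ n ih =>
    have hsplit := prodL_split (Q := Q) (l := layer (A ∪ B) col K n) (fun v => decide (f v ≤ n))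
      (by
        intro v hv w hw
        by_cases hvw : v = w
        · rw [hvw]
        · exact hov v w (hcol v (mem_layer.1 hv).1 w (mem_layer.1 hw).1 hvw
            ((mem_layer.1 hv).2.trans (mem_layer.1 hw).2.symm)))
    simp only [wall, cone]
    rw [mul_assoc, ih, hsplit, mul_assoc, mul_assoc]
    congr 1
    rw [← mul_assoc]
    -- the upper part commutes with the cone
    have hcomm : ∀ v ∈ (layer (A ∪ B) col K n).filter (fun v => !decide (f v ≤ n)),
        ∀ k ≤ n, Commute (1 - Q v) (cone Q (A ∪ B) col f K k) := by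
      intro v hv k hk
      rw [List.mem_filter] at hv
      have hvn : n < f v := by simpa using hv.2
      induction k with
      | zero => exact Commute.one_right _
      | succ k ihk =>
        refine Commute.mul_right (commute_prodL fun w hw => ?_) (ihk (by omega))
        rw [List.mem_filter] at hw
        have hwk : f w ≤ k := by simpa using hw.2
        refine hov v w fun ho => ?_
        have := hf v (mem_layer.1 hv.1).1 w (mem_layer.1 hw.1).1 ho
        omega
    have hcomm2 : Commute (prodL Q ((layer (A ∪ B) col K n).filter fun v => !decide (f v ≤ n)))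
        (cone Q (A ∪ B) col f K n) := by
      refine Commute.list_prod_left _ _ fun x hx => ?_
      obtain ⟨v, hv, rfl⟩ := List.mem_map.1 hx
      exact hcomm v hv n le_rfl
    rw [hcomm2.eq, mul_assoc, prodL_isKer hG]
    intro v hv
    rw [List.mem_filter] at hv
    have hvn : n < f v := by simpa using hv.2
    have hvAB := (mem_layer.1 hv.1).1
    by_contra hvB
    have hvA : v ∈ A \ B := by
      rcases mem_union.1 hvAB with h | h
      · exact mem_sdiff.2 ⟨h, hvB⟩
      · exact absurd h hvB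
    have := hfA v hvA
    omega

lemma isKer_cone {Q : ι → E →L[ℂ] E} (hQ : ∀ v, IsStarProjection (Q v)) {A B : Finset ι}
    {col f : ι → ℕ} {K N : ℕ} (hfB : ∀ v ∈ B \ A, N ≤ f v) {G : E →L[ℂ] E} (hG : IsKer Q A G) (n : ℕ) (hn : n ≤ N) :
    G * cone Q (A ∪ B) col f K n = G := by
  induction n with
  | zero => simp [cone]
  | succ n ih =>
    simp only [cone]
    rw [← mul_assoc, isKer_prodL hQ hG, ih (by omega)]
    intro v hv
    rw [List.mem_filter] at hv
    have hvn : f v ≤ n := by simpa using hv.2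
    by_contra hvA
    have hvB : v ∈ B \ A := by
      rcases mem_union.1 (mem_layer.1 hv.1).1 with h | h
      · exact absurd h hvA
      · exact mem_sdiff.2 ⟨h, hvA⟩
    have := hfB v hvB
    omega

/-- All positions of `A`, sorted by colour (the colour `0` is last, so acts first). -/
noncomputable def allL (A : Finset ι) (col : ι → ℕ) (K : ℕ) : ℕ → List ι
  | 0 => []
  | n + 1 => layer A col K n ++ allL A col K n

lemma prodL_allL (Q : ι → E →L[ℂ] E) (A : Finset ι) (col : ι → ℕ) (K n : ℕ) :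
    prodL Q (allL A col K n) = wall Q A col K n := by
  induction n with
  | zero => rfl
  | succ n ih => rw [allL, prodL_append, ih, wall]

lemma mem_allL {A : Finset ι} {col : ι → ℕ} {K n : ℕ} (hn : n ≤ K) {v : ι} :
    v ∈ allL A col K n ↔ v ∈ A ∧ col v < n := by
  induction n with
  | zero => simp [allL]
  | succ n ih =>
    rw [allL, List.mem_append, ih (by omega), mem_layer, Nat.mod_eq_of_lt (by omega)]
    constructor
    · rintro (h | h)
      · exact ⟨h.1, by omega⟩
      · exact ⟨h.1, by omega⟩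
    · rintro ⟨h1, h2⟩
      rcases Nat.lt_succ_iff_lt_or_eq.1 h2 with h | h
      · exact Or.inr ⟨h1, h⟩
      · exact Or.inl ⟨h1, h⟩

lemma nodup_allL {A : Finset ι} {col : ι → ℕ} {K n : ℕ} (hn : n ≤ K) :
    (allL A col K n).Nodup := by
  induction n with
  | zero => simp [allL]
  | succ n ih =>
    rw [allL, List.nodup_append']
    refine ⟨(A.nodup_toList).filter _, ih (by omega), fun v hv hv' => ?_⟩
    have h1 := (mem_layer.1 hv).2
    rw [Nat.mod_eq_of_lt (by omega)] at h1
    have h2 := ((mem_allL (by omega)).1 hv').2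
    omega

lemma wall_add (Q : ι → E →L[ℂ] E) (A : Finset ι) (col : ι → ℕ) (K n : ℕ) :
    wall Q A col K (n + K) = wall Q A col K n * wall Q A col K K := by
  induction n with
  | zero => simp [wall]
  | succ n ih =>
    rw [show n + 1 + K = n + K + 1 by ring, wall, ih, wall, mul_assoc]
    congr 2
    simp [layer]

lemma wall_pow (Q : ι → E →L[ℂ] E) (A : Finset ι) (col : ι → ℕ) (K q : ℕ) :
    wall Q A col K (q * K) = wall Q A col K K ^ q := by
  induction q with
  | zero => simp [wall]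
  | succ q ih => rw [Nat.succ_mul, wall_add, ih, pow_succ]


lemma IsKer.mul_of_subset {Q : ι → E →L[ℂ] E} {A B : Finset ι} {GA GB : E →L[ℂ] E}
    (hA : IsKer Q A GA) (hB : IsKer Q B GB) (h : A ⊆ B) : GA * GB = GB := by
  ext x
  refine hA.fix (GB x) fun v hv => ?_
  have := congrArg (fun T : E →L[ℂ] E => T x) (hB.zero v (h hv))
  simpa using this

lemma IsKer.mul_of_subset' {Q : ι → E →L[ℂ] E} {A B : Finset ι} {GA GB : E →L[ℂ] E}
    (hA : IsKer Q A GA) (hB : IsKer Q B GB) (h : A ⊆ B) : GB * GA = GB := by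
  have := congrArg star (hA.mul_of_subset hB h)
  rwa [star_mul_eq hA.proj.isSelfAdjoint hB.proj.isSelfAdjoint,
    hB.proj.isSelfAdjoint.star_eq] at this

lemma IsStarProjection.opNorm_le_one {P : E →L[ℂ] E} (hP : IsStarProjection P) : ‖P‖ ≤ 1 :=
  ContinuousLinearMap.opNorm_le_bound _ zero_le_one fun x => by
    rw [one_mul]
    exact proj_le hP x

/-- F2: gluing of ground state projections. -/
theorem glue_local {ι : Type} [Fintype ι] [DecidableEq ι] {Q : ι → E →L[ℂ] E} {nc : ι → ι → Prop}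
    {g : ℕ} (hg : 0 < g) (hS : Sys Q nc g) {G : Finset ι → E →L[ℂ] E}
    (hG : ∀ A, IsKer Q A (G A)) {γ : ℝ} (hγ : 0 ≤ γ)
    {K : ℕ} (col : ι → Fin K) (hcol : ∀ v w, col v = col w → v ≠ w → ¬ nc v w)
    (A B : Finset ι) (hgap : ∀ x, γ * ‖x - G (A ∪ B) x‖ ^ 2 ≤ ∑ v ∈ A ∪ B, ‖Q v x‖ ^ 2)
    (q : ℕ) (f : ι → ℕ) (hf : ∀ v w, nc v w → f w ≤ f v + 1)
    (hfA : ∀ v ∈ A \ B, f v = 0) (hfB : ∀ v ∈ B \ A, q * K < f v) :
    ‖G A * G B - G B * G A‖ ^ 2 ≤ 4 * ((1 + γ / (g : ℝ) ^ 2)⁻¹) ^ q := by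
  classical
  set c : ι → ℕ := fun v => (col v : ℕ) with hc
  set l := allL (A ∪ B) c K K with hl
  have hlA : ∀ v, v ∈ l ↔ v ∈ A ∪ B := by
    intro v
    rw [hl, mem_allL le_rfl]
    exact ⟨fun h => h.1, fun h => ⟨h, (col v).2⟩⟩
  have hpow := detect hg hS (hG (A ∪ B)) hγ hgap l (nodup_allL le_rfl) hlA q
  change ‖prodL Q l ^ q - G (A ∪ B)‖ ^ 2 ≤ _ at hpow
  rw [hl, prodL_allL, ← wall_pow] at hpow
  have hcol' : ∀ v ∈ A ∪ B, ∀ w ∈ A ∪ B, v ≠ w → c v = c w → ¬ nc v w := fun v _ w _ hvw h =>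
    hcol v w (Fin.ext h) hvw
  have hf' : ∀ v ∈ A ∪ B, ∀ w ∈ A ∪ B, nc v w → f v ≤ f w + 1 := fun v _ w _ h =>
    hf w v (hS.symm v w h)
  have h1 : G A * wall Q (A ∪ B) c K (q * K) * G B = G A * G B := by
    rw [mul_assoc, wall_eq_cone hS.proj nc hS.comm hcol' hf' hfA (hG B), ← mul_assoc,
      isKer_cone hS.proj (fun v hv => (hfB v hv).le) (hG A) _ le_rfl]
  have h2 : G A * G B - G (A ∪ B) =
      G A * (wall Q (A ∪ B) c K (q * K) - G (A ∪ B)) * G B := by
    rw [mul_sub, sub_mul, h1, (hG A).mul_of_subset (hG (A ∪ B)) subset_union_left,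
      (hG B).mul_of_subset' (hG (A ∪ B)) subset_union_right]
  have hA1 := IsStarProjection.opNorm_le_one (hG A).proj
  have hB1 := IsStarProjection.opNorm_le_one (hG B).proj
  set W := wall Q (A ∪ B) c K (q * K) - G (A ∪ B) with hW
  have h3 : ‖G A * G B - G (A ∪ B)‖ ≤ ‖W‖ := by
    rw [h2]
    calc ‖G A * W * G B‖ ≤ ‖G A * W‖ * ‖G B‖ := norm_mul_le _ _
      _ ≤ (‖G A‖ * ‖W‖) * ‖G B‖ := mul_le_mul_of_nonneg_right (norm_mul_le _ _) (norm_nonneg _)
      _ ≤ (1 * ‖W‖) * 1 := by
          refine mul_le_mul (mul_le_mul_of_nonneg_right hA1 (norm_nonneg _)) hB1 (norm_nonneg _) ?_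
          positivity
      _ = ‖W‖ := by ring
  set S := G A * G B - G (A ∪ B) with hSdef
  have h4 : G A * G B - G B * G A = S - star S := by
    rw [hSdef, star_sub, star_mul_eq (hG A).proj.isSelfAdjoint (hG B).proj.isSelfAdjoint,
      (hG (A ∪ B)).proj.isSelfAdjoint.star_eq]
    abel
  have h5 : ‖star S‖ = ‖S‖ := by
    rw [ContinuousLinearMap.star_eq_adjoint]
    exact LinearIsometryEquiv.norm_map _ _
  have h6 : ‖G A * G B - G B * G A‖ ≤ 2 * ‖W‖ := by
    rw [h4]
    refine (norm_sub_le _ _).trans ?_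
    rw [h5]
    linarith
  calc ‖G A * G B - G B * G A‖ ^ 2 ≤ (2 * ‖W‖) ^ 2 := pow_le_pow_left₀ (norm_nonneg _) h6 2
    _ = 4 * ‖W‖ ^ 2 := by ring
    _ ≤ _ := mul_le_mul_of_nonneg_left hpow (by norm_num)

end Pool.Agent.FFG
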