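import Pool.Agent.FFG.Family
import Pool.Agent.FFG.Exotic
import Pool.Agent.PEPS953.Transfer

/-!
# The statement in plain terms
-/

open Finset
open scoped InnerProductSpace ComplexOrder

set_option autoImplicit false
set_option linter.unusedSectionVars false

namespace Pool.Agent.FFG.Plain

open Pool.Agent.PEPS953.Plain

variable {d r : ℕ}

/-- The circular distances of the coordinates of `u` and `v` are at most `s`. -/
def Near {L : ℕ} (s : ℕ) (u v : Site L) : Prop :=
  (u.1 - v.1).valMinAbs.natAbs ≤ s ∧ (u.2 - v.2).valMinAbs.natAbs ≤ s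

/-- The sum of the terms of the Hamiltonian at the positions in `A`. -/
noncomputable def hamOn (L : ℕ) [NeZero L] (h : Matrix (LConf d r) (LConf d r) ℂ)
    (A : Finset (Site L)) : Matrix (Conf d L) (Conf d L) ℂ := ∑ v ∈ A, translate L h v

/-- Every nonzero eigenvalue of the partial Hamiltonian of `A` is at least `γ`. -/
def GapAt (L : ℕ) [NeZero L] (h : Matrix (LConf d r) (LConf d r) ℂ) (A : Finset (Site L))
    (γ : ℝ) : Prop :=
  ∀ (E : ℝ) (φ : Vec d L), φ ≠ 0 → (hamOn L h A).mulVec φ = (E : ℂ) • φ → E = 0 ∨ γ ≤ E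

/-- The local gap condition: the nonzero eigenvalues of the partial Hamiltonian of a region are
at least `1 / (C₀ (log L) ^ k₀)` if the region is contained in a ball of radius
`(log L) ^ (k₀ + 2)`, and at least `1 / L ^ a` in general. -/
def LocallyGapped (L : ℕ) [NeZero L] (h : Matrix (LConf d r) (LConf d r) ℂ) (k₀ a : ℕ)
    (C₀ : ℝ) : Prop :=
  (∀ (A : Finset (Site L)) (v₀ : Site L), (∀ u ∈ A, Near ⌊(Real.log L) ^ (k₀ + 2)⌋₊ v₀ u) →
    GapAt L h A (1 / (C₀ * (Real.log L) ^ k₀))) ∧ ∀ A : Finset (Site L), GapAt L h A (1 / (L : ℝ) ^ a)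

/-- If the terms at the positions in `S` are removed, the space of the zero-energy vectors has
dimension at most `exp (κ (1 + |S|))`. -/
def FewZero (L : ℕ) [NeZero L] (h : Matrix (LConf d r) (LConf d r) ℂ) (κ : ℝ) : Prop :=
  ∀ S : Finset (Site L), (Module.finrank ℂ (LinearMap.ker (hamOn L h Sᶜ).mulVecLin) : ℝ) ≤
    Real.exp (κ * (1 + S.card))

open scoped Classical in
/-- The operator `O` acts on the sites in `X` only. -/
def ActsOn {L : ℕ} [NeZero L] (X : Finset (Site L)) (O : Matrix (Conf d L) (Conf d L) ℂ) : Prop :=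
  ∃ m : (X → Fin d) → (X → Fin d) → ℂ, ∀ s s', O s s' =
    if ∀ u, u ∉ X → s u = s' u then m (fun u => s u) (fun u => s' u) else 0

/-- No exotic zero-energy states: a vector `x ≠ 0` of zero energy for all the terms outside `S`
cannot be perfectly distinguished from `Ψ` by a measurement at distance more than `ρ` from `S`.
That is, if a projection `P` which acts on sites at distance more than `ρ` from `S` fixes `Ψ`, then
`P x ≠ 0`. -/
def NoExotic (L : ℕ) [NeZero L] (h : Matrix (LConf d r) (LConf d r) ℂ) (Ψ : Vec d L) (ρ : ℕ) :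
    Prop :=
  ∀ (S X : Finset (Site L)) (x : Vec d L) (P : Matrix (Conf d L) (Conf d L) ℂ), x ≠ 0 →
    (hamOn L h Sᶜ).mulVec x = 0 → (∀ u ∈ X, ∀ v ∈ S, ¬ Near ρ v u) → ActsOn X P →
    P.IsHermitian → P * P = P → P.mulVec Ψ = Ψ → P.mulVec x ≠ 0

/-! ### Transfer -/

open Pool.Agent.PEPS953 (up up_ofLp up_sub nrm_eq ip_eq isGapped_iff up_smul up_ne_zero Hil)

variable {L : ℕ} [NeZero L]

lemma up_hamOn (h : Matrix (LConf d r) (LConf d r) ℂ) (A : Finset (Site L)) (x : Vec d L) :
    up ((hamOn L h A).mulVec x) = FFG.hamOn h A (up x) := by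
  have h1 : (FFG.hamOn h A : Hil d L →L[ℂ] Hil d L) =
      Matrix.toEuclideanCLM (𝕜 := ℂ) (n := Conf d L) (hamOn L h A) := by
    unfold FFG.hamOn hamOn Pool.Agent.PEPS953.locOp
    rw [map_sum]
    rfl
  rw [h1]
  rfl

lemma gapAt_iff (h : Matrix (LConf d r) (LConf d r) ℂ) (A : Finset (Site L)) (γ : ℝ) :
    GapAt L h A γ ↔ FFG.GapAt h A γ := by
  have key : ∀ (E' : ℝ) (φ : Vec d L), (hamOn L h A).mulVec φ = (E' : ℂ) • φ ↔
      FFG.hamOn h A (up φ) = (E' : ℂ) • up φ := by
    intro E' φ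
    rw [← up_hamOn, ← up_smul]
    exact ⟨fun hh => congrArg up hh, fun hh => congrArg WithLp.ofLp hh⟩
  constructor
  · intro H E' φ hφ hE
    exact H E' φ.ofLp ((up_ne_zero _).mp hφ) ((key E' _).mpr hE)
  · intro H E' φ hφ hE
    exact H E' (up φ) ((up_ne_zero _).mpr hφ) ((key E' _).mp hE)

lemma near_iff (s : ℕ) (u v : Site L) : Near s u v ↔ sdist u v ≤ s := by
  unfold Near sdist cdist
  rw [max_le_iff]

lemma lg_of_locallyGapped {h : Matrix (LConf d r) (LConf d r) ℂ} {k₀ a : ℕ} {C₀ : ℝ}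
    (H : LocallyGapped L h k₀ a C₀) :
    LG L h ⌊(Real.log L) ^ (k₀ + 2)⌋₊ (1 / (C₀ * (Real.log L) ^ k₀)) (1 / (L : ℝ) ^ a) :=
  ⟨fun A v₀ hA => (gapAt_iff h A _).mp (H.1 A v₀ fun u hu => (near_iff _ _ _).mpr (hA u hu)),
    fun A => (gapAt_iff h A _).mp (H.2 A)⟩

/-- Submodules in the two models. -/
noncomputable def upL : Vec d L ≃ₗ[ℂ] Hil d L := (WithLp.linearEquiv 2 ℂ (Conf d L → ℂ)).symm

lemma upL_apply (x : Vec d L) : upL x = up x := rfl

lemma fewZero_iff (h : Matrix (LConf d r) (LConf d r) ℂ) (κ : ℝ) :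
    FewZero L h κ ↔ FFG.FewZero L h κ := by
  have key : ∀ A : Finset (Site L), Module.finrank ℂ (LinearMap.ker (hamOn L h A).mulVecLin) =
      Module.finrank ℂ (LinearMap.ker (FFG.hamOn h A : Hil d L →ₗ[ℂ] Hil d L)) := by
    intro A
    have h1 : (LinearMap.ker (hamOn L h A).mulVecLin).map (upL (d := d) (L := L)).toLinearMap =
        LinearMap.ker (FFG.hamOn h A : Hil d L →ₗ[ℂ] Hil d L) := by
      ext y
      rw [Submodule.mem_map]
      constructor
      · rintro ⟨x, hx, rfl⟩
        rw [LinearMap.mem_ker, Matrix.mulVecLin_apply] at hx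
        rw [LinearMap.mem_ker]
        have h2 := up_hamOn h A x
        rw [hx] at h2
        exact h2.symm
      · intro hy
        rw [LinearMap.mem_ker] at hy
        refine ⟨y.ofLp, ?_, rfl⟩
        rw [LinearMap.mem_ker, Matrix.mulVecLin_apply]
        have h2 := up_hamOn h A y.ofLp
        rw [up_ofLp] at h2
        have h3 : up ((hamOn L h A).mulVec y.ofLp) = 0 := h2.trans hy
        exact congrArg WithLp.ofLp h3
    rw [← h1]
    exact (LinearEquiv.finrank_map_eq (upL (d := d) (L := L)) _).symm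
  unfold FewZero FFG.FewZero
  simp_rw [key]

lemma localOn_of_actsOn {X : Finset (Site L)} {O : Matrix (Conf d L) (Conf d L) ℂ}
    (H : ActsOn X O) : LocalOn X (Matrix.toEuclideanCLM (𝕜 := ℂ) (n := Conf d L) O) := by
  classical
  obtain ⟨m, hm⟩ := H
  rw [localOn_iff]
  intro u hu a b s s'
  have e : mat (Matrix.toEuclideanCLM (𝕜 := ℂ) (n := Conf d L) O) = O :=
    StarAlgEquiv.symm_apply_apply _ _
  rw [e, hm, hm]
  have e1 : ∀ (t : Conf d L) (c : Fin d), (fun v : X => Function.update t u c v) =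
      fun v : X => t v := by
    intro t c
    funext v
    have hv : (v : Site L) ≠ u := fun h => hu (by rw [← h]; exact v.2)
    exact Function.update_of_ne hv _ _
  rw [e1 s b, e1 s' a]
  have e2 : (∀ v, v ∉ X → Function.update s u b v = s' v) ↔
      (b = s' u ∧ ∀ v, v ∉ X → v ≠ u → s v = s' v) := by
    constructor
    · intro h
      refine ⟨?_, fun v hv hvu => ?_⟩
      · have := h u hu
        rwa [Function.update_self] at this
      · have := h v hv
        rwa [Function.update_of_ne hvu] at this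
    · rintro ⟨h1, h2⟩ v hv
      by_cases hvu : v = u
      · rw [hvu, Function.update_self, h1]
      · rw [Function.update_of_ne hvu, h2 v hv hvu]
  have e3 : (∀ v, v ∉ X → s v = Function.update s' u a v) ↔
      (s u = a ∧ ∀ v, v ∉ X → v ≠ u → s v = s' v) := by
    constructor
    · intro h
      refine ⟨?_, fun v hv hvu => ?_⟩
      · have := h u hu
        rwa [Function.update_self] at this
      · have := h v hv
        rwa [Function.update_of_ne hvu] at this
    · rintro ⟨h1, h2⟩ v hv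
      by_cases hvu : v = u
      · rw [hvu, Function.update_self, h1]
      · rw [Function.update_of_ne hvu, h2 v hv hvu]
  by_cases p1 : s u = a <;> by_cases p2 : s' u = b <;>
    by_cases p3 : ∀ v, v ∉ X → v ≠ u → s v = s' v
  · rw [if_pos p1, if_pos (e2.mpr ⟨p2.symm, p3⟩), if_pos p2, if_pos (e3.mpr ⟨p1, p3⟩)]
  · rw [if_pos p1, if_neg (fun h => p3 (e2.mp h).2), if_pos p2, if_neg (fun h => p3 (e3.mp h).2)]
  · rw [if_pos p1, if_neg (fun h => p2 (e2.mp h).1.symm), if_neg p2]
  · rw [if_pos p1, if_neg (fun h => p2 (e2.mp h).1.symm), if_neg p2]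
  · rw [if_neg p1, if_pos p2, if_neg (fun h => p1 (e3.mp h).1)]
  · rw [if_neg p1, if_pos p2, if_neg (fun h => p1 (e3.mp h).1)]
  · rw [if_neg p1, if_neg p2]
  · rw [if_neg p1, if_neg p2]

lemma LocalOn.star' {X : Finset (Site L)} {O : Hil d L →L[ℂ] Hil d L} (h : LocalOn X O) :
    LocalOn X (star O) := by
  intro u hu a b
  have h1 := congrArg star (h u hu b a)
  rw [star_mul, star_mul, star_su] at h1
  exact h1.symm

/-- The vectors obtained from `Ψ` by operators acting on `X`. -/
noncomputable def orb (X : Finset (Site L)) (Ψ : Hil d L) : Submodule ℂ (Hil d L) where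
  carrier := {y | ∃ O : Hil d L →L[ℂ] Hil d L, LocalOn X O ∧ O Ψ = y}
  add_mem' := by
    rintro _ _ ⟨O, hO, rfl⟩ ⟨O', hO', rfl⟩
    exact ⟨O + O', hO.add hO', rfl⟩
  zero_mem' := by
    refine ⟨0, fun u _ a b => ?_, rfl⟩
    rw [mul_zero, zero_mul]
  smul_mem' := by
    rintro c _ ⟨O, hO, rfl⟩
    exact ⟨c • O, hO.smul c, rfl⟩

lemma localOn_su {X : Finset (Site L)} {u : Site L} (hu : u ∈ X) (a b : Fin d) :
    LocalOn X (su u a b : Hil d L →L[ℂ] Hil d L) := by
  classical
  rw [localOn_iff]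
  intro w hw a' b' s s'
  rw [mat_su]
  have hne : u ≠ w := fun h => hw (by rw [← h]; exact hu)
  unfold suM
  by_cases p1 : s w = a' <;> by_cases p2 : s' w = b'
  · rw [if_pos p1, if_pos p2, Function.update_of_ne hne, Function.update_of_ne hne]
    have key : (s u = a ∧ s' u = b ∧ ∀ v, v ≠ u → Function.update s w b' v = s' v) ↔
        (s u = a ∧ s' u = b ∧ ∀ v, v ≠ u → s v = Function.update s' w a' v) := by
      refine and_congr Iff.rfl (and_congr Iff.rfl (forall_congr' fun v =>
        forall_congr' fun _ => ?_))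
      by_cases hvw : v = w
      · rw [hvw, Function.update_self, Function.update_self, p1, p2]
        exact ⟨fun _ => rfl, fun _ => rfl⟩
      · rw [Function.update_of_ne hvw, Function.update_of_ne hvw]
    by_cases hk : s u = a ∧ s' u = b ∧ ∀ v, v ≠ u → Function.update s w b' v = s' v
    · rw [if_pos hk, if_pos (key.mp hk)]
    · rw [if_neg hk, if_neg (fun h => hk (key.mpr h))]
  · rw [if_pos p1, if_neg p2, if_neg]
    rintro ⟨_, _, h3⟩
    have := h3 w hne.symm
    rw [Function.update_self] at this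
    exact p2 this.symm
  · rw [if_neg p1, if_pos p2, if_neg]
    rintro ⟨_, _, h3⟩
    have := h3 w hne.symm
    rw [Function.update_self] at this
    exact p1 this
  · rw [if_neg p1, if_neg p2]

lemma exists_local {X : Finset (Site L)} {Ψ x : Hil d L}
    (H : ∀ P : Hil d L →L[ℂ] Hil d L, IsStarProjection P → LocalOn Xᶜ P → P Ψ = Ψ → P x ≠ 0) :
    ∃ O : Hil d L →L[ℂ] Hil d L, LocalOn X O ∧ inner ℂ Ψ (O x) ≠ 0 := by
  by_contra hcon
  push Not at hcon
  have hinv : ∀ T : Hil d L →L[ℂ] Hil d L, LocalOn X T → ∀ y ∈ orb X Ψ, T y ∈ orb X Ψ := by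
    rintro T hT _ ⟨O, hO, rfl⟩
    exact ⟨T * O, hT.mul hO, rfl⟩
  refine H (orb X Ψ).starProjection isStarProjection_starProjection ?_ ?_ ?_
  · intro u hu a b
    have huX : u ∈ X := by
      by_contra h
      exact hu (mem_compl.mpr h)
    refine proj_comm _ _ (hinv _ (localOn_su huX a b)) ?_
    rw [star_su]
    exact hinv _ (localOn_su huX b a)
  · apply Submodule.starProjection_eq_self_iff.mpr
    exact ⟨1, localOn_one X, rfl⟩
  · apply (Submodule.starProjection_apply_eq_zero_iff (orb X Ψ)).mpr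
    rw [Submodule.mem_orthogonal]
    rintro _ ⟨O, hO, rfl⟩
    have h1 := hcon (star O) (LocalOn.star' hO)
    rwa [ContinuousLinearMap.star_eq_adjoint, ContinuousLinearMap.adjoint_inner_right] at h1

lemma actsOn_of_localOn {X : Finset (Site L)} {O : Hil d L →L[ℂ] Hil d L} (h : LocalOn X O) :
    ActsOn X (mat O) := h.form

lemma noExotic_of {h : Matrix (LConf d r) (LConf d r) ℂ} {Ψ : Vec d L} {ρ : ℕ}
    (H : NoExotic L h Ψ ρ) : FFG.NoExotic L h (up Ψ) ρ := by
  classical
  intro S x hx hx0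
  have h1 : (hamOn L h Sᶜ).mulVec x.ofLp = 0 := by
    have h2 := up_hamOn h Sᶜ x.ofLp
    rw [up_ofLp] at h2
    exact congrArg WithLp.ofLp (h2.trans hx0)
  have h2 : x.ofLp ≠ 0 := by
    intro h3
    exact hx (congrArg (WithLp.toLp 2) h3)
  apply exists_local
  intro P hP hPl hPΨ hPx
  have hmv : ∀ y : Hil d L, (mat P).mulVec y.ofLp = (P y).ofLp := by
    intro y
    have e : Matrix.toEuclideanCLM (𝕜 := ℂ) (n := Conf d L) (mat P) = P :=
      StarAlgEquiv.apply_symm_apply _ _
    have h3 : (Matrix.toEuclideanCLM (𝕜 := ℂ) (n := Conf d L) (mat P) y).ofLp =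
        (mat P).mulVec y.ofLp := rfl
    rw [← h3, e]
  refine H S (nbhd ρ S)ᶜ x.ofLp (mat P) h2 h1 ?_ (actsOn_of_localOn hPl) ?_ ?_ ?_ ?_
  · intro u hu v hv hn
    rw [mem_compl] at hu
    apply hu
    unfold nbhd
    rw [mem_filter]
    refine ⟨mem_univ _, v, hv, ?_⟩
    rw [sdist_comm]
    exact (near_iff _ _ _).mp hn
  · have e : Matrix.toEuclideanCLM (𝕜 := ℂ) (n := Conf d L) (mat P) = P :=
      StarAlgEquiv.apply_symm_apply _ _
    have e' : Matrix.toEuclideanCLM (𝕜 := ℂ) (n := Conf d L) (star (mat P)) = P := by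
      rw [map_star, e, hP.isSelfAdjoint.star_eq]
    have h3 : star (mat P) = mat P := by
      have h4 : mat (Matrix.toEuclideanCLM (𝕜 := ℂ) (n := Conf d L) (star (mat P))) =
          star (mat P) := StarAlgEquiv.symm_apply_apply _ _
      rw [← h4, e']
    exact h3
  · rw [← mat_mul, hP.isIdempotentElem.eq]
  · have h3 := hmv (up Ψ)
    rw [hPΨ] at h3
    exact h3
  · rw [hmv, hPx]
    rfl

end Pool.Agent.FFG.Plain
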